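import Pool.Agent.Helper111_GDC.Hull2

set_option autoImplicit false

/-!
Hull polygon, optimal assignment of the interior points to hull edges, and the crossing lemma.
-/

namespace Pool.Agent.Helper111_GDC

open Pool.Agent.Helper111_Chain

theorem getD_snoc {α : Type*} (d : α) : ∀ (l : List α) (i : ℕ), (l ++ [d]).getD i d = l.getD i d
  | [], 0 => rfl
  | [], i + 1 => rfl
  | (a :: l), 0 => rfl
  | (a :: l), i + 1 => by
    simp only [List.cons_append, List.getD_cons_succ]
    exact getD_snoc d l i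

theorem mem_pairs_iff {α : Type*} (d : α) : ∀ {l : List α} {e : α × α}, e ∈ pairs l ↔
    ∃ s, s + 1 < l.length ∧ e = (l.getD s d, l.getD (s + 1) d)
  | [], e => by simp
  | [a], e => by simp
  | (a :: b :: l), e => by
    rw [pairs_cons, List.mem_cons, mem_pairs_iff d]
    constructor
    · rintro (rfl | ⟨s, hs, he⟩)
      · exact ⟨0, by simp, rfl⟩
      · refine ⟨s + 1, by simp at hs ⊢; omega, ?_⟩
        rw [he]
        rfl
    · rintro ⟨s, hs, he⟩
      cases s with
      | zero => exact Or.inl he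
      | succ s =>
        right
        refine ⟨s, by simp at hs ⊢; omega, ?_⟩
        rw [he]
        rfl

theorem Trip.getD {α : Type*} {R : α → α → α → Prop} (d : α) : ∀ {l : List α}, Trip R l →
    ∀ i j k, i < j → j < k → k < l.length → R (l.getD i d) (l.getD j d) (l.getD k d)
  | [], _, i, j, k, _, _, hk => by simp at hk
  | (a :: l), h, 0, j + 1, k + 1, _, hjk, hk => by
    have h1 := List.pairwise_iff_getElem.1 h.1
    have hk' : k < l.length := by simpa using hk
    have hj' : j < l.length := by omega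
    have := h1 j k hj' hk' (by omega)
    simp only [List.getD_cons_zero, List.getD_cons_succ]
    rw [List.getD_eq_getElem _ _ hj', List.getD_eq_getElem _ _ hk']
    exact this
  | (a :: l), h, i + 1, j + 1, k + 1, hij, hjk, hk => by
    have := Trip.getD d h.2 i j k (by omega) (by omega) (by simpa using hk)
    simpa using this

theorem o_aff (p q a b c x : P) : o p q x * o a b c =
    o p q a * o x b c + o p q b * o a x c + o p q c * o a b x := by unfold o; ring

/-- distance functional of the hull edge `i` -/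
def ell (p : ℕ → P) (i : ℕ) (x : P) : ℝ := o (p i) (p (i + 1)) x

/-- Hull polygon `p 0, ..., p (h-1)` of the set `S`. -/
structure HData (S : Finset P) (h : ℕ) (p : ℕ → P) : Prop where
  h3 : 3 ≤ h
  gp : ∀ p ∈ S, ∀ q ∈ S, ∀ r ∈ S, p ≠ q → p ≠ r → q ≠ r → o p q r ≠ 0
  clo : p h = p 0
  pS : ∀ i ≤ h, p i ∈ S
  inj : ∀ i < h, ∀ j < h, p i = p j → i = j
  tri : ∀ i j k, i < j → j < k → k < h → 0 < o (p i) (p j) (p k)
  edge : ∀ i < h, ∀ z ∈ S, z ≠ p i → z ≠ p (i + 1) → 0 < ell p i z
  ext : ∀ i ≤ h, p i ∈ hv S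

theorem exists_hdata (S : Finset P)
    (gp : ∀ p ∈ S, ∀ q ∈ S, ∀ r ∈ S, p ≠ q → p ≠ r → q ≠ r → o p q r ≠ 0) (h : ℕ) (h3 : 3 ≤ h)
    (hh : (hv S).ncard = h) (b : P) (hb : b ∈ hv S) : ∃ p, HData S h p ∧ p 0 = b := by
  classical
  obtain ⟨L, hn, hm, ht, hi⟩ := hull_list S gp b hb
  have hlen : (b :: L).length = h := by
    rw [← hh, ← List.toFinset_card_of_nodup hn, ← Set.ncard_coe_finset]
    congr 1
    ext q
    simp only [List.coe_toFinset]
    exact hm q
  have hgetS : ∀ i ≤ h, (b :: L).getD i b ∈ hv S := by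
    intro i hi
    rcases Nat.lt_or_ge i (b :: L).length with h1 | h1
    · rw [List.getD_eq_getElem _ _ h1, ← hm]
      exact List.getElem_mem h1
    · rw [List.getD_eq_default _ _ h1]
      exact hb
  have hinj : ∀ i < h, ∀ j < h, (b :: L).getD i b = (b :: L).getD j b → i = j := by
    intro i hi j hj he
    rw [← hlen] at hi hj
    rw [List.getD_eq_getElem _ _ hi, List.getD_eq_getElem _ _ hj] at he
    exact (List.Nodup.getElem_inj_iff hn).1 he
  have hclo : (b :: L).getD h b = (b :: L).getD 0 b := by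
    rw [List.getD_eq_default _ _ (by omega)]
    rfl
  have hadj : ∀ i < h, (b :: L).getD i b ≠ (b :: L).getD (i + 1) b := by
    intro i hi he
    rcases Nat.lt_or_ge (i + 1) h with h1 | h1
    · have := hinj i hi (i + 1) h1 he
      omega
    · have h2 : i + 1 = h := by omega
      rw [h2, hclo] at he
      have := hinj i hi 0 (by omega) he
      omega
  refine ⟨fun i => (b :: L).getD i b, ⟨h3, gp, hclo, fun i hi => (hgetS i hi).1, hinj, ?_, ?_,
    hgetS⟩, rfl⟩
  · intro i j k hij hjk hk
    exact Trip.getD b ht i j k hij hjk (by omega)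
  · intro i hi' z hz h1 h2
    have hpair : ((b :: L).getD i b, (b :: L).getD (i + 1) b) ∈ pairs (b :: (L ++ [b])) := by
      rw [mem_pairs_iff b]
      refine ⟨i, ?_, ?_⟩
      · have : (b :: (L ++ [b])).length = (b :: L).length + 1 := by simp
        omega
      · have e1 : b :: (L ++ [b]) = (b :: L) ++ [b] := rfl
        rw [e1, getD_snoc, getD_snoc]
    have h4 := hi _ hpair z hz
    refine lt_of_le_of_ne h4 (Ne.symm ?_)
    exact gp _ (hgetS i (by omega)).1 _ (hgetS (i + 1) (by omega)).1 _ hz (hadj i hi')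
      (Ne.symm h1) (Ne.symm h2)

/-- `z` belongs to the (closed) chain `i`. -/
def InC (p : ℕ → P) (Y : ℕ → Finset P) (i : ℕ) (z : P) : Prop :=
  z ∈ Y i ∨ z = p i ∨ z = p (i + 1)

/-- Optimal assignment of the interior points to the hull edges. -/
structure AData (S : Finset P) (h : ℕ) (p : ℕ → P) (Y : ℕ → Finset P) : Prop where
  H : HData S h p
  YS : ∀ i < h, ∀ z ∈ Y i, z ∈ S
  Yp : ∀ i < h, ∀ z ∈ Y i, ∀ j ≤ h, z ≠ p j
  Yd : ∀ i < h, ∀ j < h, i ≠ j → ∀ z ∈ Y i, z ∉ Y j
  opt : ∀ i < h, ∀ j < h, i ≠ j → ∀ x ∈ Y i, ∀ y ∈ Y j,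
    ell p i x * ell p j y ≤ ell p j x * ell p i y
  all : ∀ z ∈ S, (∃ i < h, z = p i) ∨ ∃ i < h, z ∈ Y i

variable {S : Finset P} {h : ℕ} {p : ℕ → P} {Y : ℕ → Finset P}

theorem HData.pidx (H : HData S h p) {i j : ℕ} (hi : i ≤ h) (hj : j ≤ h) (e : p i = p j) :
    i = j ∨ (i = 0 ∧ j = h) ∨ (i = h ∧ j = 0) := by
  have h3 := H.h3
  rcases Nat.lt_or_ge i h with h1 | h1 <;> rcases Nat.lt_or_ge j h with h2 | h2
  · exact Or.inl (H.inj i h1 j h2 e)
  · have : j = h := by omega
    rw [this, H.clo] at e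
    have := H.inj i h1 0 (by omega) e
    omega
  · have : i = h := by omega
    rw [this, H.clo] at e
    have := H.inj 0 (by omega) j h2 e
    omega
  · omega

theorem HData.adj (H : HData S h p) {i : ℕ} (hi : i < h) : p i ≠ p (i + 1) := by
  intro e
  have h3 := H.h3
  have := H.pidx (by omega) (by omega) e
  omega

theorem HData.ell_nonneg (H : HData S h p) {i : ℕ} (hi : i < h) {z : P} (hz : z ∈ S) :
    0 ≤ ell p i z := by
  by_cases h1 : z = p i
  · unfold ell; rw [h1, o_self13]
  · by_cases h2 : z = p (i + 1)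
    · unfold ell; rw [h2, o_self23]
    · exact (H.edge i hi z hz h1 h2).le

theorem HData.ell_zero (H : HData S h p) {i : ℕ} (hi : i < h) {z : P} (hz : z ∈ S)
    (h0 : ell p i z = 0) : z = p i ∨ z = p (i + 1) := by
  by_contra hc
  push Not at hc
  have := H.edge i hi z hz hc.1 hc.2
  linarith

theorem AData.inS (A : AData S h p Y) {i : ℕ} (hi : i < h) {z : P} (hz : InC p Y i z) :
    z ∈ S := by
  rcases hz with hz | hz | hz
  · exact A.YS i hi z hz
  · rw [hz]; exact A.H.pS i (by omega)
  · rw [hz]; exact A.H.pS (i + 1) (by omega)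

theorem AData.common (A : AData S h p Y) {i j : ℕ} (hi : i < h) (hj : j < h) (hij : i ≠ j)
    {a : P} (h1 : InC p Y i a) (h2 : InC p Y j a) : a = p i ∨ a = p (i + 1) := by
  rcases h1 with h1 | h1
  · exfalso
    rcases h2 with h2 | h2 | h2
    · exact A.Yd i hi j hj hij a h1 h2
    · exact A.Yp i hi a h1 j (by omega) h2
    · exact A.Yp i hi a h1 (j + 1) (by omega) h2
  · exact h1

theorem AData.unique (A : AData S h p Y) {i j : ℕ} (hi : i < h) (hj : j < h) (hij : i ≠ j)
    {a b : P} (h1 : InC p Y i a) (h2 : InC p Y j a) (h3 : InC p Y i b) (h4 : InC p Y j b) :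
    a = b := by
  have c1 := A.common hi hj hij h1 h2
  have c2 := A.common hj hi (Ne.symm hij) h2 h1
  have c3 := A.common hi hj hij h3 h4
  have c4 := A.common hj hi (Ne.symm hij) h4 h3
  have hh := A.H.h3
  rcases c1 with c1 | c1 <;> rcases c3 with c3 | c3
  · rw [c1, c3]
  · rcases c2 with c2 | c2 <;> rcases c4 with c4 | c4
    · rw [c2, c4]
    · exfalso
      have k1 := A.H.pidx (by omega) (by omega) (c1.symm.trans c2)
      have k2 := A.H.pidx (by omega) (by omega) (c3.symm.trans c4)
      omega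
    · exfalso
      have k1 := A.H.pidx (by omega) (by omega) (c1.symm.trans c2)
      have k2 := A.H.pidx (by omega) (by omega) (c3.symm.trans c4)
      omega
    · rw [c2, c4]
  · rcases c2 with c2 | c2 <;> rcases c4 with c4 | c4
    · rw [c2, c4]
    · exfalso
      have k1 := A.H.pidx (by omega) (by omega) (c1.symm.trans c2)
      have k2 := A.H.pidx (by omega) (by omega) (c3.symm.trans c4)
      omega
    · exfalso
      have k1 := A.H.pidx (by omega) (by omega) (c1.symm.trans c2)
      have k2 := A.H.pidx (by omega) (by omega) (c3.symm.trans c4)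
      omega
    · rw [c2, c4]
  · rw [c1, c3]

theorem AData.bnn (A : AData S h p Y) {i j : ℕ} (hi : i < h) (hj : j < h) (hij : i ≠ j)
    {x y : P} (h1 : InC p Y i x) (h2 : InC p Y j y) :
    0 ≤ ell p j x * ell p i y - ell p i x * ell p j y := by
  have n1 := A.H.ell_nonneg hj (A.inS hi h1)
  have n2 := A.H.ell_nonneg hi (A.inS hj h2)
  have key0 : ell p i x = 0 → 0 ≤ ell p j x * ell p i y - ell p i x * ell p j y := by
    intro h0
    rw [h0]
    have := mul_nonneg n1 n2
    linarith
  have key1 : ell p j y = 0 → 0 ≤ ell p j x * ell p i y - ell p i x * ell p j y := by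
    intro h0
    rw [h0]
    have := mul_nonneg n1 n2
    linarith
  rcases h1 with h1 | h1 | h1
  · rcases h2 with h2 | h2 | h2
    · have := A.opt i hi j hj hij x h1 y h2
      linarith
    · exact key1 (by unfold ell; rw [h2, o_self13])
    · exact key1 (by unfold ell; rw [h2, o_self23])
  · exact key0 (by unfold ell; rw [h1, o_self13])
  · exact key0 (by unfold ell; rw [h1, o_self23])

theorem AData.bzero (A : AData S h p Y) {i j : ℕ} (hi : i < h) (hj : j < h) (hij : i ≠ j)
    {a b y : P} (ha : InC p Y i a) (hb : InC p Y i b) (hab : a ≠ b) (hy : InC p Y j y)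
    (h1 : ell p j a * ell p i y - ell p i a * ell p j y = 0)
    (h2 : ell p j b * ell p i y - ell p i b * ell p j y = 0) : InC p Y i y := by
  by_cases e1 : y = a
  · rw [e1]; exact ha
  by_cases e2 : y = b
  · rw [e2]; exact hb
  have hne : o a b y ≠ 0 := A.H.gp _ (A.inS hi ha) _ (A.inS hi hb) _ (A.inS hj hy) hab
    (Ne.symm e1) (Ne.symm e2)
  have hall : ∀ x : P, ell p j x * ell p i y - ell p i x * ell p j y = 0 := by
    intro x
    have k1 := o_aff (p j) (p (j + 1)) a b y x
    have k2 := o_aff (p i) (p (i + 1)) a b y x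
    have : (ell p j x * ell p i y - ell p i x * ell p j y) * o a b y = 0 := by
      unfold ell at *
      linear_combination o (p i) (p (i + 1)) y * k1 - o (p j) (p (j + 1)) y * k2 +
        o x b y * h1 + o a x y * h2
    exact (mul_eq_zero.1 this).resolve_right hne
  have z1 : ell p i (p i) = 0 := by unfold ell; rw [o_self13]
  have z2 : ell p i (p (i + 1)) = 0 := by unfold ell; rw [o_self23]
  have k1 := hall (p i)
  have k2 := hall (p (i + 1))
  rw [z1] at k1
  rw [z2] at k2
  have hy0 : ell p i y = 0 := by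
    by_contra hne'
    have j1 : ell p j (p i) = 0 := by
      have : ell p j (p i) * ell p i y = 0 := by linarith
      exact (mul_eq_zero.1 this).resolve_right hne'
    have j2 : ell p j (p (i + 1)) = 0 := by
      have : ell p j (p (i + 1)) * ell p i y = 0 := by linarith
      exact (mul_eq_zero.1 this).resolve_right hne'
    have c1 := A.H.ell_zero hj (A.H.pS i (by omega)) j1
    have c2 := A.H.ell_zero hj (A.H.pS (i + 1) (by omega)) j2
    exact A.H.adj hi (A.unique hi hj hij (Or.inr (Or.inl rfl)) (Or.inr c1)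
      (Or.inr (Or.inr rfl)) (Or.inr c2))
  exact Or.inr (A.H.ell_zero hi (A.inS hj hy) hy0)

theorem AData.half (A : AData S h p Y) {i j : ℕ} (hi : i < h) (hj : j < h) (hij : i ≠ j)
    {a b c d z : P} (ha : InC p Y i a) (hb : InC p Y i b) (hab : a ≠ b) (hc : InC p Y j c)
    (hd : InC p Y j d) (hcd : c ≠ d) (hz : z ∈ segment ℝ a b) (hz' : z ∈ segment ℝ c d) :
    z = a ∨ z = b := by
  by_contra hcon
  push Not at hcon
  have h0 := o_seg hz
  have hzS : z ∈ S → InC p Y i z → False := by
    intro hzS _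
    exact A.H.gp _ (A.inS hi ha) _ (A.inS hi hb) _ hzS hab (Ne.symm hcon.1) (Ne.symm hcon.2) h0
  obtain ⟨s, t, hs, ht, hst, hzab⟩ := hz
  obtain ⟨s', t', hs', ht', hst', hzcd⟩ := hz'
  have hs0 : 0 < s := by
    rcases eq_or_lt_of_le hs with h1 | h1
    · exfalso
      apply hcon.2
      have : t = 1 := by linarith
      rw [← hzab, ← h1, this]; simp
    · exact h1
  have ht0 : 0 < t := by
    rcases eq_or_lt_of_le ht with h1 | h1
    · exfalso
      apply hcon.1
      have : s = 1 := by linarith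
      rw [← hzab, ← h1, this]; simp
    · exact h1
  have b1 := A.bnn hi hj hij ha hc
  have b2 := A.bnn hi hj hij ha hd
  have b3 := A.bnn hi hj hij hb hc
  have b4 := A.bnn hi hj hij hb hd
  have e1 : ell p i z = s * ell p i a + t * ell p i b := by
    rw [← hzab]; exact o_comb _ _ _ _ s t hst
  have e2 : ell p j z = s * ell p j a + t * ell p j b := by
    rw [← hzab]; exact o_comb _ _ _ _ s t hst
  have e3 : ell p i z = s' * ell p i c + t' * ell p i d := by
    rw [← hzcd]; exact o_comb _ _ _ _ s' t' hst'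
  have e4 : ell p j z = s' * ell p j c + t' * ell p j d := by
    rw [← hzcd]; exact o_comb _ _ _ _ s' t' hst'
  have hsum : s * s' * (ell p j a * ell p i c - ell p i a * ell p j c) +
      s * t' * (ell p j a * ell p i d - ell p i a * ell p j d) +
      t * s' * (ell p j b * ell p i c - ell p i b * ell p j c) +
      t * t' * (ell p j b * ell p i d - ell p i b * ell p j d) = 0 := by
    have : ell p j z * ell p i z - ell p i z * ell p j z = 0 := by ring
    calc _ = (s * ell p j a + t * ell p j b) * (s' * ell p i c + t' * ell p i d) -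
          (s * ell p i a + t * ell p i b) * (s' * ell p j c + t' * ell p j d) := by ring
      _ = 0 := by rw [← e1, ← e2, ← e3, ← e4]; exact this
  have m1 := mul_nonneg (mul_nonneg hs0.le hs') b1
  have m2 := mul_nonneg (mul_nonneg hs0.le ht') b2
  have m3 := mul_nonneg (mul_nonneg ht0.le hs') b3
  have m4 := mul_nonneg (mul_nonneg ht0.le ht') b4
  have hcC : 0 < s' → InC p Y i c := by
    intro hs'0
    refine A.bzero hi hj hij ha hb hab hc ?_ ?_
    · have : s * s' * (ell p j a * ell p i c - ell p i a * ell p j c) = 0 := by linarith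
      exact (mul_eq_zero.1 this).resolve_left (by positivity)
    · have : t * s' * (ell p j b * ell p i c - ell p i b * ell p j c) = 0 := by linarith
      exact (mul_eq_zero.1 this).resolve_left (by positivity)
  have hdC : 0 < t' → InC p Y i d := by
    intro ht'0
    refine A.bzero hi hj hij ha hb hab hd ?_ ?_
    · have : s * t' * (ell p j a * ell p i d - ell p i a * ell p j d) = 0 := by linarith
      exact (mul_eq_zero.1 this).resolve_left (by positivity)
    · have : t * t' * (ell p j b * ell p i d - ell p i b * ell p j d) = 0 := by linarith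
      exact (mul_eq_zero.1 this).resolve_left (by positivity)
  rcases eq_or_lt_of_le hs' with h1 | h1
  · have : t' = 1 := by linarith
    have hzd : z = d := by rw [← hzcd, ← h1, this]; simp
    rw [hzd] at hzS
    exact hzS (A.inS hj hd) (hdC (by linarith))
  · rcases eq_or_lt_of_le ht' with h2 | h2
    · have : s' = 1 := by linarith
      have hzc : z = c := by rw [← hzcd, ← h2, this]; simp
      rw [hzc] at hzS
      exact hzS (A.inS hj hc) (hcC h1)
    · exact hcd (A.unique hi hj hij (hcC h1) hc (hdC h2) hd)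

theorem AData.cross (A : AData S h p Y) {i j : ℕ} (hi : i < h) (hj : j < h) (hij : i ≠ j)
    {a b c d z : P} (ha : InC p Y i a) (hb : InC p Y i b) (hab : a ≠ b) (hc : InC p Y j c)
    (hd : InC p Y j d) (hcd : c ≠ d) (hz : z ∈ segment ℝ a b) (hz' : z ∈ segment ℝ c d) :
    (z = a ∨ z = b) ∧ (z = c ∨ z = d) :=
  ⟨A.half hi hj hij ha hb hab hc hd hcd hz hz',
    A.half hj hi (Ne.symm hij) hc hd hcd ha hb hab hz' hz⟩

theorem exists_fibres {ι : Type*} [Fintype ι] (h : ℕ) (m : ℕ → ℕ)
    (hm : Fintype.card ι = ∑ i : Fin h, m i) :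
    ∃ τ : ι → Fin h, ∀ i : Fin h, (Finset.univ.filter (fun x => τ x = i)).card = m i := by
  classical
  have e1 : ι ≃ Fin (∑ i : Fin h, m i) := Fintype.equivFinOfCardEq hm
  let e2 : ι ≃ (Σ i : Fin h, Fin (m i)) :=
    e1.trans (finSigmaFinEquiv (m := h) (n := fun i : Fin h => m i)).symm
  refine ⟨fun x => (e2 x).1, fun i => ?_⟩
  have h1 : (Finset.univ.filter (fun x => (e2 x).1 = i)).card =
      (Finset.univ.filter (fun y : (Σ i : Fin h, Fin (m i)) => y.1 = i)).card := by
    refine Finset.card_bij (fun x _ => e2 x) ?_ ?_ ?_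
    · intro x hx
      simpa using hx
    · intro x _ y _ hxy
      exact e2.injective hxy
    · intro y hy
      refine ⟨e2.symm y, ?_, by simp⟩
      simpa using hy
  rw [h1]
  have h2 : (Finset.univ.filter (fun y : (Σ i : Fin h, Fin (m i)) => y.1 = i)) =
      (Finset.univ : Finset (Fin (m i))).map ⟨fun s => (⟨i, s⟩ : Σ i : Fin h, Fin (m i)),
        fun a b hab => by simpa using hab⟩ := by
    ext y
    simp only [Finset.mem_filter, Finset.mem_univ, true_and, Finset.mem_map,
      Function.Embedding.coeFn_mk]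
    constructor
    · intro hy
      obtain ⟨a, s⟩ := y
      subst hy
      exact ⟨s, rfl⟩
    · rintro ⟨s, rfl⟩
      rfl
  rw [h2, Finset.card_map, Finset.card_univ, Fintype.card_fin]

theorem exists_assign (H : HData S h p) (m : ℕ → ℕ)
    (hm : S.card = h + ∑ i ∈ Finset.range h, m i) :
    ∃ Y, AData S h p Y ∧ ∀ i < h, (Y i).card = m i := by
  classical
  have hh := H.h3
  set V : Finset P := (Finset.range h).image p with hV
  have hVc : V.card = h := by
    rw [hV, Finset.card_image_of_injOn, Finset.card_range]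
    intro i hi j hj e
    exact H.inj i (by simpa using hi) j (by simpa using hj) e
  have hVS : V ⊆ S := by
    intro z hz
    obtain ⟨i, hi, rfl⟩ := Finset.mem_image.1 hz
    exact H.pS i (by have := Finset.mem_range.1 hi; omega)
  set X : Finset P := S \ V with hX
  have hXc : X.card = ∑ i ∈ Finset.range h, m i := by
    rw [hX, Finset.card_sdiff_of_subset hVS, hVc]
    omega
  have hXp : ∀ z ∈ X, ∀ j ≤ h, z ≠ p j := by
    rintro z hz j hj rfl
    rw [hX, Finset.mem_sdiff] at hz
    apply hz.2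
    rcases Nat.lt_or_ge j h with h1 | h1
    · exact Finset.mem_image.2 ⟨j, Finset.mem_range.2 h1, rfl⟩
    · have : j = h := by omega
      rw [this, H.clo]
      exact Finset.mem_image.2 ⟨0, Finset.mem_range.2 (by omega), rfl⟩
  have hXS : ∀ z ∈ X, z ∈ S := fun z hz => (Finset.mem_sdiff.1 hz).1
  have hpos : ∀ z ∈ X, ∀ i < h, 0 < ell p i z := fun z hz i hi =>
    H.edge i hi z (hXS z hz) (hXp z hz i (by omega)) (hXp z hz (i + 1) (by omega))
  obtain ⟨τ, hτ⟩ := exists_fibres (ι := {x // x ∈ X}) h m (by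
    rw [Fintype.card_coe, hXc, Finset.sum_range])
  obtain ⟨π, hπ⟩ := Finite.exists_min (fun π : Equiv.Perm {x // x ∈ X} =>
    ∑ x, Real.log (ell p (τ (π x)) x.1))
  let Y : ℕ → Finset P := fun i => if hi : i < h then
    (Finset.univ.filter (fun x : {x // x ∈ X} => τ (π x) = ⟨i, hi⟩)).image Subtype.val else ∅
  have hYmem : ∀ i (hi : i < h) z, z ∈ Y i ↔ ∃ hz : z ∈ X, τ (π ⟨z, hz⟩) = ⟨i, hi⟩ := by
    intro i hi z
    simp only [Y, dif_pos hi, Finset.mem_image, Finset.mem_filter, Finset.mem_univ, true_and]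
    constructor
    · rintro ⟨x, hx, rfl⟩
      exact ⟨x.2, hx⟩
    · rintro ⟨hz, h1⟩
      exact ⟨⟨z, hz⟩, h1, rfl⟩
  refine ⟨Y, ⟨H, ?_, ?_, ?_, ?_, ?_⟩, ?_⟩
  · intro i hi z hz
    obtain ⟨hz', _⟩ := (hYmem i hi z).1 hz
    exact hXS z hz'
  · intro i hi z hz
    obtain ⟨hz', _⟩ := (hYmem i hi z).1 hz
    exact hXp z hz'
  · intro i hi j hj hij z hz hz2
    obtain ⟨hz', h1⟩ := (hYmem i hi z).1 hz
    obtain ⟨_, h2⟩ := (hYmem j hj z).1 hz2
    rw [h1] at h2
    apply hij
    simpa using h2
  · intro i hi j hj hij x hx y hy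
    obtain ⟨hxX, h1⟩ := (hYmem i hi x).1 hx
    obtain ⟨hyX, h2⟩ := (hYmem j hj y).1 hy
    have hxy : (⟨x, hxX⟩ : {x // x ∈ X}) ≠ ⟨y, hyX⟩ := by
      intro e
      rw [e, h2] at h1
      apply hij
      simpa using h1.symm
    obtain ⟨sp, hsp⟩ : ∃ sp : Equiv.Perm {x // x ∈ X},
        sp = Equiv.swap (⟨x, hxX⟩ : {x // x ∈ X}) ⟨y, hyX⟩ := ⟨_, rfl⟩
    have hle := hπ (π * sp)
    have hdiff : (0 : ℝ) ≤ ∑ z : {x // x ∈ X},
        (Real.log (ell p (τ ((π * sp) z)) z.1) -
          Real.log (ell p (τ (π z)) z.1)) := by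
      rw [Finset.sum_sub_distrib]
      linarith
    rw [Finset.sum_eq_add (⟨x, hxX⟩ : {x // x ∈ X}) ⟨y, hyX⟩ hxy (by
      rintro z _ ⟨hz1, hz2⟩
      rw [Equiv.Perm.mul_apply, hsp, Equiv.swap_apply_of_ne_of_ne hz1 hz2]
      ring) (by simp) (by simp)] at hdiff
    rw [Equiv.Perm.mul_apply, Equiv.Perm.mul_apply, hsp, Equiv.swap_apply_left,
      Equiv.swap_apply_right] at hdiff
    rw [h1, h2] at hdiff
    have px := hpos x hxX
    have py := hpos y hyX
    have h5 : Real.log (ell p i x * ell p j y) ≤ Real.log (ell p j x * ell p i y) := by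
      rw [Real.log_mul (px i hi).ne' (py j hj).ne', Real.log_mul (px j hj).ne' (py i hi).ne']
      linarith
    exact (Real.log_le_log_iff (mul_pos (px i hi) (py j hj)) (mul_pos (px j hj) (py i hi))).1 h5
  · intro z hz
    by_cases hzV : z ∈ V
    · left
      obtain ⟨i, hi, rfl⟩ := Finset.mem_image.1 hzV
      exact ⟨i, Finset.mem_range.1 hi, rfl⟩
    · right
      have hzX : z ∈ X := Finset.mem_sdiff.2 ⟨hz, hzV⟩
      refine ⟨(τ (π ⟨z, hzX⟩)).1, (τ (π ⟨z, hzX⟩)).2, ?_⟩
      rw [hYmem _ (τ (π ⟨z, hzX⟩)).2]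
      exact ⟨hzX, rfl⟩
  · intro i hi
    simp only [Y, dif_pos hi]
    rw [Finset.card_image_of_injective _ Subtype.val_injective, ← hτ ⟨i, hi⟩]
    refine Finset.card_bij (fun x _ => π x) ?_ ?_ ?_
    · intro x hx
      simpa using hx
    · intro x _ y _ hxy
      exact π.injective hxy
    · intro y hy
      refine ⟨π.symm y, ?_, by simp⟩
      simpa using hy

end Pool.Agent.Helper111_GDC
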