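import Pool.Agent.Helper111_GDC.Sep

set_option autoImplicit false

/-!
Binary space partition of a convex pocket: the points inside a pocket are pushed to its inner
boundary, all at once.
-/

namespace Pool.Agent.Helper111_GDC

open Pool.Agent.Helper111_Chain

/-- A convex pocket with inner chain `v 0, ..., v k`; the face on the other side of the edge
`v j, v (j+1)` has apex `w j`; `X` is the set of points strictly inside the pocket. -/
structure Chn (S : Finset P) (k : ℕ) (v w : ℕ → P) (X : Finset P) : Prop where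
  gp : ∀ p ∈ S, ∀ q ∈ S, ∀ r ∈ S, p ≠ q → p ≠ r → q ≠ r → o p q r ≠ 0
  vS : ∀ j ≤ k, v j ∈ S
  wS : ∀ j < k, w j ∈ S
  XS : ∀ z ∈ X, z ∈ S
  tc : ∀ i j l, i < j → j < l → l ≤ k → o (v i) (v j) (v l) < 0
  inj : ∀ i j, i < j → j ≤ k → v i ≠ v j
  face : ∀ j < k, 0 < o (v j) (v (j + 1)) (w j)
  pk : ∀ j < k, ∀ z ∈ X, o (v j) (v (j + 1)) z < 0
  wv : ∀ j < k, ∀ i ≤ k, w j ≠ v i
  ov : ∀ j, 0 < j → j < k → ∀ z ∈ X, ¬ (o (v j) (w (j - 1)) z < 0 ∧ 0 < o (v j) (w j) z)

variable {S : Finset P} {k : ℕ} {v w : ℕ → P} {X : Finset P}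

theorem cross_lemma {a b c d w : P} (h1 : 0 < o a b w) (h2 : o a b c < 0) (h3 : o d a b < 0)
    (h4 : o d a c < 0) (h5 : o d b c < 0) (hU : 0 < o a w c) (hL : o b w d < 0) : False := by
  have e1 := o_sum a b c w
  have e2 := o_sum d a b w
  have e3 := o_sum d a c w
  have e4 := o_sum d b c w
  have gp := o_gp w a b c d
  have r1 : o a b w = o w a b := (o_cyc' a b w).symm
  have r2 : o b c w = o w b c := (o_cyc' b c w).symm
  have r3 : o c a w = o w c a := (o_cyc' c a w).symm
  have r4 : o d a w = o w d a := (o_cyc' d a w).symm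
  have r5 : o b d w = o w b d := (o_cyc' b d w).symm
  have r6 : o a c w = o w a c := (o_cyc' a c w).symm
  have r7 : o c d w = o w c d := (o_cyc' c d w).symm
  have r8 : o d b w = o w d b := (o_cyc' d b w).symm
  have s1 : o w b c = - o w c b := o_swap23 _ _ _
  have s2 : o w d a = - o w a d := o_swap23 _ _ _
  have s3 : o w a c = - o w c a := o_swap23 _ _ _
  have s4 : o w d b = - o w b d := o_swap23 _ _ _
  have s5 : o a w c = o w c a := by unfold o; ring
  have s6 : o b w d = - o w b d := o_swap12 _ _ _
  rw [r1, r2, r3] at e1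
  rw [r4, r1, r5] at e2
  rw [r4, r6, r7] at e3
  rw [r8, r2, r7] at e4
  rw [s1] at e1 e4 gp
  rw [s2] at e2 e3
  rw [s3] at e3 gp
  rw [s4] at e4
  rw [r1] at h1
  rw [s5] at hU
  rw [s6] at hL
  set A := o w a b
  set B := o w c a
  set C := o w b d
  set p := o w a d
  set q := o w c b
  set r := o w c d
  have hp : A + C < p := by linarith
  have hq : A + B < q := by linarith
  have hr : r < p + B := by linarith
  have key : A * r = p * q - B * C := by linarith
  have m1 : 0 < (p - (A + C)) * (q - A) := mul_pos (by linarith) (by linarith)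
  have m2 : 0 < (A + C) * (q - A - B) := mul_pos (by linarith) (by linarith)
  have m3 : A * r < A * (p + B) := mul_lt_mul_of_pos_left hr h1
  nlinarith

theorem Chn.exists_vertex (h : Chn S k v w X) {i j : ℕ} (hij : i + 1 < j) (hj : j ≤ k) :
    ∃ s, i < s ∧ s < j ∧ o (v s) (w s) (v j) < 0 ∧ 0 < o (v s) (w (s - 1)) (v i) := by
  by_contra hc
  push Not at hc
  have hU : ∀ n, i + 1 + n < j → 0 < o (v (i + 1 + n)) (w (i + 1 + n)) (v j) := by
    intro n
    induction n with
    | zero =>
      intro hn
      have hne : o (v (i + 1)) (w (i + 1)) (v j) ≠ 0 :=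
        h.gp _ (h.vS _ (by omega)) _ (h.wS _ (by omega)) _ (h.vS _ hj)
          (Ne.symm (h.wv _ (by omega) _ (by omega))) (h.inj _ _ (by omega) hj)
          (h.wv _ (by omega) _ hj)
      rcases lt_or_gt_of_ne hne with hlt | hgt
      · have := hc (i + 1) (by omega) (by omega) hlt
        have hf := h.face i (by omega)
        rw [← o_cyc] at hf
        have e : i + 1 - 1 = i := by omega
        rw [e] at this
        linarith
      · exact hgt
    | succ n ih =>
      intro hn
      have ihn := ih (by omega)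
      have e0 : i + 1 + (n + 1) = (i + 1 + n) + 1 := by omega
      rw [e0]
      set s := i + 1 + n with hs
      have hne : o (v (s + 1)) (w (s + 1)) (v j) ≠ 0 :=
        h.gp _ (h.vS _ (by omega)) _ (h.wS _ (by omega)) _ (h.vS _ hj)
          (Ne.symm (h.wv _ (by omega) _ (by omega))) (h.inj _ _ (by omega) hj)
          (h.wv _ (by omega) _ hj)
      rcases lt_or_gt_of_ne hne with hlt | hgt
      · exfalso
        have h1 := hc (s + 1) (by omega) (by omega) hlt
        have e : s + 1 - 1 = s := by omega
        rw [e] at h1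
        have hne2 : o (v (s + 1)) (w s) (v i) ≠ 0 :=
          h.gp _ (h.vS _ (by omega)) _ (h.wS _ (by omega)) _ (h.vS _ (by omega))
            (Ne.symm (h.wv _ (by omega) _ (by omega))) (Ne.symm (h.inj _ _ (by omega) (by omega)))
            (h.wv _ (by omega) _ (by omega))
        have h2 : o (v (s + 1)) (w s) (v i) < 0 := lt_of_le_of_ne h1 hne2
        exact cross_lemma (a := v s) (b := v (s + 1)) (c := v j) (d := v i) (w := w s)
          (h.face s (by omega)) (h.tc _ _ _ (by omega) (by omega) hj)
          (h.tc _ _ _ (by omega) (by omega) (by omega)) (h.tc _ _ _ (by omega) (by omega) hj)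
          (h.tc _ _ _ (by omega) (by omega) hj) ihn h2
      · exact hgt
  have h1 := hU (j - 1 - (i + 1)) (by omega)
  have e : i + 1 + (j - 1 - (i + 1)) = j - 1 := by omega
  rw [e] at h1
  have hf := h.face (j - 1) (by omega)
  have e2 : j - 1 + 1 = j := by omega
  rw [e2, o_swap23] at hf
  linarith

/-- Result of pushing the points of `Q` onto the chain between `v i` and `v j`. -/
def Pushed (v w : ℕ → P) (i j : ℕ) (Q : Finset P) : Prop :=
  ∃ (M : List P) (F : List (P × P × P)),
    M.Nodup ∧ (∀ p, p ∈ M ↔ p ∈ Q ∨ ∃ s, i < s ∧ s < j ∧ v s = p) ∧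
    ((List.range' i (j - i)).map v).Sublist (v i :: M) ∧
    Sep2 (v i :: (M ++ [v j])) ∧
    (∀ t ∈ F, 0 < o t.1 t.2.1 t.2.2 ∧ ∃ s, i ≤ s ∧ s < j ∧ t.2.2 = w s ∧
      (t.1, t.2.1) ∈ pairs (v i :: (M ++ [v j]))) ∧
    (∀ e ∈ pairs (v i :: (M ++ [v j])), ∃ t ∈ F, (t.1, t.2.1) = e) ∧
    ∀ f : P → P → ℝ, (∀ u v, f v u = - f u v) →
      bds f F = path f (v i :: (M ++ [v j])) +
        ∑ s ∈ Finset.Ico i j, (f (v (s + 1)) (w s) + f (w s) (v s))

theorem Pushed.combine (hinj : ∀ i j, i < j → j ≤ k → v i ≠ v j)
    (hXv : ∀ z ∈ X, ∀ j ≤ k, z ≠ v j) {i s j : ℕ} (his : i < s) (hsj : s < j) (hj : j ≤ k)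
    {Q Q1 Q2 : Finset P} (hQX : ∀ z ∈ Q, z ∈ X) (hQ : ∀ z, z ∈ Q ↔ z ∈ Q1 ∨ z ∈ Q2)
    (hdisj : ∀ z ∈ Q1, z ∉ Q2) (h1 : Pushed v w i s Q1) (h2 : Pushed v w s j Q2) (q : P)
    (hA : ∀ z ∈ Q1, 0 ≤ o (v s) q z) (hAv : ∀ t, i ≤ t → t < s → 0 ≤ o (v s) q (v t))
    (hB : ∀ z ∈ Q2, o (v s) q z < 0) (hBv : ∀ t, s < t → t ≤ j → o (v s) q (v t) < 0) :
    Pushed v w i j Q := by
  obtain ⟨M1, F1, n1, m1, l1, s1, p1, u1, b1⟩ := h1
  obtain ⟨M2, F2, n2, m2, l2, s2, p2, u2, b2⟩ := h2
  have hL : v i :: ((M1 ++ v s :: M2) ++ [v j]) = (v i :: M1) ++ v s :: (M2 ++ [v j]) := by simp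
  have hL1 : v i :: (M1 ++ [v s]) = (v i :: M1) ++ [v s] := by simp
  refine ⟨M1 ++ v s :: M2, F1 ++ F2, ?_, ?_, ?_, ?_, ?_, ?_, ?_⟩
  · rw [List.nodup_append, List.nodup_cons]
    refine ⟨n1, ⟨?_, n2⟩, ?_⟩
    · intro hm
      rcases (m2 _).1 hm with hz | ⟨t, ht1, ht2, ht3⟩
      · exact hXv _ (hQX _ ((hQ _).2 (Or.inr hz))) s (by omega) rfl
      · exact hinj s t ht1 (by omega) ht3.symm
    · intro a ha b hb e
      rw [← e] at hb
      rcases List.mem_cons.1 hb with hb | hb
      · rcases (m1 _).1 ha with hz | ⟨t, ht1, ht2, ht3⟩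
        · exact hXv _ (hQX _ ((hQ _).2 (Or.inl hz))) s (by omega) hb
        · exact hinj t s ht2 (by omega) (ht3.trans hb)
      · rcases (m1 _).1 ha with hz | ⟨t, ht1, ht2, ht3⟩
        · rcases (m2 _).1 hb with hz' | ⟨t', ht1', ht2', ht3'⟩
          · exact hdisj _ hz hz'
          · exact hXv _ (hQX _ ((hQ _).2 (Or.inl hz))) t' (by omega) ht3'.symm
        · rcases (m2 _).1 hb with hz' | ⟨t', ht1', ht2', ht3'⟩
          · exact hXv _ (hQX _ ((hQ _).2 (Or.inr hz'))) t (by omega) ht3.symm
          · exact hinj t t' (by omega) (by omega) (ht3.trans ht3'.symm)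
  · intro p
    rw [List.mem_append, List.mem_cons, m1, m2, hQ]
    constructor
    · rintro ((h | ⟨t, a, b, c⟩) | h | (h | ⟨t, a, b, c⟩))
      · exact Or.inl (Or.inl h)
      · exact Or.inr ⟨t, a, by omega, c⟩
      · exact Or.inr ⟨s, his, hsj, h.symm⟩
      · exact Or.inl (Or.inr h)
      · exact Or.inr ⟨t, by omega, b, c⟩
    · rintro ((h | h) | ⟨t, a, b, c⟩)
      · exact Or.inl (Or.inl h)
      · exact Or.inr (Or.inr (Or.inl h))
      · rcases lt_trichotomy t s with h | h | h
        · exact Or.inl (Or.inr ⟨t, a, h, c⟩)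
        · exact Or.inr (Or.inl (by rw [← c, h]))
        · exact Or.inr (Or.inr (Or.inr ⟨t, h, b, c⟩))
  · have e1 : List.range' i (j - i) = List.range' i (s - i) ++ List.range' s (j - s) := by
      have e2 : j - i = (s - i) + (j - s) := by omega
      have e3 : s = i + 1 * (s - i) := by omega
      rw [e2, ← List.range'_append]
      rw [← e3]
    rw [e1, List.map_append]
    exact l1.append l2
  · rw [hL]
    refine Sep2.join (v i :: M1) (M2 ++ [v j]) (v s) q (by rw [← hL1]; exact s1) s2 ?_ ?_
    · intro a ha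
      rcases List.mem_cons.1 ha with rfl | ha
      · exact hAv i le_rfl his
      · rcases (m1 _).1 ha with hz | ⟨t, ht1, ht2, ht3⟩
        · exact hA _ hz
        · rw [← ht3]; exact hAv t (by omega) ht2
    · intro a ha
      rcases List.mem_append.1 ha with ha | ha
      · rcases (m2 _).1 ha with hz | ⟨t, ht1, ht2, ht3⟩
        · exact hB _ hz
        · rw [← ht3]; exact hBv t ht1 (by omega)
      · rw [List.mem_singleton.1 ha]; exact hBv j hsj le_rfl
  · intro t ht
    rcases List.mem_append.1 ht with ht | ht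
    · obtain ⟨a, t', b, c, d, e⟩ := p1 t ht
      refine ⟨a, t', b, by omega, d, ?_⟩
      rw [hL, pairs_append, ← hL1]
      exact List.mem_append_left _ e
    · obtain ⟨a, t', b, c, d, e⟩ := p2 t ht
      refine ⟨a, t', by omega, c, d, ?_⟩
      rw [hL, pairs_append]
      exact List.mem_append_right _ e
  · intro e he
    rw [hL, pairs_append, ← hL1] at he
    rcases List.mem_append.1 he with he | he
    · obtain ⟨t, ht, h⟩ := u1 e he
      exact ⟨t, List.mem_append_left _ ht, h⟩
    · obtain ⟨t, ht, h⟩ := u2 e he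
      exact ⟨t, List.mem_append_right _ ht, h⟩
  · intro f hf
    rw [bds_append, b1 f hf, b2 f hf, hL, path_append, ← hL1,
      ← Finset.sum_Ico_consecutive _ his.le hsj.le]
    ring

theorem Chn.push (h : Chn S k v w X) (hXv : ∀ z ∈ X, ∀ j ≤ k, z ≠ v j)
    (hXw : ∀ z ∈ X, ∀ j < k, z ≠ w j) : ∀ (n i j : ℕ), j - i = n → i < j → j ≤ k →
    ∀ Q : Finset P, (∀ z ∈ Q, z ∈ X) → (∀ z ∈ Q, o (v i) (w i) z < 0) →
      (∀ z ∈ Q, 0 < o (v j) (w (j - 1)) z) → Pushed v w i j Q := by
  classical
  intro n
  induction n using Nat.strong_induction_on with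
  | _ n ih =>
  intro i j hn hij hj Q hQX hlow hup
  by_cases hone : j = i + 1
  · subst hone
    have e1 : i + 1 - 1 = i := by omega
    rw [e1] at hup
    have hface := h.face i (by omega)
    obtain ⟨L0, hnd, hmem, hpw⟩ := exists_sorted (w i) (v i) Q.card Q rfl (by
        intro z hz
        have := hlow z hz
        rw [o_swap12]; linarith) (by
        intro x hx y hy hxy
        exact h.gp _ (h.wS i (by omega)) _ (h.XS _ (hQX x hx)) _ (h.XS _ (hQX y hy))
          (Ne.symm (hXw _ (hQX x hx) i (by omega))) (Ne.symm (hXw _ (hQX y hy) i (by omega))) hxy)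
    have hsort : (v i :: (L0 ++ [v (i + 1)])).Pairwise (fun a b => 0 < o (w i) a b) := by
      rw [List.pairwise_cons, List.pairwise_append]
      refine ⟨?_, hpw, by simp, ?_⟩
      · intro a ha
        rcases List.mem_append.1 ha with ha | ha
        · have := hlow a ((hmem a).1 ha)
          rw [o_swap12]; linarith
        · rw [List.mem_singleton.1 ha, o_cyc']; exact hface
      · intro a ha b hb
        rw [List.mem_singleton.1 hb]
        have := hup a ((hmem a).1 ha)
        rw [← o_cyc] at this
        exact this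
    have hlen : 2 ≤ (v i :: (L0 ++ [v (i + 1)])).length := by simp
    refine ⟨L0, (pairs (v i :: (L0 ++ [v (i + 1)]))).map (fun e => (e.1, e.2, w i)), hnd, ?_, ?_,
      sep2_sorted (w i) _ hlen hsort, ?_, ?_, ?_⟩
    · intro p
      rw [hmem]
      constructor
      · exact Or.inl
      · rintro (h | ⟨s, a, b, _⟩)
        · exact h
        · omega
    · have e2 : i + 1 - i = 1 := by omega
      rw [e2]
      simp
    · intro t ht
      obtain ⟨e, he, rfl⟩ := List.mem_map.1 ht
      refine ⟨?_, i, le_rfl, by omega, rfl, he⟩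
      have := pairs_pairwise hsort e he
      show 0 < o e.1 e.2 (w i)
      rw [← o_cyc'] 
      exact this
    · intro e he
      exact ⟨_, List.mem_map.2 ⟨e, he, rfl⟩, rfl⟩
    · intro f hf
      have key := path_fan f hf (w i) (v i :: (L0 ++ [v (i + 1)])) (by simp)
      have e2 : path f (w i :: ((v i :: (L0 ++ [v (i + 1)])) ++ [w i])) =
          f (w i) (v i) + (path f (v i :: (L0 ++ [v (i + 1)])) + f (v (i + 1)) (w i)) := by
        have : (v i :: (L0 ++ [v (i + 1)])) ++ [w i] = (v i :: L0) ++ v (i + 1) :: [w i] := by simp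
        have e3 : w i :: ((v i :: (L0 ++ [v (i + 1)])) ++ [w i]) =
          w i :: v i :: (L0 ++ v (i + 1) :: [w i]) := by simp
        rw [e3, path_cons]
        have e4 : v i :: (L0 ++ v (i + 1) :: [w i]) = (v i :: L0) ++ v (i + 1) :: [w i] := by simp
        rw [e4, path_append]
        simp
      rw [e2] at key
      have e5 : Finset.Ico i (i + 1) = {i} := by
        ext x; simp only [Finset.mem_Ico, Finset.mem_singleton]; omega
      rw [e5, Finset.sum_singleton]
      unfold bds
      rw [List.map_map]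
      have e6 : ((fun t : P × P × P => f t.1 t.2.1 + f t.2.1 t.2.2 + f t.2.2 t.1) ∘
          fun e : P × P => (e.1, e.2, w i)) =
          fun e => f e.1 e.2 + f e.2 (w i) + f (w i) e.1 := rfl
      rw [e6]
      have e7 : (List.map (fun e : P × P => f e.1 e.2 + f e.2 (w i) + f (w i) e.1)
          (pairs (v i :: (L0 ++ [v (i + 1)])))) =
          (List.map (fun e : P × P => f (w i) e.1 + f e.1 e.2 + f e.2 (w i))
          (pairs (v i :: (L0 ++ [v (i + 1)])))) := by
        apply List.map_congr_left
        intro e _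
        ring
      rw [e7, ← key]
      ring
  · obtain ⟨s, his, hsj, hNU, hNL⟩ := h.exists_vertex (i := i) (j := j) (by omega) hj
    have hfs := h.face s (by omega)
    have hfs' := h.face (s - 1) (by omega)
    have es : s - 1 + 1 = s := by omega
    rw [es] at hfs'
    have hne : o (v s) (w s) (v i) ≠ 0 :=
      h.gp _ (h.vS _ (by omega)) _ (h.wS _ (by omega)) _ (h.vS _ (by omega))
        (Ne.symm (h.wv _ (by omega) _ (by omega))) (Ne.symm (h.inj _ _ his (by omega)))
        (h.wv _ (by omega) _ (by omega))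
    rcases lt_or_gt_of_ne hne with hlt | hgt
    · -- case B: cut along the line through `v s` and `v i`
      have hzne : ∀ z ∈ Q, o (v s) (v i) z ≠ 0 := fun z hz =>
        h.gp _ (h.vS _ (by omega)) _ (h.vS _ (by omega)) _ (h.XS _ (hQX z hz))
          (Ne.symm (h.inj _ _ his (by omega))) (Ne.symm (hXv _ (hQX z hz) _ (by omega)))
          (Ne.symm (hXv _ (hQX z hz) _ (by omega)))
      have tsi : 0 < o (v s) (v i) (v (s + 1)) := by
        have := h.tc i s (s + 1) his (by omega) (by omega)
        rw [o_swap12]; linarith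
      refine Pushed.combine (Q1 := Q.filter (fun z => o (v s) (v i) z < 0))
        (Q2 := Q.filter (fun z => ¬ o (v s) (v i) z < 0)) h.inj hXv his hsj hj hQX ?_ ?_
        (ih (s - i) (by omega) i s rfl his (by omega) _ ?_ ?_ ?_)
        (ih (j - s) (by omega) s j rfl hsj hj _ ?_ ?_ ?_) (rp (v s) (v i)) ?_ ?_ ?_ ?_
      · intro z
        simp only [Finset.mem_filter]
        tauto
      · intro z hz
        simp only [Finset.mem_filter] at hz ⊢
        tauto
      · intro z hz; exact hQX z (Finset.mem_filter.1 hz).1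
      · intro z hz; exact hlow z (Finset.mem_filter.1 hz).1
      · intro z hz
        obtain ⟨hzQ, hzi⟩ := Finset.mem_filter.1 hz
        have pk := h.pk (s - 1) (by omega) z (hQX z hzQ)
        rw [es] at pk
        by_cases hs1 : s - 1 = i
        · exfalso
          rw [hs1] at pk
          rw [o_swap12] at pk
          linarith
        · have t1 : 0 < o (v s) (v (s - 1)) (v i) := by
            have := h.tc i (s - 1) s (by omega) (by omega) (by omega)
            rw [o_swap13]; linarith
          have gp := o_gp (v s) (v (s - 1)) (v i) (w (s - 1)) z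
          have a1 : o (v s) (v (s - 1)) (w (s - 1)) < 0 := by
            rw [o_swap12]; linarith
          have a2 : 0 < o (v s) (v (s - 1)) z := by rw [o_swap12]; linarith
          have a3 : o (v s) (v i) (w (s - 1)) < 0 := by rw [o_swap23]; linarith
          have : 0 < o (v s) (v (s - 1)) (v i) * o (v s) (w (s - 1)) z := by
            rw [gp]
            nlinarith [mul_pos (neg_pos.2 a1) (neg_pos.2 hzi), mul_pos a2 (neg_pos.2 a3)]
          exact (mul_pos_iff_of_pos_left t1).1 this
      · intro z hz; exact hQX z (Finset.mem_filter.1 hz).1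
      · intro z hz
        obtain ⟨hzQ, hzi⟩ := Finset.mem_filter.1 hz
        have hzi' : 0 < o (v s) (v i) z := lt_of_le_of_ne (not_lt.1 hzi) (Ne.symm (hzne z hzQ))
        have pk := h.pk s (by omega) z (hQX z hzQ)
        have gp := o_gp (v s) (v i) (v (s + 1)) z (w s)
        have a1 : 0 < o (v s) (v i) (w s) := by rw [o_swap23]; linarith
        have : 0 < o (v s) (v i) (v (s + 1)) * o (v s) z (w s) := by
          rw [gp]
          nlinarith [mul_pos hzi' hfs, mul_pos a1 (neg_pos.2 pk)]
        have := (mul_pos_iff_of_pos_left tsi).1 this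
        rw [o_swap23]; linarith
      · intro z hz; exact hup z (Finset.mem_filter.1 hz).1
      · intro z hz
        have := (Finset.mem_filter.1 hz).2
        rw [o_rp]; linarith
      · intro t ht1 ht2
        rw [o_rp]
        by_cases hti : t = i
        · rw [hti, o_self23]; simp
        · have := h.tc i t s (by omega) ht2 (by omega)
          rw [← o_cyc'] at this
          linarith
      · intro z hz
        obtain ⟨hzQ, hzi⟩ := Finset.mem_filter.1 hz
        have hzi' : 0 < o (v s) (v i) z := lt_of_le_of_ne (not_lt.1 hzi) (Ne.symm (hzne z hzQ))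
        rw [o_rp]; linarith
      · intro t ht1 ht2
        rw [o_rp]
        have := h.tc i s t his ht1 (by omega)
        rw [o_swap12]; linarith
    · -- case A: cut along the line through `v s` and `w s`
      have hzne : ∀ z ∈ Q, o (v s) (w s) z ≠ 0 := fun z hz =>
        h.gp _ (h.vS _ (by omega)) _ (h.wS _ (by omega)) _ (h.XS _ (hQX z hz))
          (Ne.symm (h.wv _ (by omega) _ (by omega))) (Ne.symm (hXv _ (hQX z hz) _ (by omega)))
          (Ne.symm (hXw _ (hQX z hz) _ (by omega)))
      have hzne' : ∀ z ∈ Q, o (v s) (w (s - 1)) z ≠ 0 := fun z hz =>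
        h.gp _ (h.vS _ (by omega)) _ (h.wS _ (by omega)) _ (h.XS _ (hQX z hz))
          (Ne.symm (h.wv _ (by omega) _ (by omega))) (Ne.symm (hXv _ (hQX z hz) _ (by omega)))
          (Ne.symm (hXw _ (hQX z hz) _ (by omega)))
      refine Pushed.combine (Q1 := Q.filter (fun z => 0 < o (v s) (w s) z))
        (Q2 := Q.filter (fun z => ¬ 0 < o (v s) (w s) z)) h.inj hXv his hsj hj hQX ?_ ?_
        (ih (s - i) (by omega) i s rfl his (by omega) _ ?_ ?_ ?_)
        (ih (j - s) (by omega) s j rfl hsj hj _ ?_ ?_ ?_) (w s) ?_ ?_ ?_ ?_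
      · intro z
        simp only [Finset.mem_filter]
        tauto
      · intro z hz
        simp only [Finset.mem_filter] at hz ⊢
        tauto
      · intro z hz; exact hQX z (Finset.mem_filter.1 hz).1
      · intro z hz; exact hlow z (Finset.mem_filter.1 hz).1
      · intro z hz
        obtain ⟨hzQ, hzi⟩ := Finset.mem_filter.1 hz
        have := h.ov s (by omega) (by omega) z (hQX z hzQ)
        rcases lt_or_gt_of_ne (hzne' z hzQ) with h1 | h1
        · exact absurd ⟨h1, hzi⟩ this
        · exact h1
      · intro z hz; exact hQX z (Finset.mem_filter.1 hz).1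
      · intro z hz
        obtain ⟨hzQ, hzi⟩ := Finset.mem_filter.1 hz
        exact lt_of_le_of_ne (not_lt.1 hzi) (hzne z hzQ)
      · intro z hz; exact hup z (Finset.mem_filter.1 hz).1
      · intro z hz; exact (Finset.mem_filter.1 hz).2.le
      · intro t ht1 ht2
        by_cases hti : t = i
        · rw [hti]; exact hgt.le
        · have t1 : 0 < o (v s) (v i) (v (s + 1)) := by
            have := h.tc i s (s + 1) his (by omega) (by omega)
            rw [o_swap12]; linarith
          have t2 : o (v s) (v (s + 1)) (v t) < 0 := by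
            have := h.tc t s (s + 1) ht2 (by omega) (by omega)
            rw [← o_cyc] at this
            exact this
          have t3 : o (v s) (v i) (v t) < 0 := by
            have := h.tc i t s (by omega) ht2 (by omega)
            rw [← o_cyc'] at this
            exact this
          have t4 : o (v s) (v i) (w s) < 0 := by rw [o_swap23]; linarith
          have gp := o_gp (v s) (v i) (v (s + 1)) (w s) (v t)
          have : 0 < o (v s) (v i) (v (s + 1)) * o (v s) (w s) (v t) := by
            rw [gp]
            nlinarith [mul_pos (neg_pos.2 t4) (neg_pos.2 t2), mul_pos (neg_pos.2 t3) hfs]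
          exact ((mul_pos_iff_of_pos_left t1).1 this).le
      · intro z hz
        obtain ⟨hzQ, hzi⟩ := Finset.mem_filter.1 hz
        exact lt_of_le_of_ne (not_lt.1 hzi) (hzne z hzQ)
      · intro t ht1 ht2
        by_cases htj : t = j
        · rw [htj]; exact hNU
        · by_cases hts : t = s + 1
          · rw [hts, o_swap23]; linarith
          · have t1 : 0 < o (v s) (v j) (v (s + 1)) := by
              have := h.tc s (s + 1) j (by omega) (by omega) hj
              rw [o_swap23]; linarith
            have t2 : 0 < o (v s) (v j) (v t) := by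
              have := h.tc s t j ht1 (by omega) hj
              rw [o_swap23]; linarith
            have t3 : o (v s) (v (s + 1)) (v t) < 0 := h.tc s (s + 1) t (by omega) (by omega) (by omega)
            have t4 : 0 < o (v s) (v j) (w s) := by rw [o_swap23]; linarith
            have gp := o_gp (v s) (v j) (v (s + 1)) (v t) (w s)
            have : 0 < o (v s) (v j) (v (s + 1)) * o (v s) (v t) (w s) := by
              rw [gp]
              nlinarith [mul_pos t2 hfs, mul_pos t4 (neg_pos.2 t3)]
            have := (mul_pos_iff_of_pos_left t1).1 this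
            rw [o_swap23]; linarith

end Pool.Agent.Helper111_GDC
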