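import Pool.Agent.Helper111_GDC.Assign
import Pool.Agent.Helper111_GDC.Bsp

set_option autoImplicit false

/-!
The core polygon and its triangulation.
-/

namespace Pool.Agent.Helper111_GDC

open Pool.Agent.Helper111_Chain Pool.Agent.Helper22.FC

/-- closed chain `i` -/
def Lc {α : Type*} (p : ℕ → α) (E : ℕ → List α) (i : ℕ) : List α := p i :: (E i ++ [p (i + 1)])

/-- concatenation of the half-open chains `0, ..., n-1` -/
def Wl {α : Type*} (p : ℕ → α) (E : ℕ → List α) : ℕ → List α
  | 0 => []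
  | n + 1 => Wl p E n ++ (p n :: E n)

section lists

variable {α : Type*} {p : ℕ → α} {E : ℕ → List α}

theorem mem_Wl {z : α} : ∀ {n : ℕ}, z ∈ Wl p E n ↔ ∃ i < n, z = p i ∨ z ∈ E i
  | 0 => by simp [Wl]
  | n + 1 => by
    show z ∈ Wl p E n ++ (p n :: E n) ↔ _
    rw [List.mem_append, mem_Wl, List.mem_cons]
    constructor
    · rintro (⟨i, hi, h⟩ | h)
      · exact ⟨i, by omega, h⟩
      · exact ⟨n, by omega, h⟩
    · rintro ⟨i, hi, h⟩
      rcases Nat.lt_or_ge i n with h1 | h1
      · exact Or.inl ⟨i, h1, h⟩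
      · have : i = n := by omega
        subst this
        exact Or.inr h

theorem Wl_length (p : ℕ → α) (E : ℕ → List α) : ∀ n : ℕ, n ≤ (Wl p E n).length
  | 0 => by simp
  | n + 1 => by
    show n + 1 ≤ (Wl p E n ++ (p n :: E n)).length
    have := Wl_length p E n
    rw [List.length_append, List.length_cons]
    omega

theorem Wl_head (p : ℕ → α) (E : ℕ → List α) : ∀ n : ℕ, 0 < n → ∃ R, Wl p E n = p 0 :: R
  | 0, h => absurd h (lt_irrefl _)
  | 1, _ => ⟨E 0, rfl⟩
  | n + 2, _ => by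
    obtain ⟨R, hR⟩ := Wl_head p E (n + 1) (by omega)
    refine ⟨R ++ (p (n + 1) :: E (n + 1)), ?_⟩
    show Wl p E (n + 1) ++ (p (n + 1) :: E (n + 1)) = _
    rw [hR]
    rfl

theorem clo_Wl {h : ℕ} (hh : 0 < h) (hp : p h = p 0) : clo (Wl p E h) = Wl p E h ++ [p h] := by
  obtain ⟨R, hR⟩ := Wl_head p E h hh
  rw [hR, hp]
  rfl

theorem Wl_snoc (n : ℕ) : Wl p E (n + 1) ++ [p (n + 1)] = Wl p E n ++ Lc p E n := by
  show (Wl p E n ++ (p n :: E n)) ++ [p (n + 1)] = _
  unfold Lc
  simp

theorem Wl_pairs {e : α × α} : ∀ n : ℕ, e ∈ pairs (Wl p E n ++ [p n]) ↔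
    ∃ i < n, e ∈ pairs (Lc p E i)
  | 0 => by simp [Wl]
  | n + 1 => by
    rw [Wl_snoc]
    unfold Lc
    rw [pairs_append, List.mem_append, Wl_pairs n]
    constructor
    · rintro (⟨i, hi, h⟩ | h)
      · exact ⟨i, by omega, h⟩
      · exact ⟨n, by omega, h⟩
    · rintro ⟨i, hi, h⟩
      rcases Nat.lt_or_ge i n with h1 | h1
      · exact Or.inl ⟨i, h1, h⟩
      · have : i = n := by omega
        subst this
        exact Or.inr h

theorem Wl_path (w : α → α → ℝ) : ∀ n : ℕ, path w (Wl p E n ++ [p n]) =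
    ∑ i ∈ Finset.range n, path w (Lc p E i)
  | 0 => by simp [Wl]
  | n + 1 => by
    rw [Wl_snoc, Finset.sum_range_succ, ← Wl_path w n]
    unfold Lc
    rw [path_append]

theorem Wl_congr {E' : ℕ → List α} : ∀ n : ℕ, (∀ j < n, E' j = E j) → Wl p E' n = Wl p E n
  | 0, _ => rfl
  | n + 1, h => by
    show Wl p E' n ++ (p n :: E' n) = Wl p E n ++ (p n :: E n)
    rw [Wl_congr n (fun j hj => h j (by omega)), h n (by omega)]

theorem Wl_split (i : ℕ) : ∀ n : ℕ, i < n → ∃ B : List α,
    ((n = i + 1 ∧ B = []) ∨ ∃ B', B = p (i + 1) :: B') ∧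
    ∀ E' : ℕ → List α, (∀ j, j ≠ i → E' j = E j) →
      Wl p E' n = Wl p E i ++ ((p i :: E' i) ++ B)
  | 0, h => absurd h (Nat.not_lt_zero _)
  | n + 1, h => by
    rcases Nat.lt_or_ge i n with h1 | h1
    · obtain ⟨B, hB, hE⟩ := Wl_split i n h1
      refine ⟨B ++ (p n :: E n), ?_, ?_⟩
      · right
        rcases hB with ⟨h2, h3⟩ | ⟨B', h3⟩
        · subst h2
          exact ⟨E (i + 1), by rw [h3]; rfl⟩
        · exact ⟨B' ++ (p n :: E n), by rw [h3]; rfl⟩
      · intro E' hE'
        show Wl p E' n ++ (p n :: E' n) = _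
        rw [hE E' hE', hE' n (by omega)]
        simp
    · have : i = n := by omega
      subst this
      refine ⟨[], Or.inl ⟨rfl, rfl⟩, ?_⟩
      intro E' hE'
      show Wl p E' i ++ (p i :: E' i) = _
      rw [Wl_congr i (fun j hj => hE' j (by omega))]
      simp

theorem Wl_rot {h : ℕ} (h2 : 2 ≤ h) (hp : p h = p 0) {i : ℕ} (hi : i < h) : ∃ R : List α,
    ∀ E' : ℕ → List α, (∀ j, j ≠ i → E' j = E j) →
      (Wl p E' h).IsRotated (Lc p E' i ++ R) := by
  obtain ⟨B, hB, hE⟩ := Wl_split (p := p) (E := E) i h hi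
  rcases hB with ⟨h1, h3⟩ | ⟨B', h3⟩
  · obtain ⟨R, hR⟩ := Wl_head p E i (by omega)
    refine ⟨R, fun E' hE' => ?_⟩
    rw [hE E' hE', h3, List.append_nil]
    have : Lc p E' i ++ R = (p i :: E' i) ++ Wl p E i := by
      unfold Lc
      rw [hR, ← h1, hp]
      simp
    rw [this]
    exact List.isRotated_append
  · refine ⟨B' ++ Wl p E i, fun E' hE' => ?_⟩
    rw [hE E' hE', h3]
    have : Lc p E' i ++ (B' ++ Wl p E i) = ((p i :: E' i) ++ p (i + 1) :: B') ++ Wl p E i := by
      unfold Lc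
      simp
    rw [this]
    exact List.isRotated_append

theorem filter_rot [DecidableEq α] {A B : List α} (h : A.IsRotated B) (f : α → Bool) :
    (A.filter f).IsRotated (B.filter f) := by
  obtain ⟨n, hn⟩ := h
  rw [List.rotate_eq_drop_append_take_mod] at hn
  rw [← hn, List.filter_append]
  have h2 : A.filter f = (A.take (n % A.length)).filter f ++ (A.drop (n % A.length)).filter f := by
    rw [← List.filter_append, List.take_append_drop]
  rw [h2]
  exact List.isRotated_append

theorem cyc_in {W L R : List α} (hn : W.Nodup) (hW : W.IsRotated (L ++ R)) {t : α × α × α}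
    (ht : CycInc W t) (h1 : t.1 ∈ L) (h2 : t.2.1 ∈ L) (h3 : t.2.2 ∈ L) : CycInc L t := by
  classical
  obtain ⟨W', hW', hs⟩ := ht
  have h4 : W'.IsRotated (L ++ R) := hW'.trans hW
  have h5 := filter_rot h4 (fun x => decide (x ∈ L))
  have hn2 : (L ++ R).Nodup := hW.nodup_iff.1 hn
  have h6 : (L ++ R).filter (fun x => decide (x ∈ L)) = L := by
    rw [List.filter_append]
    have e1 : L.filter (fun x => decide (x ∈ L)) = L := by
      rw [List.filter_eq_self]
      intro a ha
      simpa using ha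
    have e2 : R.filter (fun x => decide (x ∈ L)) = [] := by
      rw [List.filter_eq_nil_iff]
      intro a ha
      have := (List.nodup_append.1 hn2).2.2
      simp only [decide_eq_true_eq]
      intro haL
      exact this a haL a ha rfl
    rw [e1, e2, List.append_nil]
  rw [h6] at h5
  refine ⟨_, h5, ?_⟩
  have h7 := hs.filter (fun x => decide (x ∈ L))
  have h8 : [t.1, t.2.1, t.2.2].filter (fun x => decide (x ∈ L)) = [t.1, t.2.1, t.2.2] := by
    rw [List.filter_eq_self]
    intro a ha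
    simp only [List.mem_cons, List.not_mem_nil, or_false] at ha
    rcases ha with rfl | rfl | rfl
    · simpa using h1
    · simpa using h2
    · simpa using h3
  rw [h8] at h7
  exact h7

theorem cycInc_cases {L : List α} {t : α × α × α} (h : CycInc L t) :
    [t.1, t.2.1, t.2.2].Sublist L ∨ [t.2.1, t.2.2, t.1].Sublist L ∨
      [t.2.2, t.1, t.2.1].Sublist L := by
  obtain ⟨W, hW, hs⟩ := h
  obtain ⟨n, hn⟩ := hW.symm
  rw [List.rotate_eq_drop_append_take_mod] at hn
  rw [← hn] at hs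
  obtain ⟨s1, s2, he, hs1, hs2⟩ := List.sublist_append_iff.1 hs
  have key : (s2 ++ s1).Sublist L := by
    have := hs2.append hs1
    rwa [List.take_append_drop] at this
  match s1, he with
  | [], he =>
    left
    have : s2 = [t.1, t.2.1, t.2.2] := by simpa using he.symm
    rw [this] at key
    simpa using key
  | [a], he =>
    right; left
    simp only [List.cons_append, List.nil_append, List.cons.injEq] at he
    obtain ⟨rfl, rfl⟩ := he
    simpa using key
  | [a, b], he =>
    right; right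
    simp only [List.cons_append, List.nil_append, List.cons.injEq] at he
    obtain ⟨rfl, rfl, rfl⟩ := he
    simpa using key
  | (a :: b :: c :: s), he =>
    left
    simp only [List.cons_append, List.cons.injEq] at he
    obtain ⟨rfl, rfl, rfl, h4⟩ := he
    have h5 := (List.append_eq_nil_iff.1 h4.symm)
    rw [h5.1, h5.2] at key
    simpa using key

end lists

variable {S : Finset P} {h : ℕ} {p : ℕ → P} {Y : ℕ → Finset P} {E : ℕ → List P}

theorem inC_of_mem (hEY : ∀ i < h, ∀ z ∈ E i, z ∈ Y i) {i : ℕ} (hi : i < h) {z : P}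
    (hz : z ∈ Lc p E i) : InC p Y i z := by
  unfold Lc at hz
  simp only [List.mem_cons, List.mem_append, List.not_mem_nil, or_false] at hz
  rcases hz with hz | hz | hz
  · exact Or.inr (Or.inl hz)
  · exact Or.inl (hEY i hi z hz)
  · exact Or.inr (Or.inr hz)

theorem AData.lc_nodup (A : AData S h p Y) (hE : ∀ i < h, (E i).Nodup)
    (hEY : ∀ i < h, ∀ z ∈ E i, z ∈ Y i) {i : ℕ} (hi : i < h) : (Lc p E i).Nodup := by
  unfold Lc
  rw [List.nodup_cons, List.nodup_append]
  refine ⟨?_, hE i hi, by simp, ?_⟩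
  · intro hm
    rcases List.mem_append.1 hm with hm | hm
    · exact A.Yp i hi _ (hEY i hi _ hm) i (by omega) rfl
    · exact A.H.adj hi (List.mem_singleton.1 hm)
  · intro a ha b hb
    rw [List.mem_singleton.1 hb]
    exact A.Yp i hi _ (hEY i hi _ ha) (i + 1) (by omega)

theorem AData.wl_nodup (A : AData S h p Y) (hE : ∀ i < h, (E i).Nodup)
    (hEY : ∀ i < h, ∀ z ∈ E i, z ∈ Y i) : ∀ n ≤ h, (Wl p E n).Nodup
  | 0, _ => by simp [Wl]
  | n + 1, hn => by
    show (Wl p E n ++ (p n :: E n)).Nodup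
    rw [List.nodup_append, List.nodup_cons]
    refine ⟨A.wl_nodup hE hEY n (by omega), ⟨?_, hE n (by omega)⟩, ?_⟩
    · intro hm
      exact A.Yp n (by omega) _ (hEY n (by omega) _ hm) n (by omega) rfl
    · intro a ha b hb e
      subst e
      obtain ⟨i, hi, ha⟩ := mem_Wl.1 ha
      rcases List.mem_cons.1 hb with hb | hb <;> rcases ha with ha | ha
      · have := A.H.inj i (by omega) n (by omega) (ha.symm.trans hb)
        omega
      · exact A.Yp i (by omega) _ (hEY i (by omega) _ ha) n (by omega) hb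
      · exact A.Yp n (by omega) _ (hEY n (by omega) _ hb) i (by omega) ha
      · exact A.Yd i (by omega) n (by omega) (by omega) _ (hEY i (by omega) _ ha)
          (hEY n (by omega) _ hb)

theorem AData.lc_gp (A : AData S h p Y) (hEY : ∀ i < h, ∀ z ∈ E i, z ∈ Y i) {i : ℕ} (hi : i < h) :
    ∀ a ∈ Lc p E i, ∀ b ∈ Lc p E i, ∀ c ∈ Lc p E i, a ≠ b → a ≠ c → b ≠ c → o a b c ≠ 0 :=
  fun a ha b hb c hc => A.H.gp a (A.inS hi (inC_of_mem hEY hi ha)) b
    (A.inS hi (inC_of_mem hEY hi hb)) c (A.inS hi (inC_of_mem hEY hi hc))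

theorem AData.simP (A : AData S h p Y) (hE : ∀ i < h, (E i).Nodup)
    (hEY : ∀ i < h, ∀ z ∈ E i, z ∈ Y i) (hsep : ∀ i < h, Sep2 (Lc p E i)) :
    SimP (Wl p E h) := by
  have hh := A.H.h3
  refine ⟨hh.trans (Wl_length p E h), A.wl_nodup hE hEY h le_rfl, ?_⟩
  intro e he e' he' hne z hz hz'
  rw [clo_Wl (by omega) A.H.clo, Wl_pairs] at he he'
  obtain ⟨i, hi, he⟩ := he
  obtain ⟨j, hj, he'⟩ := he'
  by_cases hij : i = j
  · subst hij
    exact (hsep i hi).inter (A.lc_nodup hE hEY hi) (A.lc_gp hEY hi) e he e' he' hne z hz hz'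
  · obtain ⟨m1, m2⟩ := mem_of_pairs he
    obtain ⟨m3, m4⟩ := mem_of_pairs he'
    exact A.cross hi hj hij (inC_of_mem hEY hi m1) (inC_of_mem hEY hi m2)
      (pairs_pairwise (A.lc_nodup hE hEY hi) e he) (inC_of_mem hEY hj m3)
      (inC_of_mem hEY hj m4) (pairs_pairwise (A.lc_nodup hE hEY hj) e' he') hz hz'

theorem AData.core (A : AData S h p Y) (hE : ∀ i < h, (E i).Nodup)
    (hEY : ∀ i < h, ∀ z ∈ E i, z ∈ Y i) (hsep : ∀ i < h, Sep2 (Lc p E i)) :
    ∃ F : List (P × P × P), (∀ t ∈ F, CycInc (Wl p E h) t ∧ 0 < o t.1 t.2.1 t.2.2) ∧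
      ∀ w : P → P → ℝ, (∀ u v, w v u = - w u v) → bds w F = cpath w (Wl p E h) := by
  have hh := A.H.h3
  have hsim := A.simP hE hEY hsep
  obtain ⟨R, hR⟩ := Wl_head p E h (by omega)
  have hlen := hsim.1
  rw [hR] at hlen
  obtain ⟨c, R', hcR⟩ : ∃ c R', R = c :: R' := by
    cases R with
    | nil => simp at hlen
    | cons c R' => exact ⟨c, R', rfl⟩
  obtain ⟨M, a, hMa⟩ : ∃ M a, R' = M ++ [a] := by
    rcases List.eq_nil_or_concat R' with h1 | ⟨M, a, h1⟩
    · rw [hcR, h1] at hlen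
      simp at hlen
    · exact ⟨M, a, by rw [h1, List.concat_eq_append]⟩
  have hW : Wl p E h = p 0 :: c :: (M ++ [a]) := by rw [hR, hcR, hMa]
  have hclo : clo (Wl p E h) = p 0 :: c :: ((M ++ [a]) ++ [p 0]) := by rw [hW]; rfl
  have hn := hsim.2.1
  rw [hW] at hn
  have e1 : (p 0, c) ∈ pairs (clo (Wl p E h)) := by rw [hclo]; simp
  have e2 : (a, p 0) ∈ pairs (clo (Wl p E h)) := by
    rw [hclo]
    have : p 0 :: c :: ((M ++ [a]) ++ [p 0]) = ((p 0 :: c :: M) ++ [a]) ++ [p 0] := by simp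
    rw [this, pairs_snoc]
    simp
  rw [clo_Wl (by omega) A.H.clo, Wl_pairs] at e1 e2
  obtain ⟨i, hi, e1⟩ := e1
  obtain ⟨j, hj, e2⟩ := e2
  have hi0 : i = 0 := by
    have : (p 0, c) ∈ pairs ((p i :: E i) ++ [p (i + 1)]) := e1
    have h1 := fst_mem_front this
    rcases List.mem_cons.1 h1 with h1 | h1
    · exact (A.H.inj 0 (by omega) i hi h1).symm
    · exact absurd rfl (A.Yp i hi _ (hEY i hi _ h1) 0 (by omega))
  have hj0 : j + 1 = h := by
    have h1 := snd_mem_tail e2
    rcases List.mem_append.1 h1 with h1 | h1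
    · exact absurd rfl (A.Yp j hj _ (hEY j hj _ h1) 0 (by omega))
    · have := A.H.pidx (by omega) (by omega) (List.mem_singleton.1 h1)
      omega
  have hc := inC_of_mem hEY hi (mem_of_pairs e1).2
  have ha := inC_of_mem hEY hj (mem_of_pairs e2).1
  rw [hi0] at hc
  have hcp : c ≠ p 0 := by
    rintro rfl
    simp at hn
  have hap : a ≠ p 0 := by
    rintro rfl
    simp at hn
  have hca : c ≠ a := by
    rintro rfl
    simp at hn
  have hor : 0 < o (p 0) c a := by
    have hb := A.bnn (i := 0) (j := j) (by omega) hj (by omega) hc ha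
    have hpj : p (j + 1) = p 0 := by rw [hj0, A.H.clo]
    have hq : 0 < o (p 0) (p 1) (p j) := by
      apply A.H.edge 0 (by omega) _ (A.H.pS j (by omega))
      · intro e
        have := A.H.inj j hj 0 (by omega) e
        omega
      · intro e
        have := A.H.inj j hj (0 + 1) (by omega) e
        omega
    have gp := o_gp (p 0) (p 1) (p j) c a
    unfold ell at hb
    rw [hpj] at hb
    have s1 : o (p j) (p 0) c = - o (p 0) (p j) c := o_swap12 _ _ _
    have s2 : o (p j) (p 0) a = - o (p 0) (p j) a := o_swap12 _ _ _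
    rw [s1, s2] at hb
    have hge : 0 ≤ o (p 0) (p 1) (p j) * o (p 0) c a := by
      rw [gp]
      have : p (0 + 1) = p 1 := rfl
      rw [this] at hb
      linarith
    have h2 : 0 ≤ o (p 0) c a := by
      by_contra hcon
      push Not at hcon
      nlinarith
    refine lt_of_le_of_ne h2 (Ne.symm ?_)
    exact A.H.gp _ (A.H.pS 0 (by omega)) _ (A.inS (by omega) hc) _ (A.inS hj ha) (Ne.symm hcp)
      (Ne.symm hap) hca
  obtain ⟨u, hu⟩ := exists_dirP S (p 0) (A.H.ext 0 (by omega))
  have hgood : Good ((Wl p E h).map toC) := by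
    refine good_of_pos (a := toC a) (b := toC (p 0)) (c := toC c)
      (u := ⟨-(u.2 - (p 0).2), u.1 - (p 0).1⟩) (M := M.map toC) (k := 0) hsim.simpleL ?_ ?_ ?_
    · rw [List.rotate_zero, hW]; simp
    · intro v hv
      have hv' : v ∈ (c :: (M ++ [a])).map toC := by simpa using hv
      obtain ⟨q, hq, rfl⟩ := List.mem_map.1 hv'
      have hqW : q ∈ Wl p E h := by rw [hW]; exact List.mem_cons_of_mem _ hq
      have hqp : q ≠ p 0 := by
        rintro rfl
        rw [List.nodup_cons] at hn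
        exact hn.1 hq
      have hqS : q ∈ S := by
        obtain ⟨i, hi, h1⟩ := mem_Wl.1 hqW
        rcases h1 with h1 | h1
        · rw [h1]; exact A.H.pS i (by omega)
        · exact A.YS i hi _ (hEY i hi _ h1)
      have := hu q hqS hqp
      simp only [toC, Complex.mul_re, Complex.sub_re, Complex.sub_im, Complex.conj_re,
        Complex.conj_im]
      unfold o at this
      linarith
    · rw [side_toC, o_cyc']; exact hor
  obtain ⟨F, hF, hb⟩ := good_faces hgood toC (Wl p E h) rfl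
  refine ⟨F, fun t ht => ⟨(hF t ht).1, ?_⟩, hb⟩
  rw [← side_toC]
  exact (hF t ht).2

theorem AData.pocket (A : AData S h p Y) (hE : ∀ i < h, (E i).Nodup)
    (hEY : ∀ i < h, ∀ z ∈ E i, z ∈ Y i) {i : ℕ} (hi : i < h) (hsep : Sep2 (Lc p E i)) :
    ∃ G : List (P × P × P), (∀ t ∈ G, 0 < o t.1 t.2.1 t.2.2 ∧ CycInc (Lc p E i) (sw t)) ∧
      ∀ w : P → P → ℝ, (∀ x y, w y x = - w x y) →
        bds w G = w (p i) (p (i + 1)) - path w (Lc p E i) := by
  by_cases hM : E i = []
  · refine ⟨[], by simp, ?_⟩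
    intro w _
    unfold Lc
    rw [hM]
    simp
  · refine pocket_poly hsep (A.lc_nodup hE hEY hi) (A.lc_gp hEY hi) hM ?_
    intro z hz
    have hzY := hEY i hi z hz
    exact A.H.edge i hi z (A.YS i hi z hzY) (A.Yp i hi z hzY i (by omega))
      (A.Yp i hi z hzY (i + 1) (by omega))

theorem hv_mono {S T : Finset P} (hTS : T ⊆ S) {x : P} (hx : x ∈ hv S) (hxT : x ∈ T) :
    x ∈ hv T := by
  refine ⟨hxT, fun hc => hx.2 (convexHull_mono ?_ hc)⟩
  intro y hy
  exact ⟨hTS hy.1, hy.2⟩

/-- Chain `i` is convex, and the remaining points assigned to it lie in its pocket. -/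
def Raw (p : ℕ → P) (Y : ℕ → Finset P) (E : ℕ → List P) (i : ℕ) : Prop :=
  Trip (fun x y z => o x y z < 0) (Lc p E i) ∧
    ∀ e ∈ pairs (Lc p E i), ∀ z ∈ Y i, z ∉ E i → o e.1 e.2 z < 0

theorem AData.exists_raw (A : AData S h p Y) : ∃ E : ℕ → List P,
    (∀ i < h, (E i).Nodup) ∧ (∀ i < h, ∀ z ∈ E i, z ∈ Y i) ∧ (∀ i < h, Raw p Y E i) := by
  classical
  have hex : ∀ i, ∃ D : List P, i < h → D.Nodup ∧ (∀ z ∈ D, z ∈ Y i) ∧
      Trip (fun x y z => o x y z < 0) (p i :: (D ++ [p (i + 1)])) ∧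
      ∀ e ∈ pairs (p i :: (D ++ [p (i + 1)])), ∀ z ∈ Y i, z ∉ D → o e.1 e.2 z < 0 := by
    intro i
    by_cases hi : i < h
    · set T : Finset P := insert (p i) (insert (p (i + 1)) (Y i)) with hT
      have hTS : T ⊆ S := by
        intro z hz
        simp only [hT, Finset.mem_insert] at hz
        rcases hz with rfl | rfl | hz
        · exact A.H.pS i (by omega)
        · exact A.H.pS (i + 1) (by omega)
        · exact A.YS i hi z hz
      obtain ⟨D, h1, h2, h3, h4⟩ := raw_chain T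
        (fun a ha b hb c hc => A.H.gp a (hTS ha) b (hTS hb) c (hTS hc)) (p i) (p (i + 1))
        (hv_mono hTS (A.H.ext i (by omega)) (by simp [hT]))
        (hv_mono hTS (A.H.ext (i + 1) (by omega)) (by simp [hT])) (A.H.adj hi)
        (fun z hz => A.H.edge i hi z (hTS hz))
      have h1' := h1
      rw [List.nodup_cons, List.nodup_append] at h1'
      refine ⟨D, fun _ => ⟨h1'.2.1, ?_, h3, ?_⟩⟩
      · intro z hz
        have hzT := h2 z hz
        simp only [hT, Finset.mem_insert] at hzT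
        rcases hzT with rfl | rfl | hz'
        · exact absurd (List.mem_append_left _ hz) h1'.1
        · exact absurd rfl (h1'.2.2.2 _ hz _ (by simp))
        · exact hz'
      · intro e he z hz hzD
        refine h4 e he z (by simp [hT, hz]) ?_
        simp only [List.mem_cons, List.mem_append, List.not_mem_nil, or_false, not_or]
        exact ⟨A.Yp i hi z hz i (by omega), hzD, A.Yp i hi z hz (i + 1) (by omega)⟩
    · exact ⟨[], fun h => absurd h hi⟩
  choose E hE using hex
  exact ⟨E, fun i hi => (hE i hi).1, fun i hi => (hE i hi).2.1, fun i hi => (hE i hi).2.2⟩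

end Pool.Agent.Helper111_GDC
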