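import Pool.Agent.Helper111_GDC.Sep
import Pool.Agent.Helper22.FC.T1
import Pool.Agent.Helper22.FC.T2
import Pool.Agent.Helper22.FC.T3
import Pool.Agent.Helper22.FC.T4
import Pool.Agent.Helper22.FC.T5
import Pool.Agent.Helper22.FC.W1
import Pool.Agent.Helper22.FC.W2

set_option autoImplicit false

/-!
Triangulations of simple polygons as lists of faces.
-/

namespace Pool.Agent.Helper111_GDC

open Pool.Agent.Helper111_Chain Pool.Agent.Helper22.FC

/-- Closed path sum. -/
def cpath {ι : Type*} (w : ι → ι → ℝ) : List ι → ℝ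
  | [] => 0
  | (u :: l) => path w (u :: (l ++ [u]))

/-- The triple `t` occurs in the cyclic order of `W`. -/
def CycInc {ι : Type*} (W : List ι) (t : ι × ι × ι) : Prop :=
  ∃ W', W'.IsRotated W ∧ [t.1, t.2.1, t.2.2].Sublist W'

theorem cpath_snoc {ι : Type*} (w : ι → ι → ℝ) (u : ι) : ∀ l : List ι,
    cpath w (l ++ [u]) = cpath w (u :: l)
  | [] => rfl
  | (v :: l) => by
    show path w (v :: ((l ++ [u]) ++ [v])) = path w (u :: ((v :: l) ++ [u]))
    have h1 : v :: ((l ++ [u]) ++ [v]) = (v :: l) ++ u :: [v] := by simp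
    rw [h1, path_append]
    simp only [List.cons_append, path_cons, path_one]
    ring

theorem cpath_rotate {ι : Type*} (w : ι → ι → ℝ) : ∀ (k : ℕ) (l : List ι),
    cpath w (l.rotate k) = cpath w l
  | 0, l => by rw [List.rotate_zero]
  | k + 1, [] => by simp
  | k + 1, (u :: l) => by
    rw [List.rotate_cons_succ, cpath_rotate w k, cpath_snoc]

theorem cyc_sub_rot {ι : Type*} {A A' : List ι} (h : A.Sublist A') {W : List ι}
    (hW : W.IsRotated A) : ∃ W' : List ι, W'.IsRotated A' ∧ W.Sublist W' := by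
  obtain ⟨n, hn⟩ := hW.symm
  rw [List.rotate_eq_drop_append_take_mod] at hn
  obtain ⟨A1, A2, hA', h1, h2⟩ : ∃ A1 A2, A' = A1 ++ A2 ∧
      (A.take (n % A.length)).Sublist A1 ∧ (A.drop (n % A.length)).Sublist A2 := by
    have : (A.take (n % A.length) ++ A.drop (n % A.length)).Sublist A' := by
      rw [List.take_append_drop]; exact h
    exact List.append_sublist_iff.1 this
  refine ⟨A2 ++ A1, ?_, ?_⟩
  · rw [hA']
    exact List.isRotated_append
  · rw [← hn]
    exact h2.append h1

theorem CycInc.mono {ι : Type*} {A A' : List ι} (h : A.Sublist A') {t : ι × ι × ι}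
    (ht : CycInc A t) : CycInc A' t := by
  obtain ⟨W, hW, hs⟩ := ht
  obtain ⟨W', hW', hs'⟩ := cyc_sub_rot h hW
  exact ⟨W', hW', hs.trans hs'⟩

theorem CycInc.rot {ι : Type*} {A A' : List ι} (h : A.IsRotated A') {t : ι × ι × ι}
    (ht : CycInc A t) : CycInc A' t := by
  obtain ⟨W, hW, hs⟩ := ht
  exact ⟨W, hW.trans h, hs⟩

theorem CycInc.mem {ι : Type*} {A : List ι} {t : ι × ι × ι} (ht : CycInc A t) :
    t.1 ∈ A ∧ t.2.1 ∈ A ∧ t.2.2 ∈ A := by
  obtain ⟨W, hW, hs⟩ := ht
  refine ⟨hW.mem_iff.1 (hs.subset ?_), hW.mem_iff.1 (hs.subset ?_), hW.mem_iff.1 (hs.subset ?_)⟩ <;>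
    simp

/-- Faces of a formal triangulation. -/
theorem good_faces {V : List ℂ} (h : Good V) : ∀ {ι : Type} (f : ι → ℂ) (W : List ι),
    W.map f = V → ∃ F : List (ι × ι × ι),
      (∀ t ∈ F, CycInc W t ∧ 0 < side (f t.1) (f t.2.1) (f t.2.2)) ∧
      ∀ w : ι → ι → ℝ, (∀ u v, w v u = - w u v) → bds w F = cpath w W := by
  induction h with
  | tri a b c h =>
    intro ι f W hW
    match W, hW with
    | [x, y, z], hW =>
      simp only [List.map_cons, List.map_nil, List.cons.injEq, and_true] at hW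
      obtain ⟨rfl, rfl, rfl⟩ := hW
      refine ⟨[(x, y, z)], ?_, ?_⟩
      · intro t ht
        rw [List.mem_singleton.1 ht]
        exact ⟨⟨_, List.IsRotated.refl _, List.Sublist.refl _⟩, h⟩
      · intro w _
        simp [cpath]
        ring
  | cut x y E B hE hB h1 h2 ih1 ih2 =>
    intro ι f W hW
    have e0 : [x] ++ E ++ [y] ++ B = x :: (E ++ y :: B) := by simp
    rw [e0] at hW
    obtain ⟨x', W', rfl, rfl, hW'⟩ := List.map_eq_cons_iff.1 hW
    obtain ⟨E', W'', rfl, rfl, hW''⟩ := List.map_eq_append_iff.1 hW'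
    obtain ⟨y', B', rfl, rfl, rfl⟩ := List.map_eq_cons_iff.1 hW''
    obtain ⟨F1, p1, b1⟩ := ih1 f ([x', y'] ++ B') (by simp)
    obtain ⟨F2, p2, b2⟩ := ih2 f ([x'] ++ E' ++ [y']) (by simp)
    have s1 : ([x', y'] ++ B').Sublist (x' :: (E' ++ y' :: B')) := by
      show (x' :: y' :: B').Sublist _
      exact List.Sublist.cons_cons _ (List.sublist_append_right _ _)
    have s2 : ([x'] ++ E' ++ [y']).Sublist (x' :: (E' ++ y' :: B')) := by
      show (x' :: (E' ++ [y'])).Sublist _
      exact List.Sublist.cons_cons _ ((List.Sublist.refl _).append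
        (List.Sublist.cons_cons _ (List.nil_sublist _)))
    refine ⟨F1 ++ F2, ?_, ?_⟩
    · intro t ht
      rcases List.mem_append.1 ht with ht | ht
      · exact ⟨(p1 t ht).1.mono s1, (p1 t ht).2⟩
      · exact ⟨(p2 t ht).1.mono s2, (p2 t ht).2⟩
    · intro w hw
      rw [bds_append, b1 w hw, b2 w hw]
      show path w (x' :: ((y' :: B') ++ [x'])) + path w (x' :: ((E' ++ [y']) ++ [x'])) =
        path w (x' :: ((E' ++ y' :: B') ++ [x']))
      have g1 : x' :: ((E' ++ [y']) ++ [x']) = (x' :: E') ++ y' :: [x'] := by simp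
      have g2 : x' :: ((E' ++ y' :: B') ++ [x']) = (x' :: E') ++ y' :: (B' ++ [x']) := by simp
      rw [g1, g2, path_append, path_append (B := B' ++ [x'])]
      simp only [List.cons_append, path_cons, path_one]
      rw [hw x' y']
      ring
  | rot V k h ih =>
    intro ι f W hW
    obtain ⟨j, hj⟩ : ∃ j, V = (W.rotate j).map f := by
      have : V.IsRotated (W.map f) := by rw [hW]; exact (List.IsRotated.forall V k).symm
      obtain ⟨j, hj⟩ := this.symm
      exact ⟨j, by rw [← hj, List.map_rotate]⟩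
    obtain ⟨F, p, b⟩ := ih f (W.rotate j) hj.symm
    refine ⟨F, ?_, ?_⟩
    · intro t ht
      exact ⟨(p t ht).1.rot (List.IsRotated.forall W j), (p t ht).2⟩
    · intro w hw
      rw [b w hw, cpath_rotate]

end Pool.Agent.Helper111_GDC
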