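import Pool.Agent.Helper111_GDC.Step2

set_option autoImplicit false

/-!
Transfer of the triangulation to the labelled set `S₁`.
-/

namespace Pool.Agent.Helper111_GDC

open Pool.Agent.Helper111_Chain

/-- Compatibility together with the images of the labelled points. -/
theorem masterH {ι : Type*} [Nonempty ι] (F : List (ι × ι × ι)) (x y : ι → P)
    (S₁ S₂ : Finset P) {p₁ p₂ : P} {L₁ L₂ : List P}
    (h1 : CovH S₁ (F.map (mp x)) p₁ L₁)
    (h2 : CovH S₂ (F.map (mp y)) p₂ L₂)
    (I : Set ι) (hI : ∀ f ∈ F, f.1 ∈ I ∧ f.2.1 ∈ I ∧ f.2.2 ∈ I)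
    (hx : Set.BijOn x I (S₁ : Set P)) (hy : Set.BijOn y I (S₂ : Set P))
    (used : ∀ i ∈ I, ∃ f ∈ F, i = f.1 ∨ i = f.2.1 ∨ i = f.2.2) :
    ∃ T₁ T₂ : Finset (Finset (ℝ × ℝ)),
      (∀ t ∈ T₁, t ⊆ S₁ ∧ t.card = 3 ∧
          ∀ p ∈ S₁, p ∈ convexHull ℝ (t : Set (ℝ × ℝ)) → p ∈ t) ∧
      (∀ t ∈ T₁, ∀ t' ∈ T₁, t ≠ t' →
          interior (convexHull ℝ (t : Set (ℝ × ℝ))) ∩
            interior (convexHull ℝ (t' : Set (ℝ × ℝ))) = ∅) ∧
      (⋃ t ∈ T₁, convexHull ℝ (t : Set (ℝ × ℝ))) = convexHull ℝ (S₁ : Set (ℝ × ℝ)) ∧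
      (∀ t ∈ T₂, t ⊆ S₂ ∧ t.card = 3 ∧
          ∀ p ∈ S₂, p ∈ convexHull ℝ (t : Set (ℝ × ℝ)) → p ∈ t) ∧
      (∀ t ∈ T₂, ∀ t' ∈ T₂, t ≠ t' →
          interior (convexHull ℝ (t : Set (ℝ × ℝ))) ∩
            interior (convexHull ℝ (t' : Set (ℝ × ℝ))) = ∅) ∧
      (⋃ t ∈ T₂, convexHull ℝ (t : Set (ℝ × ℝ))) = convexHull ℝ (S₂ : Set (ℝ × ℝ)) ∧
      ∃ φ : ℝ × ℝ → ℝ × ℝ, Set.BijOn φ (S₁ : Set (ℝ × ℝ)) (S₂ : Set (ℝ × ℝ)) ∧
        (∀ t : Finset (ℝ × ℝ), t ⊆ S₁ → (t ∈ T₁ ↔ t.image φ ∈ T₂)) ∧
        (∀ a b c : ℝ × ℝ, ({a, b, c} : Finset (ℝ × ℝ)) ∈ T₁ → 0 < o a b c →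
          0 < o (φ a) (φ b) (φ c)) ∧
        ∀ i ∈ I, φ (x i) = y i := by
  have hinv := hx.invOn_invFunOn
  have hg : Set.BijOn (Function.invFunOn x I) (S₁ : Set P) I := hx.symm hinv.symm
  have hφ : Set.BijOn (y ∘ Function.invFunOn x I) (S₁ : Set P) (S₂ : Set P) := hy.comp hg
  have hφx : ∀ i ∈ I, (y ∘ Function.invFunOn x I) (x i) = y i := by
    intro i hi
    simp only [Function.comp_apply]
    rw [hinv.1 hi]
  have himg : ∀ f ∈ F, (fs (mp x f)).image (y ∘ Function.invFunOn x I) = fs (mp y f) := by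
    intro f hf
    obtain ⟨i1, i2, i3⟩ := hI f hf
    unfold fs mp
    simp only [Finset.image_insert, Finset.image_singleton]
    rw [hφx _ i1, hφx _ i2, hφx _ i3]
  have hused : ∀ (z : ι → P) (S : Finset P), Set.BijOn z I (S : Set P) →
      ∀ p ∈ S, ∃ f ∈ F.map (mp z), p = f.1 ∨ p = f.2.1 ∨ p = f.2.2 := by
    intro z S hz p hp
    obtain ⟨i, hi, rfl⟩ := hz.surjOn hp
    obtain ⟨f, hf, hif⟩ := used i hi
    refine ⟨_, List.mem_map.2 ⟨f, hf, rfl⟩, ?_⟩
    rcases hif with h | h | h
    · exact Or.inl (by rw [h]; rfl)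
    · exact Or.inr (Or.inl (by rw [h]; rfl))
    · exact Or.inr (Or.inr (by rw [h]; rfl))
  refine ⟨tset (F.map (mp x)), tset (F.map (mp y)), h1.empty (hused x S₁ hx), h1.interiors,
    h1.union, h2.empty (hused y S₂ hy), h2.interiors, h2.union,
    y ∘ Function.invFunOn x I, hφ, ?_, ?_, hφx⟩
  rotate_left
  · intro a b c habc hpos
    obtain ⟨g, hg', hge⟩ := mem_tset.1 habc
    obtain ⟨f, hf, rfl⟩ := List.mem_map.1 hg'
    have p1 := h1.pos _ (List.mem_map.2 ⟨f, hf, rfl⟩)
    have p2 := h2.pos _ (List.mem_map.2 ⟨f, hf, rfl⟩)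
    obtain ⟨i1, i2, i3⟩ := hI f hf
    have q1 := hφx _ i1
    have q2 := hφx _ i2
    have q3 := hφx _ i3
    have ha : a ∈ fs (mp x f) := by rw [hge]; simp
    have hb : b ∈ fs (mp x f) := by rw [hge]; simp
    have hc : c ∈ fs (mp x f) := by rw [hge]; simp
    unfold fs mp at ha hb hc
    unfold mp at p1 p2
    simp only [Finset.mem_insert, Finset.mem_singleton] at ha hb hc
    simp only at p1 p2
    rcases ha with ha | ha | ha <;> rcases hb with hb | hb | hb <;>
      rcases hc with hc | hc | hc <;> rw [ha, hb, hc] at hpos ⊢ <;>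
      simp only [q1, q2, q3] <;> unfold o at * <;> linarith
  intro t ht
  constructor
  · intro htT
    obtain ⟨g, hg', rfl⟩ := mem_tset.1 htT
    obtain ⟨f, hf, rfl⟩ := List.mem_map.1 hg'
    rw [himg f hf]
    exact mem_tset.2 ⟨_, List.mem_map.2 ⟨f, hf, rfl⟩, rfl⟩
  · intro htT
    obtain ⟨g, hg', hge⟩ := mem_tset.1 htT
    obtain ⟨f, hf, rfl⟩ := List.mem_map.1 hg'
    rw [← himg f hf] at hge
    have hmem : fs (mp x f) ∈ tset (F.map (mp x)) :=
      mem_tset.2 ⟨_, List.mem_map.2 ⟨f, hf, rfl⟩, rfl⟩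
    have hsub : fs (mp x f) ⊆ S₁ := (h1.empty (hused x S₁ hx) _ hmem).1
    have : (t : Set P) = (fs (mp x f) : Set P) := by
      apply (hφ.injOn.image_eq_image_iff (by exact_mod_cast ht) (by exact_mod_cast hsub)).1
      rw [← Finset.coe_image, ← Finset.coe_image, hge]
    have : t = fs (mp x f) := by exact_mod_cast this
    rw [this]
    exact hmem

theorem bds_map {ι κ : Type*} (w : κ → κ → ℝ) (f : ι → κ) (F : List (ι × ι × ι)) :
    bds w (F.map (fun t => (f t.1, f t.2.1, f t.2.2))) = bds (fun u v => w (f u) (f v)) F := by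
  unfold bds
  rw [List.map_map]
  rfl

theorem Wl_map {α β : Type*} (f : α → β) (p : ℕ → α) (E : ℕ → List α) : ∀ n : ℕ,
    (Wl p E n).map f = Wl (fun i => f (p i)) (fun i => (E i).map f) n
  | 0 => rfl
  | n + 1 => by
    show (Wl p E n ++ (p n :: E n)).map f = _
    rw [List.map_append, Wl_map f p E n]
    rfl

theorem Wl_inj {α : Type*} {p p' : ℕ → α} {E E' : ℕ → List α} : ∀ n : ℕ,
    (∀ i < n, (E i).length = (E' i).length) → Wl p E n = Wl p' E' n →
    ∀ i < n, p i = p' i ∧ E i = E' i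
  | 0, _, _ => fun i hi => absurd hi (Nat.not_lt_zero i)
  | n + 1, hl, he => by
    have he' : Wl p E n ++ (p n :: E n) = Wl p' E' n ++ (p' n :: E' n) := he
    obtain ⟨h1, h2⟩ := List.append_inj' he' (by
      rw [List.length_cons, List.length_cons, hl n (by omega)])
    intro i hi
    rcases Nat.lt_or_ge i n with h3 | h3
    · exact Wl_inj n (fun j hj => hl j (by omega)) h1 i h3
    · have : i = n := by omega
      subst this
      simpa using h2

theorem Wl_len {α : Type*} (p : ℕ → α) (E : ℕ → List α) : ∀ n : ℕ,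
    (Wl p E n).length = n + ∑ i ∈ Finset.range n, (E i).length
  | 0 => rfl
  | n + 1 => by
    show (Wl p E n ++ (p n :: E n)).length = _
    rw [List.length_append, List.length_cons, Wl_len p E n, Finset.sum_range_succ]
    omega

theorem exists_map_eq {α β : Type*} [DecidableEq α] [Inhabited β] {A : List α} {B : List β}
    (hn : A.Nodup) (hl : A.length = B.length) : ∃ f : α → β, A.map f = B := by
  refine ⟨fun a => B.getD (A.idxOf a) default, ?_⟩
  apply List.ext_getElem
  · simpa using hl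
  · intro i h1 h2
    have h3 : i < A.length := by simpa using h1
    rw [List.getElem_map, hn.idxOf_getElem i h3, List.getD_eq_getElem _ _ h2]

theorem exists_next {α : Type*} {x z : α} : ∀ {l : List α}, z ∈ l →
    ∃ z', (z, z') ∈ pairs (l ++ [x])
  | [], h => by simp at h
  | [a], h => by
    rw [List.mem_singleton.1 h]
    exact ⟨x, by simp⟩
  | (a :: b :: l), h => by
    rcases List.mem_cons.1 h with rfl | h
    · exact ⟨b, by simp⟩
    · obtain ⟨z', hz'⟩ := exists_next (x := x) h
      refine ⟨z', ?_⟩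
      show (z, z') ∈ pairs (a :: b :: (l ++ [x]))
      rw [pairs_cons]
      exact List.mem_cons_of_mem _ hz'

theorem two_sublist {α : Type*} {a b : α} : ∀ {l : List α}, a ∈ l → b ∈ l → a ≠ b →
    [a, b].Sublist l ∨ [b, a].Sublist l
  | [], h, _, _ => by simp at h
  | (x :: l), ha, hb, hab => by
    rcases List.mem_cons.1 ha with h1 | h1 <;> rcases List.mem_cons.1 hb with h2 | h2
    · exact absurd (h1.trans h2.symm) hab
    · left
      rw [h1]
      exact List.Sublist.cons_cons _ (List.singleton_sublist.2 h2)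
    · right
      rw [h2]
      exact List.Sublist.cons_cons _ (List.singleton_sublist.2 h1)
    · rcases two_sublist h1 h2 hab with h | h
      · exact Or.inl (h.cons _)
      · exact Or.inr (h.cons _)

theorem three_sublist {α : Type*} {a b c : α} : ∀ {l : List α}, a ∈ l → b ∈ l → c ∈ l →
    a ≠ b → a ≠ c → b ≠ c →
    [a, b, c].Sublist l ∨ [a, c, b].Sublist l ∨ [b, a, c].Sublist l ∨ [b, c, a].Sublist l ∨
      [c, a, b].Sublist l ∨ [c, b, a].Sublist l
  | [], h, _, _, _, _, _ => by simp at h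
  | (x :: l), ha, hb, hc, hab, hac, hbc => by
    rcases List.mem_cons.1 ha with h1 | h1
    · have hb' : b ∈ l := by
        rcases List.mem_cons.1 hb with h | h
        · exact absurd (h1.trans h.symm) hab
        · exact h
      have hc' : c ∈ l := by
        rcases List.mem_cons.1 hc with h | h
        · exact absurd (h1.trans h.symm) hac
        · exact h
      rw [h1]
      rcases two_sublist hb' hc' hbc with h | h
      · exact Or.inl (List.Sublist.cons_cons _ h)
      · exact Or.inr (Or.inl (List.Sublist.cons_cons _ h))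
    · rcases List.mem_cons.1 hb with h2 | h2
      · have hc' : c ∈ l := by
          rcases List.mem_cons.1 hc with h | h
          · exact absurd (h2.trans h.symm) hbc
          · exact h
        rw [h2]
        rcases two_sublist h1 hc' hac with h | h
        · exact Or.inr (Or.inr (Or.inl (List.Sublist.cons_cons _ h)))
        · exact Or.inr (Or.inr (Or.inr (Or.inl (List.Sublist.cons_cons _ h))))
      · rcases List.mem_cons.1 hc with h3 | h3
        · rw [h3]
          rcases two_sublist h1 h2 hab with h | h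
          · exact Or.inr (Or.inr (Or.inr (Or.inr (Or.inl (List.Sublist.cons_cons _ h)))))
          · exact Or.inr (Or.inr (Or.inr (Or.inr (Or.inr (List.Sublist.cons_cons _ h)))))
        · rcases three_sublist h1 h2 h3 hab hac hbc with h | h | h | h | h | h
          · exact Or.inl (h.cons _)
          · exact Or.inr (Or.inl (h.cons _))
          · exact Or.inr (Or.inr (Or.inl (h.cons _)))
          · exact Or.inr (Or.inr (Or.inr (Or.inl (h.cons _))))
          · exact Or.inr (Or.inr (Or.inr (Or.inr (Or.inl (h.cons _)))))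
          · exact Or.inr (Or.inr (Or.inr (Or.inr (Or.inr (h.cons _)))))

/-- Generalised double circle: every chain is concave or a fan. -/
structure GDC (h : ℕ) (p : ℕ → P) (ty : ℕ → Ty) (E : ℕ → List P) : Prop where
  three : 3 ≤ h
  close : p h = p 0
  nodup : (Wl p E h).Nodup
  neg : ∀ a b c, [a, b, c].Sublist (Wl p E h) → (∃ i < h, Rev ty p E i a b c) → o a b c < 0
  pos : ∀ a b c, [a, b, c].Sublist (Wl p E h) → (¬ ∃ i < h, Rev ty p E i a b c) → 0 < o a b c

theorem Rev.rot {α : Type*} {ty : ℕ → Ty} {p : ℕ → α} {E : ℕ → List α} {i : ℕ} {a b c : α}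
    (h : Rev ty p E i a b c) : Rev ty p E i b c a :=
  ⟨⟨h.1.2.1, h.1.2.2, h.1.1⟩, h.2.rot⟩

section gdc

variable {h : ℕ} {p : ℕ → P} {ty : ℕ → Ty} {E : ℕ → List P}

theorem GDC.cneg (g : GDC h p ty E) {t : P × P × P} (ht : CycInc (Wl p E h) t)
    (hr : ∃ i < h, Rev ty p E i t.1 t.2.1 t.2.2) : o t.1 t.2.1 t.2.2 < 0 := by
  obtain ⟨i, hi, hr⟩ := hr
  rcases cycInc_cases ht with hs | hs | hs
  · exact g.neg _ _ _ hs ⟨i, hi, hr⟩
  · rw [← o_cyc]
    exact g.neg _ _ _ hs ⟨i, hi, hr.rot⟩
  · rw [← o_cyc']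
    exact g.neg _ _ _ hs ⟨i, hi, hr.rot.rot⟩

theorem GDC.cpos (g : GDC h p ty E) {t : P × P × P} (ht : CycInc (Wl p E h) t)
    (hr : ¬ ∃ i < h, Rev ty p E i t.1 t.2.1 t.2.2) : 0 < o t.1 t.2.1 t.2.2 := by
  rcases cycInc_cases ht with hs | hs | hs
  · exact g.pos _ _ _ hs hr
  · rw [← o_cyc]
    refine g.pos _ _ _ hs ?_
    rintro ⟨i, hi, h'⟩
    exact hr ⟨i, hi, h'.rot.rot⟩
  · rw [← o_cyc']
    refine g.pos _ _ _ hs ?_
    rintro ⟨i, hi, h'⟩
    exact hr ⟨i, hi, h'.rot⟩

theorem GDC.one_ne (g : GDC h p ty E) {t : P × P × P} (ht : CycInc (Wl p E h) t) :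
    o t.1 t.2.1 t.2.2 ≠ 0 := by
  by_cases hr : ∃ i < h, Rev ty p E i t.1 t.2.1 t.2.2
  · exact (g.cneg ht hr).ne
  · exact (g.cpos ht hr).ne'

theorem GDC.gp (g : GDC h p ty E) {a b c : P} (ha : a ∈ Wl p E h) (hb : b ∈ Wl p E h)
    (hc : c ∈ Wl p E h) (hab : a ≠ b) (hac : a ≠ c) (hbc : b ≠ c) : o a b c ≠ 0 := by
  have key : ∀ x y z, [x, y, z].Sublist (Wl p E h) → o x y z ≠ 0 := fun x y z hs =>
    g.one_ne (t := (x, y, z)) ⟨_, List.IsRotated.refl _, hs⟩
  rcases three_sublist ha hb hc hab hac hbc with hs | hs | hs | hs | hs | hs <;>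
    have hk := key _ _ _ hs <;> intro h0 <;> apply hk <;> unfold o at * <;> linarith

theorem Wl_prefix {α : Type*} (p : ℕ → α) (E : ℕ → List α) {n : ℕ} : ∀ {m : ℕ}, n ≤ m →
    ∃ R, Wl p E m = Wl p E n ++ R
  | 0, h => by
    have : n = 0 := by omega
    subst this
    exact ⟨[], rfl⟩
  | m + 1, h => by
    rcases Nat.lt_or_ge n (m + 1) with h1 | h1
    · obtain ⟨R, hR⟩ := Wl_prefix p E (n := n) (m := m) (by omega)
      refine ⟨R ++ (p m :: E m), ?_⟩
      show Wl p E m ++ (p m :: E m) = _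
      rw [hR, List.append_assoc]
    · have : n = m + 1 := by omega
      subst this
      exact ⟨[], by simp⟩

theorem GDC.pre (g : GDC h p ty E) {n : ℕ} (hn : n < h) : (Wl p E n ++ (p n :: E n)).Nodup := by
  obtain ⟨R, hR⟩ := Wl_prefix p E (n := n + 1) (m := h) hn
  have := g.nodup
  rw [hR] at this
  exact (List.nodup_append.1 this).1

theorem GDC.inj (g : GDC h p ty E) {i j : ℕ} (hi : i < h) (hj : j < h) (e : p i = p j) :
    i = j := by
  by_contra hne
  rcases lt_or_gt_of_ne hne with hlt | hlt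
  · exact (List.nodup_append.1 (g.pre hj)).2.2 (p i) (mem_Wl.2 ⟨i, hlt, Or.inl rfl⟩) (p j)
      (by simp) e
  · exact (List.nodup_append.1 (g.pre hi)).2.2 (p j) (mem_Wl.2 ⟨j, hlt, Or.inl rfl⟩) (p i)
      (by simp) e.symm

theorem GDC.pE (g : GDC h p ty E) {i j : ℕ} (hi : i < h) (hj : j ≤ h) {z : P} (hz : z ∈ E i) :
    z ≠ p j := by
  have key : ∀ j < h, z ≠ p j := by
    intro j hj e
    rcases lt_trichotomy i j with hlt | heq | hlt
    · exact (List.nodup_append.1 (g.pre hj)).2.2 z (mem_Wl.2 ⟨i, hlt, Or.inr hz⟩) (p j)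
        (by simp) e
    · subst heq
      have := (List.nodup_append.1 (g.pre hi)).2.1
      rw [List.nodup_cons] at this
      rw [e] at hz
      exact this.1 hz
    · exact (List.nodup_append.1 (g.pre hi)).2.2 (p j) (mem_Wl.2 ⟨j, hlt, Or.inl rfl⟩) z
        (by simp [hz]) e.symm
  rcases Nat.lt_or_ge j h with h1 | h1
  · exact key j h1
  · have : j = h := by omega
    rw [this, g.close]
    have := g.three
    exact key 0 (by omega)

theorem GDC.EE (g : GDC h p ty E) {i j : ℕ} (hi : i < h) (hj : j < h) (hij : i ≠ j) {z : P}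
    (hz : z ∈ E i) : z ∉ E j := by
  intro hz'
  rcases lt_or_gt_of_ne hij with hlt | hlt
  · exact (List.nodup_append.1 (g.pre hj)).2.2 z (mem_Wl.2 ⟨i, hlt, Or.inr hz⟩) z
      (by simp [hz']) rfl
  · exact (List.nodup_append.1 (g.pre hi)).2.2 z (mem_Wl.2 ⟨j, hlt, Or.inr hz'⟩) z
      (by simp [hz]) rfl

theorem GDC.pidx (g : GDC h p ty E) {i j : ℕ} (hi : i ≤ h) (hj : j ≤ h) (e : p i = p j) :
    i = j ∨ (i = 0 ∧ j = h) ∨ (i = h ∧ j = 0) := by
  have h3 := g.three
  rcases Nat.lt_or_ge i h with h1 | h1 <;> rcases Nat.lt_or_ge j h with h2 | h2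
  · exact Or.inl (g.inj h1 h2 e)
  · have : j = h := by omega
    rw [this, g.close] at e
    have := g.inj h1 (by omega) e
    omega
  · have : i = h := by omega
    rw [this, g.close] at e
    have := g.inj (by omega) h2 e
    omega
  · omega

theorem mem_Lc {α : Type*} {p : ℕ → α} {E : ℕ → List α} {i : ℕ} {z : α} :
    z ∈ Lc p E i ↔ z = p i ∨ z ∈ E i ∨ z = p (i + 1) := by
  unfold Lc
  simp

theorem GDC.pLc (g : GDC h p ty E) {i j : ℕ} (hi : i < h) (hj : j ≤ h)
    (hz : p j ∈ Lc p E i) : p j = p i ∨ p j = p (i + 1) := by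
  rcases mem_Lc.1 hz with h1 | h1 | h1
  · exact Or.inl h1
  · exact absurd rfl (g.pE hi hj h1)
  · exact Or.inr h1

theorem GDC.only (g : GDC h p ty E) {i j : ℕ} (hi : i < h) (hj : j < h)
    (h1 : p i ∈ Lc p E j) (h2 : p (i + 1) ∈ Lc p E j) : j = i := by
  have h3 := g.three
  have c1 := g.pLc hj (by omega) h1
  have c2 := g.pLc hj (by omega) h2
  rcases c1 with c1 | c1 <;> rcases c2 with c2 | c2 <;>
    have k1 := g.pidx (by omega) (by omega) c1 <;>
    have k2 := g.pidx (by omega) (by omega) c2 <;> omega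

theorem GDC.triv (g : GDC h p ty E) {i j k : ℕ} (hij : i < j) (hjk : j < k) (hk : k < h) :
    0 < o (p i) (p j) (p k) := by
  have h3 := g.three
  have hsub : ∀ n, (Wl p (fun _ => []) n).Sublist (Wl p E n) := by
    intro n
    induction n with
    | zero => exact List.Sublist.refl _
    | succ n ih =>
      show (Wl p (fun _ => []) n ++ [p n]).Sublist (Wl p E n ++ (p n :: E n))
      exact ih.append (List.Sublist.cons_cons _ (List.nil_sublist _))
  have h1 : [i, j, k].Sublist (List.range h) := by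
    have hpw : (List.range h).Pairwise (· < ·) := List.pairwise_lt_range
    rcases three_sublist (a := i) (b := j) (c := k) (l := List.range h)
      (List.mem_range.2 (by omega)) (List.mem_range.2 (by omega)) (List.mem_range.2 hk)
      (by omega) (by omega) (by omega) with hs | hs | hs | hs | hs | hs
    · exact hs
    all_goals
      exfalso
      have := hpw.sublist hs
      simp only [List.pairwise_cons, List.mem_cons, List.not_mem_nil, or_false,
        forall_eq_or_imp, forall_eq, List.Pairwise.nil, and_true] at this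
      omega
  have h2 : [p i, p j, p k].Sublist (Wl p E h) := by
    have := h1.map p
    rw [← Wl_nil] at this
    exact this.trans (hsub h)
  apply g.pos _ _ _ h2
  rintro ⟨a, ha, ⟨m1, m2, m3⟩, _⟩
  have c1 := g.pLc ha (by omega) m1
  have c2 := g.pLc ha (by omega) m2
  have c3 := g.pLc ha (by omega) m3
  rcases c1 with c1 | c1 <;> rcases c2 with c2 | c2 <;> rcases c3 with c3 | c3 <;>
    have k1 := g.pidx (by omega) (by omega) c1 <;>
    have k2 := g.pidx (by omega) (by omega) c2 <;>
    have k3 := g.pidx (by omega) (by omega) c3 <;> omega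

theorem GDC.edge (g : GDC h p ty E) {i : ℕ} (hi : i < h) {z : P} (hz : z ∈ Wl p E h)
    (h1 : z ≠ p i) (h2 : z ≠ p (i + 1)) : 0 < ell p i z := by
  have h3 := g.three
  obtain ⟨R, hR⟩ := Wl_rot (p := p) (E := E) (by omega) g.close hi
  have hrot := hR E (fun _ _ => rfl)
  unfold ell
  by_cases hzL : z ∈ Lc p E i
  · have hzE : z ∈ E i := by
      rcases mem_Lc.1 hzL with h | h | h
      · exact absurd h h1
      · exact h
      · exact absurd h h2
    have hs : [p i, z, p (i + 1)].Sublist (Lc p E i) := by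
      unfold Lc
      exact List.Sublist.cons_cons _ ((List.singleton_sublist.2 hzE).append
        (List.Sublist.refl [p (i + 1)]))
    have hc : CycInc (Wl p E h) (p i, z, p (i + 1)) :=
      ⟨_, hrot.symm, hs.trans (List.sublist_append_left _ _)⟩
    have := g.cneg hc ⟨i, hi, ⟨mem_Lc.2 (Or.inl rfl), hzL, mem_Lc.2 (Or.inr (Or.inr rfl))⟩, by
      cases ty i with
      | concave => trivial
      | fanL => exact Or.inl rfl
      | fanR => exact Or.inr (Or.inr rfl)⟩
    simp only at this
    rw [o_swap23]; linarith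
  · have hzR : z ∈ R := by
      rcases List.mem_append.1 ((hrot.mem_iff (a := z)).1 hz) with h | h
      · exact absurd h hzL
      · exact h
    have hs : ([p i, p (i + 1)] ++ [z]).Sublist (Lc p E i ++ R) := by
      refine List.Sublist.append ?_ (List.singleton_sublist.2 hzR)
      unfold Lc
      exact List.Sublist.cons_cons _ (List.sublist_append_right _ _)
    have hc : CycInc (Wl p E h) (p i, p (i + 1), z) := ⟨_, hrot.symm, hs⟩
    refine g.cpos hc ?_
    rintro ⟨j, hj, ⟨m1, m2, m3⟩, _⟩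
    have := g.only hi hj m1 m2
    rw [this] at m3
    exact hzL m3

theorem GDC.ell_nonneg (g : GDC h p ty E) {i : ℕ} (hi : i < h) {z : P} (hz : z ∈ Wl p E h) :
    0 ≤ ell p i z ∧ (ell p i z = 0 → z = p i ∨ z = p (i + 1)) := by
  by_cases h1 : z = p i
  · refine ⟨?_, fun _ => Or.inl h1⟩
    unfold ell; rw [h1, o_self13]
  · by_cases h2 : z = p (i + 1)
    · refine ⟨?_, fun _ => Or.inr h2⟩
      unfold ell; rw [h2, o_self23]
    · have := g.edge hi hz h1 h2
      exact ⟨this.le, fun h => by rw [h] at this; exact absurd this (lt_irrefl _)⟩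

theorem GDC.ext (g : GDC h p ty E) {S : Finset P} (hS : ∀ z, z ∈ S ↔ z ∈ Wl p E h) {i : ℕ}
    (hi : i ≤ h) : p i ∈ hv S := by
  have h3 := g.three
  have key : ∀ i < h, p i ∈ hv S := by
    intro i hi
    obtain ⟨j, hj, hji, hne⟩ : ∃ j < h, p (j + 1) = p i ∧ p j ≠ p (i + 1) := by
      rcases Nat.eq_zero_or_pos i with h0 | h0
      · refine ⟨h - 1, by omega, ?_, ?_⟩
        · have : h - 1 + 1 = h := by omega
          rw [this, h0, g.close]
        · intro e
          have := g.pidx (by omega) (by omega) e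
          omega
      · refine ⟨i - 1, by omega, ?_, ?_⟩
        · have : i - 1 + 1 = i := by omega
          rw [this]
        · intro e
          have := g.pidx (by omega) (by omega) e
          omega
    refine ⟨(hS _).2 (mem_Wl.2 ⟨i, hi, Or.inl rfl⟩), ?_⟩
    intro hc
    have hconv : Convex ℝ {z : P | 0 < ell p j z + ell p i z} := by
      rintro x hx y hy s t hs ht hst
      have e1 : ell p j (s • x + t • y) = s * ell p j x + t * ell p j y :=
        o_comb _ _ _ _ s t hst
      have e2 : ell p i (s • x + t • y) = s * ell p i x + t * ell p i y :=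
        o_comb _ _ _ _ s t hst
      have hx' : 0 < ell p j x + ell p i x := hx
      have hy' : 0 < ell p j y + ell p i y := hy
      show 0 < ell p j (s • x + t • y) + ell p i (s • x + t • y)
      rw [e1, e2]
      rcases eq_or_lt_of_le hs with h1 | h1
      · have : t = 1 := by linarith
        rw [← h1, this]; linarith
      · nlinarith [mul_pos h1 hx', mul_nonneg ht hy'.le]
    have hsub : convexHull ℝ ((S : Set P) \ {p i}) ⊆ {z : P | 0 < ell p j z + ell p i z} := by
      refine convexHull_min ?_ hconv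
      rintro z ⟨hz, hzi⟩
      have hzW := (hS z).1 hz
      obtain ⟨a1, a2⟩ := g.ell_nonneg hj hzW
      obtain ⟨b1, b2⟩ := g.ell_nonneg hi hzW
      have hzi' : z ≠ p i := by simpa using hzi
      rcases eq_or_lt_of_le a1 with h1 | h1
      · rcases eq_or_lt_of_le b1 with h2 | h2
        · exfalso
          rcases a2 h1.symm with c | c
          · rcases b2 h2.symm with d | d
            · exact hzi' d
            · exact hne (c.symm.trans d)
          · exact hzi' (c.trans hji)
        · show 0 < ell p j z + ell p i z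
          linarith
      · show 0 < ell p j z + ell p i z
        linarith
    have h4 : 0 < ell p j (p i) + ell p i (p i) := hsub hc
    have e1 : ell p j (p i) = 0 := by
      unfold ell; rw [hji, o_self23]
    have e2 : ell p i (p i) = 0 := by
      unfold ell; rw [o_self13]
    linarith
  rcases Nat.lt_or_ge i h with h1 | h1
  · exact key i h1
  · have : i = h := by omega
    rw [this, g.close]
    exact key 0 (by omega)

theorem GDC.hdata (g : GDC h p ty E) {S : Finset P} (hS : ∀ z, z ∈ S ↔ z ∈ Wl p E h) :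
    HData S h p := by
  have h3 := g.three
  refine ⟨h3, ?_, g.close, fun i hi => (g.ext hS hi).1, fun i hi j hj e => g.inj hi hj e,
    fun i j k hij hjk hk => g.triv hij hjk hk, ?_, fun i hi => g.ext hS hi⟩
  · intro a ha b hb c hc
    exact g.gp ((hS a).1 ha) ((hS b).1 hb) ((hS c).1 hc)
  · intro i hi z hz h1 h2
    exact g.edge hi ((hS z).1 hz) h1 h2

theorem GDC.inner (g : GDC h p ty E) {S : Finset P} (hS : ∀ z, z ∈ S ↔ z ∈ Wl p E h) {i : ℕ}
    (hi : i < h) {z : P} (hz : z ∈ E i) : z ∉ hv S := by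
  have h3 := g.three
  obtain ⟨R, hR⟩ := Wl_rot (p := p) (E := E) (by omega) g.close hi
  have hrot := hR E (fun _ _ => rfl)
  obtain ⟨j, hj, hji, hji1⟩ : ∃ j < h, p j ≠ p i ∧ p j ≠ p (i + 1) := by
    by_contra hc
    push Not at hc
    have k0 := hc 0 (by omega)
    have k1 := hc 1 (by omega)
    have k2 := hc 2 (by omega)
    have c0 : p 0 = p i ∨ p 0 = p (i + 1) := by
      by_cases e : p 0 = p i
      · exact Or.inl e
      · exact Or.inr (k0 e)
    have c1 : p 1 = p i ∨ p 1 = p (i + 1) := by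
      by_cases e : p 1 = p i
      · exact Or.inl e
      · exact Or.inr (k1 e)
    have c2 : p 2 = p i ∨ p 2 = p (i + 1) := by
      by_cases e : p 2 = p i
      · exact Or.inl e
      · exact Or.inr (k2 e)
    rcases c0 with c0 | c0 <;> rcases c1 with c1 | c1 <;> rcases c2 with c2 | c2 <;>
      have m0 := g.pidx (by omega) (by omega) c0 <;>
      have m1 := g.pidx (by omega) (by omega) c1 <;>
      have m2 := g.pidx (by omega) (by omega) c2 <;> omega
  have hjL : p j ∉ Lc p E i := by
    intro hm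
    rcases g.pLc hi (by omega) hm with h | h
    · exact hji h
    · exact hji1 h
  have hjW : p j ∈ Wl p E h := mem_Wl.2 ⟨j, hj, Or.inl rfl⟩
  have hjR : p j ∈ R := by
    rcases List.mem_append.1 ((hrot.mem_iff (a := p j)).1 hjW) with h | h
    · exact absurd h hjL
    · exact h
  have hzL : z ∈ Lc p E i := mem_Lc.2 (Or.inr (Or.inl hz))
  have hzi : z ≠ p i := g.pE hi (by omega) hz
  have hzi1 : z ≠ p (i + 1) := g.pE hi (by omega) hz
  have hzj : z ≠ p j := g.pE hi (by omega) hz
  have hzW : z ∈ Wl p E h := mem_Wl.2 ⟨i, hi, Or.inr hz⟩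
  have hzonly : ∀ k < h, z ∈ Lc p E k → k = i := by
    intro k hk hm
    by_contra hne
    rcases mem_Lc.1 hm with h | h | h
    · exact g.pE hi (by omega) hz h
    · exact g.EE hi hk (Ne.symm hne) hz h
    · exact g.pE hi (by omega) hz h
  have a1 : 0 < o (p i) (p (i + 1)) z := g.edge hi hzW hzi hzi1
  have a2 : 0 < o z (p (i + 1)) (p j) := by
    have hs : ([z, p (i + 1)] ++ [p j]).Sublist (Lc p E i ++ R) := by
      refine List.Sublist.append ?_ (List.singleton_sublist.2 hjR)
      unfold Lc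
      exact (((List.singleton_sublist.2 hz).append (List.Sublist.refl [p (i + 1)]))).cons _
    have hc : CycInc (Wl p E h) (z, p (i + 1), p j) := ⟨_, hrot.symm, hs⟩
    refine g.cpos hc ?_
    rintro ⟨k, hk, ⟨m1, m2, m3⟩, _⟩
    have := hzonly k hk m1
    rw [this] at m3
    exact hjL m3
  have a3 : 0 < o (p i) z (p j) := by
    have hs : ([p i, z] ++ [p j]).Sublist (Lc p E i ++ R) := by
      refine List.Sublist.append ?_ (List.singleton_sublist.2 hjR)
      unfold Lc
      exact List.Sublist.cons_cons _ ((List.singleton_sublist.2 hz).trans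
        (List.sublist_append_left _ _))
    have hc : CycInc (Wl p E h) (p i, z, p j) := ⟨_, hrot.symm, hs⟩
    refine g.cpos hc ?_
    rintro ⟨k, hk, ⟨m1, m2, m3⟩, _⟩
    have := hzonly k hk m2
    rw [this] at m3
    exact hjL m3
  intro hzv
  apply hzv.2
  have b1 : 0 < o (p i) (p (i + 1)) (p j) := by
    have := o_sum (p i) (p (i + 1)) (p j) z
    have e1 : o (p (i + 1)) (p j) z = o z (p (i + 1)) (p j) := o_cyc _ _ _
    have e2 : o (p j) (p i) z = o (p i) z (p j) := by unfold o; ring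
    rw [e1, e2] at this
    linarith
  have hmem : z ∈ convexHull ℝ ({p i, p (i + 1), p j} : Set P) := by
    rw [hull_eq_cls b1]
    refine ⟨a1.le, ?_, ?_⟩
    · rw [o_cyc]; exact a2.le
    · have e2 : o (p j) (p i) z = o (p i) z (p j) := by unfold o; ring
      rw [e2]; exact a3.le
  refine convexHull_mono ?_ hmem
  intro q hq
  rcases hq with rfl | rfl | rfl
  · exact ⟨(g.ext hS (by omega)).1, by simpa using Ne.symm hzi⟩
  · exact ⟨(g.ext hS (by omega)).1, by simpa using Ne.symm hzi1⟩
  · exact ⟨(g.ext hS (by omega)).1, by simpa using Ne.symm hzj⟩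

theorem GDC.ncard (g : GDC h p ty E) {S : Finset P} (hS : ∀ z, z ∈ S ↔ z ∈ Wl p E h) :
    (hv S).ncard = h := by
  classical
  have h3 := g.three
  have h1 : hv S = (((Finset.range h).image p : Finset P) : Set P) := by
    ext z
    simp only [Finset.coe_image, Set.mem_image, Finset.coe_range, Set.mem_Iio]
    constructor
    · intro hz
      obtain ⟨i, hi, h2⟩ := mem_Wl.1 ((hS z).1 hz.1)
      rcases h2 with h2 | h2
      · exact ⟨i, hi, h2.symm⟩
      · exact absurd hz (g.inner hS hi h2)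
    · rintro ⟨i, hi, rfl⟩
      exact g.ext hS (by omega)
  rw [h1, Set.ncard_coe_finset, Finset.card_image_of_injOn, Finset.card_range]
  intro i hi j hj e
  exact g.inj (by simpa using hi) (by simpa using hj) e

end gdc

end Pool.Agent.Helper111_GDC
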