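import Pool.Agent.Helper111_Chain.Pocket

set_option autoImplicit false

/-!
Covering theorem for a convex hull with any number of vertices.
-/

namespace Pool.Agent.Helper111_GDC

open Pool.Agent.Helper111_Chain

/-- Consecutive pairs of a list. -/
def pairs {α : Type*} : List α → List (α × α)
  | [] => []
  | [_] => []
  | (u :: v :: l) => (u, v) :: pairs (v :: l)

@[simp] theorem pairs_nil {α : Type*} : pairs ([] : List α) = [] := rfl
@[simp] theorem pairs_one {α : Type*} (u : α) : pairs [u] = [] := rfl
@[simp] theorem pairs_cons {α : Type*} (u v : α) (l : List α) :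
    pairs (u :: v :: l) = (u, v) :: pairs (v :: l) := rfl

theorem path_eq {ι : Type*} (w : ι → ι → ℝ) : ∀ l : List ι,
    path w l = ((pairs l).map (fun e => w e.1 e.2)).sum
  | [] => by simp
  | [_] => by simp
  | (u :: v :: l) => by
    rw [path_cons, pairs_cons, List.map_cons, List.sum_cons, path_eq w (v :: l)]

theorem path_append {ι : Type*} (w : ι → ι → ℝ) : ∀ (A : List ι) (x : ι) (B : List ι),
    path w (A ++ x :: B) = path w (A ++ [x]) + path w (x :: B)
  | [], x, B => by simp
  | [a], x, B => by simp
  | (a :: b :: A), x, B => by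
    have := path_append w (b :: A) x B
    simp only [List.cons_append, path_cons] at this ⊢
    rw [this]; ring

theorem pairs_append {α : Type*} : ∀ (A : List α) (x : α) (B : List α),
    pairs (A ++ x :: B) = pairs (A ++ [x]) ++ pairs (x :: B)
  | [], x, B => by simp
  | [a], x, B => by simp
  | (a :: b :: A), x, B => by
    have := pairs_append (b :: A) x B
    simp only [List.cons_append, pairs_cons] at this ⊢
    rw [this]

theorem path_reverse {ι : Type*} (w : ι → ι → ℝ) (hw : ∀ u v, w v u = - w u v) :
    ∀ l : List ι, path w l.reverse = - path w l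
  | [] => by simp
  | [_] => by simp
  | (u :: v :: l) => by
    have h1 : (u :: v :: l).reverse = l.reverse ++ v :: [u] := by simp
    have h2 : l.reverse ++ [v] = (v :: l).reverse := by simp
    rw [h1, path_append, h2, path_reverse w hw (v :: l), path_cons, path_cons, path_one, hw u v]
    ring

/-- Fan decomposition of a closed path. -/
theorem path_fan {ι : Type*} (w : ι → ι → ℝ) (hw : ∀ u v, w v u = - w u v) (p : ι) :
    ∀ L : List ι, L ≠ [] → path w (p :: (L ++ [p])) =
      ((pairs L).map (fun e => w p e.1 + w e.1 e.2 + w e.2 p)).sum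
  | [], h => absurd rfl h
  | [a], _ => by simp [hw p a]
  | (a :: b :: T), _ => by
    have := path_fan w hw p (b :: T) (by simp)
    simp only [List.cons_append, path_cons, pairs_cons, List.map_cons, List.sum_cons] at this ⊢
    rw [← this, hw p b]
    ring

theorem ind_cases (z : P) (f : P × P × P) : ind z f = 0 ∨ (ind z f = 1 ∧ z ∈ opn f.1 f.2.1 f.2.2) := by
  unfold ind
  by_cases h : z ∈ opn f.1 f.2.1 f.2.2
  · exact Or.inr ⟨by rw [if_pos h], h⟩
  · exact Or.inl (by rw [if_neg h])

/-- At most one triangle of a fan contains a given point. -/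
theorem fan_le_one (p z : P) : ∀ L : List P, L.Pairwise (fun a b => 0 < o p a b) →
    ((pairs L).map (fun e => ind z (p, e.1, e.2))).sum = 0 ∨
    (((pairs L).map (fun e => ind z (p, e.1, e.2))).sum = 1 ∧ ∀ a T, L = a :: T → 0 < o p a z)
  | [], _ => Or.inl (by simp)
  | [a], _ => Or.inl (by simp)
  | (a :: b :: T), hL => by
    have hL' := List.pairwise_cons.1 hL
    have hab : 0 < o p a b := hL'.1 b (by simp)
    have ih := fan_le_one p z (b :: T) hL'.2
    rw [pairs_cons, List.map_cons, List.sum_cons]
    rcases ind_cases z (p, a, b) with h0 | ⟨h1, hz⟩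
    · rw [h0, zero_add]
      rcases ih with ih | ⟨ih1, ih2⟩
      · exact Or.inl ih
      · refine Or.inr ⟨ih1, ?_⟩
        intro a' T' he
        injection he with e1 e2
        rw [← e1]
        -- some triangle of the tail contains `z`
        by_contra hc
        push Not at hc
        have hbz : 0 < o p b z := ih2 b T rfl
        have hex : ∃ e ∈ pairs (b :: T), ind z (p, e.1, e.2) ≠ 0 := by
          by_contra hcon
          push Not at hcon
          have : ((pairs (b :: T)).map (fun e => ind z (p, e.1, e.2))).sum = 0 := by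
            apply List.sum_eq_zero
            intro x hx
            obtain ⟨e, he, rfl⟩ := List.mem_map.1 hx
            exact hcon e he
          rw [this] at ih1
          norm_num at ih1
        obtain ⟨e, he, hne⟩ := hex
        rcases ind_cases z (p, e.1, e.2) with h | ⟨_, h⟩
        · exact hne h
        · have hmem : ∀ {L : List P} {e : P × P}, e ∈ pairs L → e.1 ∈ L ∧ e.2 ∈ L := by
            intro L
            induction L with
            | nil => intro e he; simp at he
            | cons x L ihL =>
              intro e he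
              cases L with
              | nil => simp at he
              | cons y L =>
                rw [pairs_cons] at he
                rcases List.mem_cons.1 he with rfl | he
                · simp
                · obtain ⟨m1, m2⟩ := ihL he
                  exact ⟨List.mem_cons_of_mem _ m1, List.mem_cons_of_mem _ m2⟩
          obtain ⟨m1, m2⟩ := hmem he
          have g1 : 0 < o p a e.1 := hL'.1 _ m1
          have g2 : 0 < o p a e.2 := hL'.1 _ m2
          have g3 : 0 < o p e.1 z := h.1
          have g4 : 0 < o p z e.2 := by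
            have := h.2.2
            rw [← o_cyc'] at this
            unfold o at *; linarith
          have g5 : 0 < o p e.1 e.2 := by
            have s := o_sum p e.1 e.2 z
            have t1 := h.1
            have t2 := h.2.1
            have t3 := h.2.2
            unfold opn at *
            linarith
          have gp := o_gp p e.1 e.2 a z
          -- o p e1 e2 * o p a z = o p e1 a * o p e2 z - o p e1 z * o p e2 a
          have r1 : o p e.1 a = - o p a e.1 := o_swap23 _ _ _
          have r2 : o p e.2 z = - o p z e.2 := o_swap23 _ _ _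
          have r3 : o p e.2 a = - o p a e.2 := o_swap23 _ _ _
          rw [r1, r2, r3] at gp
          nlinarith [mul_pos g1 g4, mul_pos g3 g2, mul_nonneg g5.le (neg_nonneg.2 hc)]
    · rw [h1]
      rcases ih with ih | ⟨ih1, ih2⟩
      · refine Or.inr ⟨by rw [ih]; ring, ?_⟩
        intro a' T' he
        injection he with e1 e2
        rw [← e1]
        exact hz.1
      · exfalso
        have := ih2 b T rfl
        have h2 := hz.2.2
        have : o b p z = - o p b z := o_swap12 _ _ _
        have h3 : 0 < o b p z := h2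
        linarith

theorem fan_ge_one (p z : P) : ∀ L : List P, (∀ a T, L = a :: T → 0 < o p a z) →
    (∀ T a, L = T ++ [a] → o p a z < 0) → L ≠ [] →
    (∀ a ∈ L, o p a z ≠ 0) → (∀ e ∈ pairs L, 0 < o e.1 e.2 z) →
    1 ≤ ((pairs L).map (fun e => ind z (p, e.1, e.2))).sum
  | [], _, _, h, _, _ => absurd rfl h
  | [a], h1, h2, _, _, _ => by
    have := h1 a [] rfl
    have := h2 [] a rfl
    linarith
  | (a :: b :: T), h1, h2, _, h4, h5 => by
    rw [pairs_cons, List.map_cons, List.sum_cons]
    have hnn : 0 ≤ ((pairs (b :: T)).map (fun e => ind z (p, e.1, e.2))).sum := by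
      apply List.sum_nonneg
      intro x hx
      obtain ⟨e, _, rfl⟩ := List.mem_map.1 hx
      exact ind_nonneg _ _
    rcases lt_or_gt_of_ne (h4 b (by simp)) with hb | hb
    · have : z ∈ opn p a b := by
        refine ⟨h1 a _ rfl, h5 (a, b) (by simp), ?_⟩
        rw [o_swap12]; linarith
      have h6 : ind z (p, a, b) = 1 := by unfold ind; rw [if_pos this]
      show 1 ≤ ind z (p, a, b) + _
      linarith
    · have := fan_ge_one p z (b :: T) (by
        intro a' T' he
        injection he with e1 e2
        rw [← e1]; exact hb) (by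
        intro T' a' he
        exact h2 (a :: T') a' (by rw [he]; rfl)) (by simp)
        (fun c hc => h4 c (List.mem_cons_of_mem _ hc))
        (fun e he => h5 e (by rw [pairs_cons]; exact List.mem_cons_of_mem _ he))
      have := ind_nonneg z (p, a, b)
      show 1 ≤ ind z (p, a, b) + _
      linarith

/-- A finite set with hull polygon `p₀ :: L` and a list of faces. -/
structure CovH (S : Finset P) (F : List (P × P × P)) (p₀ : P) (L : List P) : Prop where
  gp : ∀ p ∈ S, ∀ q ∈ S, ∀ r ∈ S, p ≠ q → p ≠ r → q ≠ r → o p q r ≠ 0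
  mem : ∀ f ∈ F, f.1 ∈ S ∧ f.2.1 ∈ S ∧ f.2.2 ∈ S
  pos : ∀ f ∈ F, 0 < o f.1 f.2.1 f.2.2
  bd : ∀ w : P → P → ℝ, (∀ p q, w q p = - w p q) → bds w F = path w (p₀ :: (L ++ [p₀]))
  hp : p₀ ∈ S
  hL : ∀ p ∈ L, p ∈ S
  len : 2 ≤ L.length
  sorted : L.Pairwise (fun a b => 0 < o p₀ a b)
  inside : ∀ e ∈ pairs (p₀ :: (L ++ [p₀])), ∀ p ∈ S, 0 ≤ o e.1 e.2 p

variable {S : Finset P} {F : List (P × P × P)} {p₀ : P} {L : List P}

theorem mem_of_pairs {α : Type*} : ∀ {L : List α} {e : α × α}, e ∈ pairs L → e.1 ∈ L ∧ e.2 ∈ L
  | [], e, he => by simp at he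
  | [_], e, he => by simp at he
  | (x :: y :: L), e, he => by
    rw [pairs_cons] at he
    rcases List.mem_cons.1 he with rfl | he
    · simp
    · obtain ⟨m1, m2⟩ := mem_of_pairs he
      exact ⟨List.mem_cons_of_mem _ m1, List.mem_cons_of_mem _ m2⟩

theorem pairs_pairwise {α : Type*} {R : α → α → Prop} : ∀ {L : List α}, L.Pairwise R →
    ∀ e ∈ pairs L, R e.1 e.2
  | [], _, e, he => by simp at he
  | [_], _, e, he => by simp at he
  | (x :: y :: L), h, e, he => by
    rw [pairs_cons] at he
    have h' := List.pairwise_cons.1 h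
    rcases List.mem_cons.1 he with rfl | he
    · exact h'.1 y (by simp)
    · exact pairs_pairwise h'.2 e he

theorem CovH.key (h : CovH S F p₀ L) {z : P} (hz : z ∈ Gen S) {p q r : P} (hp : p ∈ S)
    (hq : q ∈ S) (hr : r ∈ S) (hpos : 0 < o p q r) :
    cr z p q + cr z q r + cr z r p = ind z (p, q, r) := by
  obtain ⟨n1, n2, n3⟩ := ne_of_pos hpos
  exact cr_tri hpos (hz.1 p hp) (hz.1 q hq) (hz.1 r hr) (hz.2 p hp q hq n1)
    (hz.2 q hq r hr n2) (hz.2 r hr p hp n3)

theorem CovH.count (h : CovH S F p₀ L) {z : P} (hz : z ∈ Gen S) :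
    (F.map (ind z)).sum = ((pairs L).map (fun e => ind z (p₀, e.1, e.2))).sum := by
  have h1 := h.bd (cr z) (cr_anti z)
  have hne : L ≠ [] := by
    intro e
    have := h.len
    rw [e] at this
    simp at this
  rw [path_fan (cr z) (cr_anti z) p₀ L hne] at h1
  have h2 : (pairs L).map (fun e => cr z p₀ e.1 + cr z e.1 e.2 + cr z e.2 p₀) =
      (pairs L).map (fun e => ind z (p₀, e.1, e.2)) := by
    apply List.map_congr_left
    intro e he
    obtain ⟨m1, m2⟩ := mem_of_pairs he
    exact h.key hz h.hp (h.hL _ m1) (h.hL _ m2) (pairs_pairwise h.sorted e he)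
  rw [h2] at h1
  rw [← h1]
  unfold bds
  congr 1
  apply List.map_congr_left
  intro f hf
  obtain ⟨m1, m2, m3⟩ := h.mem f hf
  exact (h.key hz m1 m2 m3 (h.pos f hf)).symm

theorem CovH.disj (h : CovH S F p₀ L) {f f' : P × P × P} (hf : f ∈ F) (hf' : f' ∈ F)
    (hne : f ≠ f') : opn f.1 f.2.1 f.2.2 ∩ opn f'.1 f'.2.1 f'.2.2 = ∅ := by
  by_contra hc
  have hne' : (opn f.1 f.2.1 f.2.2 ∩ opn f'.1 f'.2.1 f'.2.2).Nonempty :=
    Set.nonempty_iff_ne_empty.2 hc
  obtain ⟨z, hz, hzG⟩ := (dense_Gen S).inter_open_nonempty _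
    ((isOpen_opn _ _ _).inter (isOpen_opn _ _ _)) hne'
  have h1 := h.count hzG
  have h2 := two_le_sum (ind z) F (fun a _ => ind_nonneg z a) f hf f' hf' hne
  have h3 : ind z f = 1 := by unfold ind; rw [if_pos hz.1]
  have h4 : ind z f' = 1 := by unfold ind; rw [if_pos hz.2]
  rw [h3, h4, h1] at h2
  rcases fan_le_one p₀ z L h.sorted with h5 | ⟨h5, _⟩ <;> linarith

theorem CovH.cover (h : CovH S F p₀ L) {z : P} (hzG : z ∈ Gen S)
    (hz : ∀ e ∈ pairs (p₀ :: (L ++ [p₀])), 0 < o e.1 e.2 z) :
    ∃ f ∈ F, z ∈ opn f.1 f.2.1 f.2.2 := by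
  by_contra hc
  push Not at hc
  have h1 := h.count hzG
  have h3 : (F.map (ind z)).sum = 0 := by
    apply List.sum_eq_zero
    intro x hx
    obtain ⟨f, hf, rfl⟩ := List.mem_map.1 hx
    unfold ind
    rw [if_neg (hc f hf)]
  have hne : L ≠ [] := by
    intro e
    have := h.len
    rw [e] at this
    simp at this
  have hnd : ∀ a ∈ L, a ≠ p₀ := by
    intro a ha e
    have hlen := h.len
    obtain ⟨b, hb, hab⟩ : ∃ b ∈ L, 0 < o p₀ a b ∨ 0 < o p₀ b a := by
      by_contra hcon
      push Not at hcon
      have hs := h.sorted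
      match L, hs, ha, hlen, hcon with
      | (x :: y :: T), hs, ha, _, hcon =>
        have hs' := List.pairwise_cons.1 hs
        rcases List.mem_cons.1 ha with rfl | ha'
        · have := hs'.1 y (by simp)
          have := (hcon y (by simp)).1
          linarith
        · have := hs'.1 a ha'
          have := (hcon x (by simp)).2
          linarith
    rcases hab with hab | hab
    · rw [e, o_self12] at hab; exact lt_irrefl _ hab
    · rw [e, o_self13] at hab; exact lt_irrefl _ hab
  have h2 := fan_ge_one p₀ z L (by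
      intro a T he
      apply hz (p₀, a)
      rw [he]; simp) (by
      intro T a he
      have hm : (a, p₀) ∈ pairs (p₀ :: (L ++ [p₀])) := by
        rw [he]
        have : p₀ :: ((T ++ [a]) ++ [p₀]) = (p₀ :: T) ++ a :: [p₀] := by simp
        rw [this, pairs_append]
        simp
      have := hz _ hm
      rw [o_swap12] at this
      linarith) hne
    (fun a ha => hzG.2 p₀ h.hp a (h.hL a ha) (Ne.symm (hnd a ha)))
    (fun e he => hz e (by
      have : pairs (p₀ :: (L ++ [p₀])) = pairs (p₀ :: L ++ [p₀]) := rfl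
      obtain ⟨T, a, rfl⟩ : ∃ T a, L = T ++ [a] := ⟨L.dropLast, L.getLast hne, (List.dropLast_append_getLast hne).symm⟩
      have e1 : p₀ :: ((T ++ [a]) ++ [p₀]) = (p₀ :: T) ++ a :: [p₀] := by simp
      rw [e1, pairs_append]
      apply List.mem_append_left
      cases T with
      | nil => simp at he
      | cons b T =>
        show e ∈ pairs (p₀ :: b :: (T ++ [a]))
        rw [pairs_cons]
        exact List.mem_cons_of_mem _ he))
  rw [h3] at h1
  rw [← h1] at h2
  norm_num at h2

theorem CovH.mem_closed (h : CovH S F p₀ L) {z : P} (hz : z ∈ convexHull ℝ (S : Set P)) :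
    ∀ e ∈ pairs (p₀ :: (L ++ [p₀])), 0 ≤ o e.1 e.2 z := by
  intro e he
  have : convexHull ℝ (S : Set P) ⊆ {z : P | 0 ≤ o e.1 e.2 z} :=
    convexHull_min (fun p hp => h.inside e he p hp) (convex_o_nonneg _ _)
  exact this hz

theorem CovH.edge_ne (h : CovH S F p₀ L) : ∀ e ∈ pairs (p₀ :: (L ++ [p₀])), e.1 ≠ e.2 := by
  have hnd : ∀ a ∈ L, a ≠ p₀ := by
    intro a ha e
    have hlen := h.len
    obtain ⟨b, hb, hab⟩ : ∃ b ∈ L, 0 < o p₀ a b ∨ 0 < o p₀ b a := by
      by_contra hcon
      push Not at hcon
      have hs := h.sorted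
      match L, hs, ha, hlen, hcon with
      | (x :: y :: T), hs, ha, _, hcon =>
        have hs' := List.pairwise_cons.1 hs
        rcases List.mem_cons.1 ha with rfl | ha'
        · have := hs'.1 y (by simp)
          have := (hcon y (by simp)).1
          linarith
        · have := hs'.1 a ha'
          have := (hcon x (by simp)).2
          linarith
    rcases hab with hab | hab
    · rw [e, o_self12] at hab; exact lt_irrefl _ hab
    · rw [e, o_self13] at hab; exact lt_irrefl _ hab
  intro e he
  have hlen := h.len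
  match L, hlen, h.sorted, hnd, he with
  | (x :: T), hlen, hs, hnd, he =>
    show e.1 ≠ e.2
    have e0 : p₀ :: (x :: T ++ [p₀]) = p₀ :: x :: (T ++ [p₀]) := rfl
    rw [e0, pairs_cons] at he
    rcases List.mem_cons.1 he with rfl | he
    · exact Ne.symm (hnd x (by simp))
    · have hT : (x :: T) ≠ [] := by simp
      obtain ⟨U, a, hU⟩ : ∃ U a, x :: T = U ++ [a] :=
        ⟨(x :: T).dropLast, (x :: T).getLast hT, (List.dropLast_append_getLast hT).symm⟩
      have e2 : x :: (T ++ [p₀]) = U ++ a :: [p₀] := by
        have : x :: (T ++ [p₀]) = (x :: T) ++ [p₀] := rfl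
        rw [this, hU]; simp
      rw [e2, pairs_append] at he
      rcases List.mem_append.1 he with he | he
      · rw [← hU] at he
        have := pairs_pairwise hs e he
        intro e3
        rw [e3, o_self23] at this
        exact lt_irrefl _ this
      · simp only [pairs_cons, pairs_one, List.mem_singleton] at he
        rw [he]
        exact hnd a (by rw [hU]; simp)

theorem CovH.union (h : CovH S F p₀ L) :
    (⋃ t ∈ tset F, convexHull ℝ (t : Set P)) = convexHull ℝ (S : Set P) := by
  apply Set.Subset.antisymm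
  · intro z hz
    simp only [Set.mem_iUnion] at hz
    obtain ⟨t, ht, hz⟩ := hz
    obtain ⟨f, hf, rfl⟩ := mem_tset.1 ht
    refine convexHull_mono ?_ hz
    rw [coe_fs]
    obtain ⟨m1, m2, m3⟩ := h.mem f hf
    intro p hp
    rcases hp with rfl | rfl | rfl
    · exact m1
    · exact m2
    · exact m3
  · have hcl : IsClosed (⋃ t ∈ tset F, convexHull ℝ (t : Set P)) := by
      apply Set.Finite.isClosed_biUnion (tset F).finite_toSet
      intro t _
      exact (t.finite_toSet.isCompact_convexHull ℝ).isClosed
    have h1 : interior (convexHull ℝ (S : Set P)) ∩ Gen S ⊆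
        ⋃ t ∈ tset F, convexHull ℝ (t : Set P) := by
      rintro z ⟨hz, hzG⟩
      obtain ⟨f, hf, hzf⟩ := h.cover hzG (by
        intro e he
        obtain ⟨z', hz', hlt⟩ := exists_lt_near (h.edge_ne e he) isOpen_interior hz
        have := h.mem_closed (interior_subset hz') e he
        linarith)
      simp only [Set.mem_iUnion]
      refine ⟨fs f, mem_tset.2 ⟨f, hf, rfl⟩, ?_⟩
      rw [coe_fs, hull_eq_cls (h.pos f hf)]
      exact opn_sub_cls _ _ _ hzf
    have h2 : interior (convexHull ℝ (S : Set P)) ⊆
        closure (interior (convexHull ℝ (S : Set P)) ∩ Gen S) :=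
      (dense_Gen S).open_subset_closure_inter isOpen_interior
    have hlen := h.len
    have hne : (interior (convexHull ℝ (S : Set P))).Nonempty := by
      match L, hlen, h.sorted, h.hL with
      | (x :: y :: T), _, hs, hLS =>
        have hpos : 0 < o p₀ x y := (List.pairwise_cons.1 hs).1 y (by simp)
        have hsub : convexHull ℝ ({p₀, x, y} : Set P) ⊆ convexHull ℝ (S : Set P) := by
          apply convexHull_mono
          intro p hp
          rcases hp with rfl | rfl | rfl
          · exact h.hp
          · exact hLS _ (by simp)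
          · exact hLS _ (by simp)
        have hint := interior_mono hsub
        rw [interior_hull_eq hpos] at hint
        have hcen : (((1/3 : ℝ) * (p₀.1 + x.1 + y.1), (1/3 : ℝ) * (p₀.2 + x.2 + y.2)) : P) ∈
            opn p₀ x y := by
          refine ⟨?_, ?_, ?_⟩
          · have : o p₀ x ((1/3 : ℝ) * (p₀.1 + x.1 + y.1), (1/3 : ℝ) * (p₀.2 + x.2 + y.2)) =
                o p₀ x y / 3 := by unfold o; ring
            rw [this]; positivity
          · have : o x y ((1/3 : ℝ) * (p₀.1 + x.1 + y.1), (1/3 : ℝ) * (p₀.2 + x.2 + y.2)) =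
                o p₀ x y / 3 := by unfold o; ring
            rw [this]; positivity
          · have : o y p₀ ((1/3 : ℝ) * (p₀.1 + x.1 + y.1), (1/3 : ℝ) * (p₀.2 + x.2 + y.2)) =
                o p₀ x y / 3 := by unfold o; ring
            rw [this]; positivity
        exact ⟨_, hint hcen⟩
    have h3 : closure (interior (convexHull ℝ (S : Set P))) = closure (convexHull ℝ (S : Set P)) :=
      (convex_convexHull ℝ _).closure_interior_eq_closure_of_nonempty_interior hne
    have h4 : closure (interior (convexHull ℝ (S : Set P))) ⊆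
        closure (interior (convexHull ℝ (S : Set P)) ∩ Gen S) := closure_minimal h2 isClosed_closure
    rw [h3] at h4
    exact subset_closure.trans (h4.trans (closure_minimal h1 hcl))

theorem CovH.interiors (h : CovH S F p₀ L) : ∀ t ∈ tset F, ∀ t' ∈ tset F, t ≠ t' →
    interior (convexHull ℝ (t : Set P)) ∩ interior (convexHull ℝ (t' : Set P)) = ∅ := by
  intro t ht t' ht' hne
  obtain ⟨f, hf, rfl⟩ := mem_tset.1 ht
  obtain ⟨f', hf', rfl⟩ := mem_tset.1 ht'
  rw [coe_fs, coe_fs, interior_hull_eq (h.pos f hf), interior_hull_eq (h.pos f' hf')]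
  apply h.disj hf hf'
  rintro rfl
  exact hne rfl

theorem CovH.empty (h : CovH S F p₀ L)
    (used : ∀ p ∈ S, ∃ f ∈ F, p = f.1 ∨ p = f.2.1 ∨ p = f.2.2) :
    ∀ t ∈ tset F, t ⊆ S ∧ t.card = 3 ∧ ∀ p ∈ S, p ∈ convexHull ℝ (t : Set P) → p ∈ t := by
  intro t ht
  obtain ⟨f, hf, rfl⟩ := mem_tset.1 ht
  obtain ⟨m1, m2, m3⟩ := h.mem f hf
  obtain ⟨n1, n2, n3⟩ := ne_of_pos (h.pos f hf)
  refine ⟨?_, ?_, ?_⟩
  · intro p hp
    unfold fs at hp
    simp only [Finset.mem_insert, Finset.mem_singleton] at hp
    rcases hp with rfl | rfl | rfl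
    · exact m1
    · exact m2
    · exact m3
  · unfold fs
    rw [Finset.card_insert_of_notMem, Finset.card_insert_of_notMem, Finset.card_singleton]
    · simpa using n2
    · simp only [Finset.mem_insert, Finset.mem_singleton, not_or]
      exact ⟨n1, Ne.symm n3⟩
  · intro p hp hpc
    by_contra hpt
    rw [coe_fs, hull_eq_cls (h.pos f hf)] at hpc
    unfold fs at hpt
    simp only [Finset.mem_insert, Finset.mem_singleton, not_or] at hpt
    obtain ⟨e1, e2, e3⟩ := hpt
    have hp1 : p ∈ opn f.1 f.2.1 f.2.2 := by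
      refine ⟨lt_of_le_of_ne hpc.1 (Ne.symm ?_), lt_of_le_of_ne hpc.2.1 (Ne.symm ?_),
        lt_of_le_of_ne hpc.2.2 (Ne.symm ?_)⟩
      · exact h.gp _ m1 _ m2 _ hp n1 (Ne.symm e1) (Ne.symm e2)
      · exact h.gp _ m2 _ m3 _ hp n2 (Ne.symm e2) (Ne.symm e3)
      · exact h.gp _ m3 _ m1 _ hp n3 (Ne.symm e3) (Ne.symm e1)
    obtain ⟨f', hf', hpf'⟩ := used p hp
    have hne : f ≠ f' := by
      rintro rfl
      rcases hpf' with h' | h' | h'
      · exact e1 h'
      · exact e2 h'
      · exact e3 h'
    have hcl : p ∈ closure (opn f'.1 f'.2.1 f'.2.2) := by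
      apply cls_sub_closure_opn (h.pos f' hf')
      rw [← hull_eq_cls (h.pos f' hf')]
      apply subset_convexHull
      rcases hpf' with h' | h' | h' <;> rw [h'] <;> simp
    obtain ⟨z, hz1, hz2⟩ := mem_closure_iff.1 hcl _ (isOpen_opn _ _ _) hp1
    have := h.disj hf hf' hne
    have hz : z ∈ opn f.1 f.2.1 f.2.2 ∩ opn f'.1 f'.2.1 f'.2.2 := ⟨hz1, hz2⟩
    rw [this] at hz
    exact hz

end Pool.Agent.Helper111_GDC
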