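import Pool.Agent.Helper111_GDC.Poly

set_option autoImplicit false

/-!
The cyclic list of hull vertices, and convex chains.
-/

namespace Pool.Agent.Helper111_GDC

open Pool.Agent.Helper111_Chain

theorem Trip.sub {α : Type*} {R : α → α → α → Prop} : ∀ {l l' : List α}, l'.Sublist l →
    Trip R l → Trip R l' := by
  intro l l' h
  induction h with
  | slnil => intro _; trivial
  | cons a _ ih => intro h; exact ih h.2
  | cons_cons a hs ih => intro h; exact ⟨h.1.sublist hs, ih h.2⟩

theorem Trip.three {α : Type*} {R : α → α → α → Prop} {l : List α} {a b c : α}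
    (h : Trip R l) (hs : [a, b, c].Sublist l) : R a b c := by
  have := Trip.sub hs h
  have h1 := this.1
  simp only [List.pairwise_cons, List.mem_singleton, forall_eq] at h1
  exact h1.1

theorem trip_pairs {α : Type*} {R : α → α → α → Prop} : ∀ {l : List α}, Trip R l →
    ∀ e ∈ pairs l, ∀ z ∈ l, z = e.1 ∨ z = e.2 ∨ R z e.1 e.2 ∨ R e.1 e.2 z
  | [], _, e, he, _, _ => by simp at he
  | [_], _, e, he, _, _ => by simp at he
  | (x :: y :: l), h, e, he, z, hz => by
    rw [pairs_cons] at he
    rcases List.mem_cons.1 he with he2 | he2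
    · subst he2
      rcases List.mem_cons.1 hz with rfl | hz
      · exact Or.inl rfl
      · rcases List.mem_cons.1 hz with rfl | hz
        · exact Or.inr (Or.inl rfl)
        · exact Or.inr (Or.inr (Or.inr ((List.pairwise_cons.1 h.1).1 z hz)))
    · rcases List.mem_cons.1 hz with rfl | hz
      · exact Or.inr (Or.inr (Or.inl (pairs_pairwise h.1 e he2)))
      · exact trip_pairs h.2 e he2 z hz

theorem trip_snoc {α : Type*} {R : α → α → α → Prop} {x : α} : ∀ {l : List α}, Trip R l →
    l.Pairwise (fun a b => R a b x) → Trip R (l ++ [x])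
  | [], _, _ => ⟨by simp, trivial⟩
  | (u :: l), h, hp => by
    have hp' := List.pairwise_cons.1 hp
    refine ⟨?_, trip_snoc h.2 hp'.2⟩
    show (l ++ [x]).Pairwise (R u)
    rw [List.pairwise_append]
    refine ⟨h.1, by simp, ?_⟩
    intro a ha b hb
    rw [List.mem_singleton.1 hb]
    exact hp'.1 a ha

theorem trip_reverse {α : Type*} {R : α → α → α → Prop} : ∀ {l : List α},
    Trip (fun a b c => R c b a) l → Trip R l.reverse
  | [], _ => trivial
  | (u :: l), h => by
    rw [List.reverse_cons]
    refine trip_snoc (trip_reverse h.2) ?_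
    rw [List.pairwise_reverse]
    exact h.1

theorem pairs_reverse {α : Type*} : ∀ {l : List α} {e : α × α}, e ∈ pairs l.reverse →
    (e.2, e.1) ∈ pairs l
  | [], e, he => by simp at he
  | [_], e, he => by simp at he
  | (x :: y :: l), e, he => by
    have h1 : (x :: y :: l).reverse = (l.reverse ++ [y]) ++ [x] := by simp
    rw [h1, pairs_snoc] at he
    rw [pairs_cons]
    rcases List.mem_append.1 he with he | he
    · have h2 : l.reverse ++ [y] = (y :: l).reverse := by simp
      rw [h2] at he
      exact List.mem_cons_of_mem _ (pairs_reverse he)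
    · rw [List.mem_singleton.1 he]
      simp

theorem exists_dirP (S : Finset P) (b : P) (hb : b ∈ hv S) :
    ∃ u : P, ∀ q ∈ S, q ≠ b → 0 < o b u q := by
  have hfin : ((S : Set P) \ {b}).Finite := S.finite_toSet.subset Set.sdiff_subset
  obtain ⟨f, c, h1, h2⟩ := geometric_hahn_banach_point_closed (convex_convexHull ℝ _)
    (hfin.isCompact_convexHull ℝ).isClosed hb.2
  refine ⟨(b.1 + f (0, 1), b.2 - f (1, 0)), ?_⟩
  intro q hq hqb
  have h3 := h2 q (subset_convexHull ℝ _ ⟨hq, by simpa using hqb⟩)
  have h4 : ∀ r : P, f r = r.1 * f (1, 0) + r.2 * f (0, 1) := by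
    intro r
    have : r = r.1 • ((1, 0) : P) + r.2 • ((0, 1) : P) := by
      apply Prod.ext <;> simp
    conv_lhs => rw [this]
    rw [map_add, map_smul, map_smul]
    simp
  have h5 := h4 q
  have h6 := h4 b
  unfold o
  simp only
  nlinarith

theorem not_in_tri {S : Finset P} {b x y z : P} (hb : b ∈ S) (hx : x ∈ S) (hy : y ∈ hv S)
    (hz : z ∈ S) (hbx : 0 < o b x y) (hyz : 0 < o b y z) (hxz : 0 < o b x z) :
    0 ≤ o x y z := by
  by_contra hc
  push Not at hc
  apply hy.2
  have hmem : y ∈ convexHull ℝ ({b, x, z} : Set P) := by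
    rw [hull_eq_cls hxz]
    refine ⟨hbx.le, ?_, ?_⟩
    · have : o x z y = - o x y z := o_swap23 _ _ _
      linarith
    · have : o z b y = o b y z := by unfold o; ring
      linarith
  refine convexHull_mono ?_ hmem
  obtain ⟨n1, n2, n3⟩ := ne_of_pos hbx
  obtain ⟨n4, n5, n6⟩ := ne_of_pos hyz
  intro q hq
  rcases hq with rfl | rfl | rfl
  · exact ⟨hb, by simpa using n4⟩
  · exact ⟨hx, by simpa using n2⟩
  · exact ⟨hz, by simpa using Ne.symm n5⟩

theorem trip_of_ext {S : Finset P}
    (gp : ∀ p ∈ S, ∀ q ∈ S, ∀ r ∈ S, p ≠ q → p ≠ r → q ≠ r → o p q r ≠ 0) {b : P} (hb : b ∈ S) :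
    ∀ L : List P, L.Pairwise (fun x y => 0 < o b x y) → (∀ x ∈ L, x ∈ hv S) → L.Nodup →
      Trip (fun x y z => 0 < o x y z) L
  | [], _, _, _ => trivial
  | (x :: T), hp, hS, hn => by
    have hp' := List.pairwise_cons.1 hp
    rw [List.nodup_cons] at hn
    refine ⟨?_, trip_of_ext gp hb T hp'.2 (fun y hy => hS y (List.mem_cons_of_mem _ hy)) hn.2⟩
    have h2 := List.Pairwise.and_mem.1 (hp'.2.and hn.2)
    refine h2.imp ?_
    rintro y z ⟨hy, hz, hyz, hne⟩
    have hyS := hS y (List.mem_cons_of_mem _ hy)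
    have hzS := hS z (List.mem_cons_of_mem _ hz)
    have hxS := hS x (by simp)
    have h3 := not_in_tri hb hxS.1 hyS hzS.1 (hp'.1 y hy) hyz (hp'.1 z hz)
    refine lt_of_le_of_ne h3 (Ne.symm ?_)
    apply gp _ hxS.1 _ hyS.1 _ hzS.1 _ _ hne
    · rintro rfl; exact hn.1 hy
    · rintro rfl; exact hn.1 hz

/-- The cyclic list of hull vertices, starting from `b`. -/
theorem hull_list (S : Finset P)
    (gp : ∀ p ∈ S, ∀ q ∈ S, ∀ r ∈ S, p ≠ q → p ≠ r → q ≠ r → o p q r ≠ 0) (b : P)
    (hb : b ∈ hv S) :
    ∃ L : List P, (b :: L).Nodup ∧ (∀ q, q ∈ b :: L ↔ q ∈ hv S) ∧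
      Trip (fun x y z => 0 < o x y z) (b :: L) ∧
      (∀ e ∈ pairs (b :: (L ++ [b])), ∀ z ∈ S, 0 ≤ o e.1 e.2 z) := by
  classical
  obtain ⟨u, hu⟩ := exists_dirP S b hb
  have hfin : (hv S).Finite := S.finite_toSet.subset (hv_sub S)
  obtain ⟨L, hn, hm, hp⟩ := exists_sorted b u (hfin.toFinset.erase b).card (hfin.toFinset.erase b)
    rfl (by
      intro x hx
      rw [Finset.mem_erase, Set.Finite.mem_toFinset] at hx
      exact hu x hx.2.1 hx.1) (by
      intro x hx y hy hxy
      rw [Finset.mem_erase, Set.Finite.mem_toFinset] at hx hy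
      exact gp _ hb.1 _ hx.2.1 _ hy.2.1 (Ne.symm hx.1) (Ne.symm hy.1) hxy)
  have hmL : ∀ q, q ∈ L ↔ q ≠ b ∧ q ∈ hv S := by
    intro q
    rw [hm q, Finset.mem_erase, Set.Finite.mem_toFinset]
  have hnb : (b :: L).Nodup := by
    rw [List.nodup_cons]
    exact ⟨fun h => ((hmL b).1 h).1 rfl, hn⟩
  have hmem : ∀ q, q ∈ b :: L ↔ q ∈ hv S := by
    intro q
    rw [List.mem_cons, hmL]
    constructor
    · rintro (rfl | h)
      · exact hb
      · exact h.2
    · intro h
      by_cases e : q = b
      · exact Or.inl e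
      · exact Or.inr ⟨e, h⟩
  have htrip : Trip (fun x y z => 0 < o x y z) (b :: L) :=
    ⟨hp, trip_of_ext gp hb.1 L hp (fun x hx => ((hmL x).1 hx).2) hn⟩
  refine ⟨L, hnb, hmem, htrip, ?_⟩
  intro e he z hz
  have hconv : convexHull ℝ (hv S) ⊆ {z : P | 0 ≤ o e.1 e.2 z} := by
    refine convexHull_min ?_ (convex_o_nonneg _ _)
    intro q hq
    have hq' := (hmem q).2 hq
    show 0 ≤ o e.1 e.2 q
    rcases List.eq_nil_or_concat L with h | ⟨T, a, h⟩
    · rw [h] at he
      simp only [List.nil_append, pairs_cons, pairs_one, List.mem_singleton] at he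
      rw [he, o_self12]
    · rw [List.concat_eq_append] at h
      have e1 : b :: (L ++ [b]) = ((b :: T) ++ [a]) ++ [b] := by rw [h]; simp
      rw [e1, pairs_snoc] at he
      rcases List.mem_append.1 he with he | he
      · have e2 : (b :: T) ++ [a] = b :: L := by rw [h]; simp
        rw [e2] at he
        rcases trip_pairs htrip e he q hq' with h | h | h | h
        · rw [h, o_self13]
        · rw [h, o_self23]
        · rw [o_cyc q e.1 e.2]; exact h.le
        · exact h.le
      · rw [List.mem_singleton] at he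
        rw [he]
        show 0 ≤ o a b q
        rcases List.mem_cons.1 hq' with rfl | hq'
        · rw [o_self23]
        · rw [h, List.mem_append] at hq'
          rcases hq' with hq' | hq'
          · rw [h] at hp
            have := (List.pairwise_append.1 hp).2.2 q hq' a (by simp)
            rw [o_cyc'] at this
            have e3 : o a b q = o b q a := by unfold o; ring
            rw [e3]
            unfold o at *; linarith
          · rw [List.mem_singleton.1 hq', o_self13]
  rw [conv_hv] at hconv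
  exact hconv (subset_convexHull ℝ _ hz)

/-- The inner convex chain of a set on one side of one of its hull edges. -/
theorem raw_chain (T : Finset P)
    (gp : ∀ p ∈ T, ∀ q ∈ T, ∀ r ∈ T, p ≠ q → p ≠ r → q ≠ r → o p q r ≠ 0) (a b : P)
    (ha : a ∈ hv T) (hb : b ∈ hv T) (hab : a ≠ b)
    (hside : ∀ z ∈ T, z ≠ a → z ≠ b → 0 < o a b z) :
    ∃ D : List P, (a :: (D ++ [b])).Nodup ∧ (∀ z ∈ D, z ∈ T) ∧
      Trip (fun x y z => o x y z < 0) (a :: (D ++ [b])) ∧
      ∀ e ∈ pairs (a :: (D ++ [b])), ∀ z ∈ T, z ∉ a :: (D ++ [b]) → o e.1 e.2 z < 0 := by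
  obtain ⟨L, hn, hm, ht, hi⟩ := hull_list T gp b hb
  have haL : a ∈ L := by
    rcases List.mem_cons.1 ((hm a).2 ha) with h | h
    · exact absurd h hab
    · exact h
  rcases List.eq_nil_or_concat L with h | ⟨L', l, h⟩
  · rw [h] at haL
    simp at haL
  rw [List.concat_eq_append] at h
  have hl : l = a := by
    by_contra hne
    rw [h, List.mem_append, List.mem_singleton] at haL
    rcases haL with haL | haL
    · have h1 := ht.1
      rw [h] at h1
      have h2 := (List.pairwise_append.1 h1).2.2 a haL l (by simp)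
      have hlT : l ∈ T := ((hm l).1 (by rw [h]; simp)).1
      have hlb : l ≠ b := by
        rintro rfl
        rw [List.nodup_cons] at hn
        exact hn.1 (by rw [h]; simp)
      have h3 := hside l hlT hne hlb
      rw [o_swap12] at h3
      linarith
    · exact hne haL.symm
  subst hl
  have hrev : (b :: L).reverse = l :: (L'.reverse ++ [b]) := by rw [h]; simp
  refine ⟨L'.reverse, ?_, ?_, ?_, ?_⟩
  · rw [← hrev]
    exact List.nodup_reverse.2 hn
  · intro z hz
    rw [List.mem_reverse] at hz
    exact ((hm z).1 (by rw [h]; simp [hz])).1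
  · rw [← hrev]
    apply trip_reverse
    have : ∀ {m : List P}, Trip (fun x y z => 0 < o x y z) m →
        Trip (fun x y z => o z y x < 0) m := by
      intro m
      induction m with
      | nil => intro _; trivial
      | cons u m ih =>
        intro hm
        refine ⟨hm.1.imp ?_, ih hm.2⟩
        intro x y hxy
        show o y x u < 0
        have e1 : o y x u = - o u x y := o_swap13 _ _ _
        have e2 : 0 < o u x y := hxy
        linarith
    exact this ht
  · intro e he z hz hzn
    rw [← hrev] at he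
    have he' := pairs_reverse he
    have hmem' := mem_of_pairs he'
    have he2 : (e.2, e.1) ∈ pairs (b :: (L ++ [b])) := by
      have e1 : b :: (L ++ [b]) = ((b :: L') ++ [l]) ++ [b] := by rw [h]; simp
      rw [e1, pairs_snoc]
      apply List.mem_append_left
      have e2 : (b :: L') ++ [l] = b :: L := by rw [h]; simp
      rw [e2]
      exact he'
    have h1 := hi _ he2 z hz
    have m1 : e.2 ∈ T := ((hm _).1 hmem'.1).1
    have m2 : e.1 ∈ T := ((hm _).1 hmem'.2).1
    have hne12 : e.2 ≠ e.1 := pairs_pairwise hn _ he'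
    rw [← hrev] at hzn
    have hz1 : e.2 ≠ z := by
      rintro h'
      apply hzn
      rw [List.mem_reverse, ← h']
      exact hmem'.1
    have hz2 : e.1 ≠ z := by
      rintro h'
      apply hzn
      rw [List.mem_reverse, ← h']
      exact hmem'.2
    have h2 : o e.2 e.1 z ≠ 0 := gp _ m1 _ m2 _ hz hne12 hz1 hz2
    have h3 : 0 < o e.2 e.1 z := lt_of_le_of_ne h1 (Ne.symm h2)
    rw [o_swap12]; linarith

end Pool.Agent.Helper111_GDC
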