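import Pool.Agent.Helper111_GDC.Final

set_option autoImplicit false

/-!
Main theorem: a generalised double circle is compatible with every point set.
-/

namespace Pool.Agent.Helper111_GDC

open Pool.Agent.Helper111_Chain

theorem HData.cov {S : Finset P} {h : ℕ} {p : ℕ → P} (H : HData S h p)
    {F : List (P × P × P)} (hmem : ∀ f ∈ F, f.1 ∈ S ∧ f.2.1 ∈ S ∧ f.2.2 ∈ S)
    (hpos : ∀ f ∈ F, 0 < o f.1 f.2.1 f.2.2)
    (hbd : ∀ w : P → P → ℝ, (∀ u v, w v u = - w u v) →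
      bds w F = ∑ i ∈ Finset.range h, w (p i) (p (i + 1))) :
    CovH S F (p 0) ((List.range' 1 (h - 1)).map p) := by
  have hh := H.h3
  refine ⟨H.gp, hmem, hpos, ?_, H.pS 0 (by omega), ?_, ?_, ?_, ?_⟩
  · intro w hw
    rw [hbd w hw, hull_path w p (by omega) H.clo]
  · intro q hq
    obtain ⟨i, hi, rfl⟩ := List.mem_map.1 hq
    rw [List.mem_range'_1] at hi
    exact H.pS i (by omega)
  · simp only [List.length_map, List.length_range']
    omega
  · rw [List.pairwise_map]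
    have h1 : (List.range' 1 (h - 1)).Pairwise (· < ·) := List.pairwise_lt_range'
    refine (List.Pairwise.and_mem.1 h1).imp ?_
    rintro a b ⟨ha, hb, hab⟩
    rw [List.mem_range'_1] at ha hb
    exact H.tri 0 a b (by omega) hab (by omega)
  · intro e he q hq
    rw [hull_pairs p (by omega) H.clo] at he
    obtain ⟨i, hi, rfl⟩ := he
    exact H.ell_nonneg hi hq

theorem cycInc_map {α β : Type*} (f : α → β) {W : List α} {t : α × α × α} (h : CycInc W t) :
    CycInc (W.map f) (f t.1, f t.2.1, f t.2.2) := by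
  obtain ⟨W', hW, hs⟩ := h
  exact ⟨W'.map f, hW.map f, hs.map f⟩

theorem gdc_main {h : ℕ} {p : ℕ → P} {ty : ℕ → Ty} {E : ℕ → List P} (g : GDC h p ty E)
    (S₁ S₂ : Finset P) (hS₁ : ∀ z, z ∈ S₁ ↔ z ∈ Wl p E h) (hcard : S₂.card = S₁.card)
    (gp₂ : ∀ p ∈ S₂, ∀ q ∈ S₂, ∀ r ∈ S₂, p ≠ q → p ≠ r → q ≠ r → o p q r ≠ 0)
    (hhull : (hv S₂).ncard = (hv S₁).ncard) (b : P) (hb : b ∈ hv S₂) :
    ∃ T₁ T₂ : Finset (Finset (ℝ × ℝ)),
      (∀ t ∈ T₁, t ⊆ S₁ ∧ t.card = 3 ∧
          ∀ p ∈ S₁, p ∈ convexHull ℝ (t : Set (ℝ × ℝ)) → p ∈ t) ∧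
      (∀ t ∈ T₁, ∀ t' ∈ T₁, t ≠ t' →
          interior (convexHull ℝ (t : Set (ℝ × ℝ))) ∩
            interior (convexHull ℝ (t' : Set (ℝ × ℝ))) = ∅) ∧
      (⋃ t ∈ T₁, convexHull ℝ (t : Set (ℝ × ℝ))) = convexHull ℝ (S₁ : Set (ℝ × ℝ)) ∧
      (∀ t ∈ T₂, t ⊆ S₂ ∧ t.card = 3 ∧
          ∀ p ∈ S₂, p ∈ convexHull ℝ (t : Set (ℝ × ℝ)) → p ∈ t) ∧
      (∀ t ∈ T₂, ∀ t' ∈ T₂, t ≠ t' →
          interior (convexHull ℝ (t : Set (ℝ × ℝ))) ∩
            interior (convexHull ℝ (t' : Set (ℝ × ℝ))) = ∅) ∧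
      (⋃ t ∈ T₂, convexHull ℝ (t : Set (ℝ × ℝ))) = convexHull ℝ (S₂ : Set (ℝ × ℝ)) ∧
      ∃ φ : ℝ × ℝ → ℝ × ℝ, Set.BijOn φ (S₁ : Set (ℝ × ℝ)) (S₂ : Set (ℝ × ℝ)) ∧
        (∀ t : Finset (ℝ × ℝ), t ⊆ S₁ → (t ∈ T₁ ↔ t.image φ ∈ T₂)) ∧
        (∀ a b c : ℝ × ℝ, ({a, b, c} : Finset (ℝ × ℝ)) ∈ T₁ → 0 < o a b c →
          0 < o (φ a) (φ b) (φ c)) ∧ φ (p 0) = b := by
  classical
  have h3 := g.three
  have hn1 := g.ncard hS₁
  obtain ⟨q, Hq, hq0⟩ := exists_hdata S₂ gp₂ h h3 (hhull.trans hn1) b hb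
  have hc1 : S₁.card = (Wl p E h).length := by
    rw [← List.toFinset_card_of_nodup g.nodup]
    congr 1
    ext z
    rw [hS₁, List.mem_toFinset]
  obtain ⟨Y, A, hYc⟩ := exists_assign Hq (fun i => (E i).length) (by
    rw [hcard, hc1, Wl_len])
  obtain ⟨D, F, G, s, hfull⟩ := A.exists_final ty
  -- the chains of `S₂` have the right lengths
  have hDlen : ∀ i < h, (D i).length = (E i).length := by
    intro i hi
    rw [← hYc i hi, ← List.toFinset_card_of_nodup (s.nd i hi)]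
    congr 1
    ext z
    rw [List.mem_toFinset]
    exact ⟨fun hz => s.EY i hi z hz, fun hz => hfull i hi z hz⟩
  have hW2S : ∀ z, z ∈ Wl q D h ↔ z ∈ S₂ := by
    intro z
    constructor
    · exact s.wlS
    · intro hz
      rw [mem_Wl]
      rcases A.all z hz with ⟨i, hi, h1⟩ | ⟨i, hi, h1⟩
      · exact ⟨i, hi, Or.inl h1⟩
      · exact ⟨i, hi, Or.inr (hfull i hi z h1)⟩
  have hW2n : (Wl q D h).Nodup := A.wl_nodup s.nd s.EY h le_rfl
  have hlen : (Wl q D h).length = (Wl p E h).length := by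
    rw [Wl_len, Wl_len]
    congr 1
    exact Finset.sum_congr rfl (fun i hi => hDlen i (Finset.mem_range.1 hi))
  obtain ⟨f, hf⟩ := exists_map_eq (α := P) (β := P) hW2n hlen
  have hcomp : ∀ i < h, f (q i) = p i ∧ (D i).map f = E i := by
    rw [Wl_map] at hf
    exact Wl_inj h (fun i hi => by rw [List.length_map]; exact hDlen i hi) hf
  have hfq : ∀ i ≤ h, f (q i) = p i := by
    intro i hi
    rcases Nat.lt_or_ge i h with h1 | h1
    · exact (hcomp i h1).1
    · have : i = h := by omega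
      rw [this, Hq.clo, g.close]
      exact (hcomp 0 (by omega)).1
  have hLc : ∀ i < h, (Lc q D i).map f = Lc p E i := by
    intro i hi
    unfold Lc
    rw [List.map_cons, List.map_append, List.map_cons, List.map_nil, (hcomp i hi).2,
      hfq i (by omega), hfq (i + 1) (by omega)]
  have hinj : ∀ a ∈ Wl q D h, ∀ c ∈ Wl q D h, f a = f c → a = c := by
    have hn : ((Wl q D h).map f).Nodup := by rw [hf]; exact g.nodup
    intro a ha c hc e
    exact List.inj_on_of_nodup_map hn ha hc e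
  have hLW : ∀ i < h, ∀ z ∈ Lc q D i, z ∈ Wl q D h := fun i hi z hz =>
    lc_sub_wl hi Hq.clo (by omega) hz
  have hback : ∀ i < h, ∀ a ∈ Wl q D h, f a ∈ Lc p E i → a ∈ Lc q D i := by
    intro i hi a ha hfa
    rw [← hLc i hi] at hfa
    obtain ⟨c, hc, hce⟩ := List.mem_map.1 hfa
    rw [← hinj c (hLW i hi c hc) a ha hce]
    exact hc
  have hqW : ∀ i ≤ h, q i ∈ Wl q D h := fun i hi => (hW2S _).2 (Hq.pS i hi)
  have hty : ∀ i < h, ∀ a ∈ Wl q D h, ∀ c ∈ Wl q D h, ∀ d ∈ Wl q D h,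
      TyRev (ty i) (p i) (p (i + 1)) (f a) (f c) (f d) → TyRev (ty i) (q i) (q (i + 1)) a c d := by
    intro i hi a ha c hc d hd hr
    rw [← hfq i (by omega), ← hfq (i + 1) (by omega)] at hr
    cases hti : ty i with
    | concave => trivial
    | fanL =>
      rw [hti] at hr
      rcases hr with h | h | h
      · exact Or.inl (hinj _ ha _ (hqW i (by omega)) h)
      · exact Or.inr (Or.inl (hinj _ hc _ (hqW i (by omega)) h))
      · exact Or.inr (Or.inr (hinj _ hd _ (hqW i (by omega)) h))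
    | fanR =>
      rw [hti] at hr
      rcases hr with h | h | h
      · exact Or.inl (hinj _ ha _ (hqW (i + 1) (by omega)) h)
      · exact Or.inr (Or.inl (hinj _ hc _ (hqW (i + 1) (by omega)) h))
      · exact Or.inr (Or.inr (hinj _ hd _ (hqW (i + 1) (by omega)) h))
  have hty' : ∀ i < h, ∀ a c d, TyRev (ty i) (q i) (q (i + 1)) a c d →
      TyRev (ty i) (p i) (p (i + 1)) (f a) (f c) (f d) := by
    intro i hi a c d hr
    rw [← hfq i (by omega), ← hfq (i + 1) (by omega)]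
    cases hti : ty i with
    | concave => trivial
    | fanL =>
      rw [hti] at hr
      rcases hr with h | h | h
      · exact Or.inl (by rw [h])
      · exact Or.inr (Or.inl (by rw [h]))
      · exact Or.inr (Or.inr (by rw [h]))
    | fanR =>
      rw [hti] at hr
      rcases hr with h | h | h
      · exact Or.inl (by rw [h])
      · exact Or.inr (Or.inl (by rw [h]))
      · exact Or.inr (Or.inr (by rw [h]))
  have hcov2 := s.cov
  set FT := F ++ Gl G h with hFT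
  have hmemW : ∀ t ∈ FT, t.1 ∈ Wl q D h ∧ t.2.1 ∈ Wl q D h ∧ t.2.2 ∈ Wl q D h := by
    intro t ht
    obtain ⟨m1, m2, m3⟩ := hcov2.mem t ht
    exact ⟨(hW2S _).2 m1, (hW2S _).2 m2, (hW2S _).2 m3⟩
  have hfS1 : ∀ z ∈ Wl q D h, f z ∈ S₁ := by
    intro z hz
    rw [hS₁, ← hf]
    exact List.mem_map_of_mem hz
  have hcov1 : CovH S₁ (FT.map (mp f)) (p 0) ((List.range' 1 (h - 1)).map p) := by
    refine (g.hdata hS₁).cov ?_ ?_ ?_
    · intro t ht
      obtain ⟨t0, ht0, rfl⟩ := List.mem_map.1 ht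
      obtain ⟨m1, m2, m3⟩ := hmemW t0 ht0
      exact ⟨hfS1 _ m1, hfS1 _ m2, hfS1 _ m3⟩
    · intro t ht
      obtain ⟨t0, ht0, rfl⟩ := List.mem_map.1 ht
      obtain ⟨m1, m2, m3⟩ := hmemW t0 ht0
      rcases List.mem_append.1 ht0 with ht0 | ht0
      · have hc := cycInc_map f (s.fcyc t0 ht0)
        rw [hf] at hc
        refine g.cpos hc ?_
        rintro ⟨i, hi, ⟨r1, r2, r3⟩, r4⟩
        exact s.fmix t0 ht0 i hi ⟨⟨hback i hi _ m1 r1, hback i hi _ m2 r2, hback i hi _ m3 r3⟩,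
          hty i hi _ m1 _ m2 _ m3 r4⟩
      · obtain ⟨i, hi, ht0⟩ := mem_Gl.1 ht0
        have hc := cycInc_map f (s.gcyc i hi t0 ht0)
        rw [hLc i hi] at hc
        obtain ⟨R, hR⟩ := Wl_rot (p := p) (E := E) (by omega) g.close hi
        have hrot := hR E (fun _ _ => rfl)
        have hc2 : CycInc (Wl p E h) (f (sw t0).1, f (sw t0).2.1, f (sw t0).2.2) :=
          (hc.mono (List.sublist_append_left _ R)).rot hrot.symm
        obtain ⟨c1, c2, c3⟩ := hc.mem
        have hrev := (s.grev i hi t0 ht0).2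
        have h4 := g.cneg hc2 ⟨i, hi, ⟨c1, c2, c3⟩, by
          have h5 := hty' i hi _ _ _ hrev
          show TyRev (ty i) (p i) (p (i + 1)) (f t0.1) (f t0.2.2) (f t0.2.1)
          cases hti : ty i with
          | concave => trivial
          | fanL =>
            rw [hti] at h5
            rcases h5 with h | h | h
            · exact Or.inl h
            · exact Or.inr (Or.inr h)
            · exact Or.inr (Or.inl h)
          | fanR =>
            rw [hti] at h5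
            rcases h5 with h | h | h
            · exact Or.inl h
            · exact Or.inr (Or.inr h)
            · exact Or.inr (Or.inl h)⟩
        have h5 : o (f t0.1) (f t0.2.2) (f t0.2.1) < 0 := h4
        show 0 < o (f t0.1) (f t0.2.1) (f t0.2.2)
        rw [o_swap23]; linarith
    · intro w hw
      have e1 : FT.map (mp f) = FT.map (fun t => (f t.1, f t.2.1, f t.2.2)) := rfl
      rw [e1, bds_map w f FT, hcov2.bd (fun u v => w (f u) (f v)) (fun u v => hw _ _),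
        hull_path _ q (by omega) Hq.clo]
      apply Finset.sum_congr rfl
      intro i hi
      have := Finset.mem_range.1 hi
      rw [hfq i (by omega), hfq (i + 1) (by omega)]
  have hid : FT.map (mp (fun z : P => z)) = FT := by
    conv_rhs => rw [← List.map_id FT]
    rfl
  have hcov2' : CovH S₂ (FT.map (mp (fun z : P => z))) (q 0) ((List.range' 1 (h - 1)).map q) := by
    rw [hid]; exact hcov2
  have hbij1 : Set.BijOn f {z | z ∈ Wl q D h} (S₁ : Set P) := by
    apply bijOn_list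
    · rw [hf]; exact g.nodup
    · intro z
      rw [hf, hS₁]
  have hbij2 : Set.BijOn (fun z : P => z) {z | z ∈ Wl q D h} (S₂ : Set P) := by
    refine ⟨fun z hz => (hW2S z).1 hz, fun a _ b _ e => e, fun z hz => ⟨z, (hW2S z).2 hz, rfl⟩⟩
  have hused : ∀ z ∈ {z | z ∈ Wl q D h}, ∃ t ∈ FT, z = t.1 ∨ z = t.2.1 ∨ z = t.2.2 := by
    intro z hz
    have hz' : z ∈ Wl q D h := hz
    have hsim := A.simP s.nd s.EY s.sep
    obtain ⟨z', hz''⟩ := exists_next (x := q h) hz'
    rw [← clo_Wl (by omega) Hq.clo] at hz''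
    have hne : z ≠ z' := by
      rw [clo_Wl (by omega) Hq.clo, Wl_pairs] at hz''
      obtain ⟨i, hi, hp⟩ := hz''
      exact pairs_pairwise (A.lc_nodup s.nd s.EY hi) _ hp
    obtain ⟨t, ht, hcase⟩ := exists_face (F := F) (L := pairs (clo (Wl q D h))) (u := z) (v := z')
      (by rw [s.fbd _ (iw_anti z z'), cpath_clo, path_eq]) hz'' (edge_not_rev hsim hz'' hne)
    refine ⟨t, List.mem_append_left _ ht, ?_⟩
    rcases hcase with ⟨h1, _⟩ | ⟨h1, _⟩ | ⟨h1, _⟩
    · exact Or.inl h1.symm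
    · exact Or.inr (Or.inl h1.symm)
    · exact Or.inr (Or.inr h1.symm)
  obtain ⟨T₁, T₂, a1, a2, a3, a4, a5, a6, φ, a7, a8, a10, a9⟩ := masterH FT f (fun z : P => z) S₁ S₂
    hcov1 hcov2' {z | z ∈ Wl q D h} hmemW hbij1 hbij2 hused
  refine ⟨T₁, T₂, a1, a2, a3, a4, a5, a6, φ, a7, a8, a10, ?_⟩
  have h4 := a9 (q 0) (hqW 0 (by omega))
  rw [hfq 0 (by omega)] at h4
  rw [h4, hq0]

end Pool.Agent.Helper111_GDC
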