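import Pool.Agent.Helper111_GDC.Win
import Pool.Agent.Helper111_Chain.Two

set_option autoImplicit false

/-!
Faces at a given directed edge; triangulated pockets.
-/

namespace Pool.Agent.Helper111_GDC

open Pool.Agent.Helper111_Chain

/-- Antisymmetric indicator of the directed edge `u v`. -/
noncomputable def iw (u v : P) (x y : P) : ℝ :=
  (if x = u ∧ y = v then 1 else 0) - (if x = v ∧ y = u then 1 else 0)

theorem iw_anti (u v : P) : ∀ x y, iw u v y x = - iw u v x y := by
  intro x y
  unfold iw
  have e1 : (y = u ∧ x = v) ↔ (x = v ∧ y = u) := And.comm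
  have e2 : (y = v ∧ x = u) ↔ (x = u ∧ y = v) := And.comm
  simp only [e1, e2]
  ring

theorem iw_pos {u v x y : P} (h : 0 < iw u v x y) : x = u ∧ y = v := by
  unfold iw at h
  by_contra hc
  rw [if_neg hc] at h
  split_ifs at h <;> linarith

theorem list_sum_nonpos : ∀ l : List ℝ, (∀ x ∈ l, x ≤ 0) → l.sum ≤ 0
  | [], _ => by simp
  | (a :: l), h => by
    rw [List.sum_cons]
    have h1 := h a (by simp)
    have h2 := list_sum_nonpos l (fun x hx => h x (List.mem_cons_of_mem _ hx))
    linarith

theorem exists_face {F : List (P × P × P)} {L : List (P × P)} {u v : P}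
    (hb : bds (iw u v) F = (L.map (fun e => iw u v e.1 e.2)).sum) (huv : (u, v) ∈ L)
    (hvu : (v, u) ∉ L) :
    ∃ t ∈ F, (t.1 = u ∧ t.2.1 = v) ∨ (t.2.1 = u ∧ t.2.2 = v) ∨ (t.2.2 = u ∧ t.1 = v) := by
  have hne : u ≠ v := by
    rintro rfl
    exact hvu huv
  have hpos : 0 < (L.map (fun e => iw u v e.1 e.2)).sum := by
    have hnn : ∀ x ∈ L.map (fun e => iw u v e.1 e.2), 0 ≤ x := by
      intro x hx
      obtain ⟨e, he, rfl⟩ := List.mem_map.1 hx
      unfold iw
      have : ¬ (e.1 = v ∧ e.2 = u) := by
        rintro ⟨h1, h2⟩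
        apply hvu
        rw [← h1, ← h2]
        exact he
      rw [if_neg this]
      split_ifs <;> norm_num
    have h1 : (1 : ℝ) ∈ L.map (fun e => iw u v e.1 e.2) := by
      refine List.mem_map.2 ⟨(u, v), huv, ?_⟩
      unfold iw
      rw [if_pos ⟨rfl, rfl⟩, if_neg]
      · norm_num
      · rintro ⟨h1, _⟩
        exact hne h1
    have := List.single_le_sum hnn 1 h1
    linarith
  rw [← hb] at hpos
  by_contra hc
  push Not at hc
  have : bds (iw u v) F ≤ 0 := by
    unfold bds
    apply list_sum_nonpos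
    intro x hx
    obtain ⟨t, ht, rfl⟩ := List.mem_map.1 hx
    obtain ⟨c1, c2, c3⟩ := hc t ht
    have k1 : iw u v t.1 t.2.1 ≤ 0 := by
      by_contra h
      push Not at h
      obtain ⟨a, b⟩ := iw_pos h
      exact c1 a b
    have k2 : iw u v t.2.1 t.2.2 ≤ 0 := by
      by_contra h
      push Not at h
      obtain ⟨a, b⟩ := iw_pos h
      exact c2 a b
    have k3 : iw u v t.2.2 t.1 ≤ 0 := by
      by_contra h
      push Not at h
      obtain ⟨a, b⟩ := iw_pos h
      exact c3 a b
    linarith
  linarith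

theorem pairs_snoc {α : Type*} (A : List α) (x y : α) :
    pairs ((A ++ [x]) ++ [y]) = pairs (A ++ [x]) ++ [(x, y)] := by
  have : (A ++ [x]) ++ [y] = A ++ x :: [y] := by simp
  rw [this, pairs_append]
  simp

theorem pocket_simP {u v : P} {M : List P} (hS : Sep2 (u :: (M ++ [v])))
    (hn : (u :: (M ++ [v])).Nodup)
    (gp : ∀ a ∈ u :: (M ++ [v]), ∀ b ∈ u :: (M ++ [v]), ∀ c ∈ u :: (M ++ [v]),
      a ≠ b → a ≠ c → b ≠ c → o a b c ≠ 0)
    (hM : M ≠ []) (hside : ∀ z ∈ M, 0 < o u v z) : SimP (u :: (M ++ [v])) := by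
  refine ⟨?_, hn, ?_⟩
  · have : 0 < M.length := List.length_pos_of_ne_nil hM
    simp
    omega
  have hclo : pairs (clo (u :: (M ++ [v]))) = pairs (u :: (M ++ [v])) ++ [(v, u)] := by
    have : clo (u :: (M ++ [v])) = ((u :: M) ++ [v]) ++ [u] := by simp [clo]
    rw [this, pairs_snoc]
    simp
  have huv : u ≠ v := by
    rw [List.nodup_cons] at hn
    rintro rfl
    exact hn.1 (by simp)
  have hMu : ∀ z ∈ M, z ≠ u := by
    rintro z hz rfl
    have := hside z hz
    rw [o_self13] at this
    exact lt_irrefl _ this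
  have hMv : ∀ z ∈ M, z ≠ v := by
    rintro z hz rfl
    have := hside z hz
    rw [o_self23] at this
    exact lt_irrefl _ this
  -- an edge of the path against the closing edge
  have key : ∀ e ∈ pairs (u :: (M ++ [v])), ∀ z, z ∈ segment ℝ e.1 e.2 → z ∈ segment ℝ v u →
      (z = e.1 ∨ z = e.2) ∧ (z = v ∨ z = u) := by
    intro e he z hz hz'
    have h0 : o u v z = 0 := by
      rw [segment_symm] at hz'
      exact o_seg hz'
    have h1 : e.1 ∈ u :: M := by
      have : e ∈ pairs ((u :: M) ++ [v]) := by simpa using he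
      exact fst_mem_front this
    have h2 : e.2 ∈ M ++ [v] := snd_mem_tail he
    have hnot : ¬ (e.1 = u ∧ e.2 = v) := by
      rintro ⟨e1, e2⟩
      cases M with
      | nil => exact hM rfl
      | cons m M =>
        rw [List.cons_append, pairs_cons] at he
        rcases List.mem_cons.1 he with rfl | he
        · exact hMv m (by simp) e2
        · have := (mem_of_pairs he).1
          rw [e1] at this
          rw [List.nodup_cons] at hn
          exact hn.1 this
    obtain ⟨s, t, hs, ht, hst, rfl⟩ := hz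
    rw [o_comb u v _ _ s t hst] at h0
    rcases List.mem_cons.1 h1 with h1 | h1
    · rcases List.mem_append.1 h2 with h2 | h2
      · have p2 := hside _ h2
        rw [h1, o_self13] at h0
        have : t = 0 := by
          rcases mul_eq_zero.1 (show t * o u v e.2 = 0 by linarith) with h | h
          · exact h
          · linarith
        have hs1 : s = 1 := by linarith
        subst this hs1
        have : (1 : ℝ) • e.1 + (0 : ℝ) • e.2 = e.1 := by simp
        rw [this]
        exact ⟨Or.inl rfl, Or.inr h1⟩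
      · rw [List.mem_singleton] at h2
        exact absurd ⟨h1, h2⟩ hnot
    · have p1 := hside _ h1
      rcases List.mem_append.1 h2 with h2 | h2
      · have p2 := hside _ h2
        exfalso
        rcases eq_or_lt_of_le hs with h | h
        · have : t = 1 := by linarith
          rw [← h, this] at h0
          linarith
        · nlinarith [mul_pos h p1, mul_nonneg ht p2.le]
      · rw [List.mem_singleton] at h2
        rw [h2, o_self23] at h0
        have : s = 0 := by
          rcases mul_eq_zero.1 (show s * o u v e.1 = 0 by linarith) with h | h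
          · exact h
          · linarith
        have ht1 : t = 1 := by linarith
        subst this ht1
        have : (0 : ℝ) • e.1 + (1 : ℝ) • e.2 = e.2 := by simp
        rw [this]
        exact ⟨Or.inr rfl, Or.inl h2⟩
  intro e he e' he' hne z hz hz'
  rw [hclo] at he he'
  rcases List.mem_append.1 he with he | he <;> rcases List.mem_append.1 he' with he' | he'
  · exact hS.inter hn gp e he e' he' hne z hz hz'
  · rw [List.mem_singleton] at he'
    subst he'
    exact key e he z hz hz'
  · rw [List.mem_singleton] at he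
    subst he
    exact (key e' he' z hz' hz).symm
  · rw [List.mem_singleton] at he he'
    exact absurd (he.trans he'.symm) hne

theorem edge_not_rev {W : List P} (h : SimP W) {u v : P} (huv : (u, v) ∈ pairs (clo W))
    (hne : u ≠ v) : (v, u) ∉ pairs (clo W) := by
  intro hvu
  have hne' : ((u, v) : P × P) ≠ (v, u) := by
    intro e
    exact hne (congrArg Prod.fst e)
  have hz : ((1 / 2 : ℝ) • u + (1 / 2 : ℝ) • v) ∈ segment ℝ u v :=
    ⟨1 / 2, 1 / 2, by norm_num, by norm_num, by norm_num, rfl⟩
  have hz' : ((1 / 2 : ℝ) • u + (1 / 2 : ℝ) • v) ∈ segment ℝ v u := by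
    rw [segment_symm]; exact hz
  have := (h.2.2 _ huv _ hvu hne' _ hz hz').1
  rcases this with h' | h'
  · apply hne
    have e : (1 / 2 : ℝ) • v = (1 / 2 : ℝ) • u := by
      have h3 : (1 / 2 : ℝ) • u + (1 / 2 : ℝ) • v = (1 / 2 : ℝ) • u + (1 / 2 : ℝ) • u := by
        rw [h', ← add_smul]; norm_num
      exact add_left_cancel h3
    exact ((smul_right_inj (by norm_num : (1 / 2 : ℝ) ≠ 0)).1 e).symm
  · apply hne
    have e : (1 / 2 : ℝ) • u = (1 / 2 : ℝ) • v := by
      have h3 : (1 / 2 : ℝ) • u + (1 / 2 : ℝ) • v = (1 / 2 : ℝ) • v + (1 / 2 : ℝ) • v := by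
        rw [h', ← add_smul]; norm_num
      exact add_right_cancel h3
    exact (smul_right_inj (by norm_num : (1 / 2 : ℝ) ≠ 0)).1 e

theorem pocket_poly {u v : P} {M : List P} (hS : Sep2 (u :: (M ++ [v])))
    (hn : (u :: (M ++ [v])).Nodup)
    (gp : ∀ a ∈ u :: (M ++ [v]), ∀ b ∈ u :: (M ++ [v]), ∀ c ∈ u :: (M ++ [v]),
      a ≠ b → a ≠ c → b ≠ c → o a b c ≠ 0)
    (hM : M ≠ []) (hside : ∀ z ∈ M, 0 < o u v z) :
    ∃ G : List (P × P × P), (∀ t ∈ G, 0 < o t.1 t.2.1 t.2.2 ∧ CycInc (u :: (M ++ [v])) (sw t)) ∧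
      ∀ w : P → P → ℝ, (∀ x y, w y x = - w x y) →
        bds w G = w u v - path w (u :: (M ++ [v])) := by
  have hsim := pocket_simP hS hn gp hM hside
  have hclo : clo (u :: (M ++ [v])) = (u :: M) ++ v :: [u] := by simp [clo]
  have hcp : ∀ w : P → P → ℝ, cpath w (u :: (M ++ [v])) = path w (u :: (M ++ [v])) + w v u := by
    intro w
    rw [cpath_clo, hclo, path_append]
    simp
  have huv : u ≠ v := by
    rw [List.nodup_cons] at hn
    rintro rfl
    exact hn.1 (by simp)
  rcases poly hsim with ⟨F, hF, hb⟩ | ⟨F, hF, hb⟩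
  · exfalso
    have hvu : (v, u) ∈ pairs (clo (u :: (M ++ [v]))) := by
      rw [hclo, pairs_append]
      simp
    obtain ⟨t, ht, hcase⟩ := exists_face (F := F) (L := pairs (clo (u :: (M ++ [v])))) (u := v)
      (v := u) (by rw [hb _ (iw_anti v u), cpath_clo, path_eq]) hvu
      (edge_not_rev hsim hvu (Ne.symm huv))
    obtain ⟨hc, hpos⟩ := hF t ht
    obtain ⟨m1, m2, m3⟩ := hc.mem
    have hall : ∀ z ∈ u :: (M ++ [v]), 0 ≤ o u v z := by
      intro z hz
      simp only [List.mem_cons, List.mem_append, List.not_mem_nil, or_false] at hz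
      rcases hz with rfl | hz | rfl
      · rw [o_self13]
      · exact (hside z hz).le
      · rw [o_self23]
    rcases hcase with ⟨h1, h2⟩ | ⟨h1, h2⟩ | ⟨h1, h2⟩
    · have := hall _ m3
      rw [h1, h2, o_swap12] at hpos
      linarith
    · have := hall _ m1
      rw [h1, h2] at hpos
      have e : o t.1 v u = - o u v t.1 := by unfold o; ring
      linarith
    · have := hall _ m2
      rw [h1, h2] at hpos
      have e : o u t.2.1 v = - o u v t.2.1 := by unfold o; ring
      linarith
  · refine ⟨F.map sw, ?_, ?_⟩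
    · intro t ht
      obtain ⟨t', ht', rfl⟩ := List.mem_map.1 ht
      obtain ⟨hc, hneg⟩ := hF t' ht'
      refine ⟨?_, ?_⟩
      · show 0 < o t'.1 t'.2.2 t'.2.1
        rw [o_swap23]; linarith
      · exact hc
    · intro w hw
      rw [bds_sw w hw, hb w hw, hcp w, hw u v]
      ring

end Pool.Agent.Helper111_GDC
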