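import Pool.Agent.Helper111_GDC.GLh
import Pool.Agent.Helper111_Chain.Hull

set_option autoImplicit false

/-!
Separable paths.
-/

namespace Pool.Agent.Helper111_GDC

open Pool.Agent.Helper111_Chain

/-- Paths which can be cut into single edges by successive separating lines through vertices. -/
inductive Sep2 : List P → Prop
  | pair (u v : P) : Sep2 [u, v]
  | join (A B : List P) (x q : P) (hA : Sep2 (A ++ [x])) (hB : Sep2 (x :: B))
      (h1 : ∀ a ∈ A, 0 ≤ o x q a) (h2 : ∀ b ∈ B, o x q b < 0) : Sep2 (A ++ x :: B)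
  | join' (A B : List P) (x q : P) (hA : Sep2 (A ++ [x])) (hB : Sep2 (x :: B))
      (h1 : ∀ a ∈ A, 0 < o x q a) (h2 : ∀ b ∈ B, o x q b ≤ 0) : Sep2 (A ++ x :: B)

/-- Reflection of `u` in the point `v`. -/
def rp (v u : P) : P := (2 * v.1 - u.1, 2 * v.2 - u.2)

theorem o_rp (v u z : P) : o v (rp v u) z = - o v u z := by
  unfold o rp; ring

theorem sep2_of_trip : ∀ L : List P, 2 ≤ L.length → Trip (fun a b c => o a b c < 0) L → Sep2 L
  | [], h, _ => by simp at h
  | [_], h, _ => by simp at h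
  | [u, v], _, _ => Sep2.pair u v
  | (u :: v :: w :: T), _, h => by
    have h2 : Sep2 (v :: w :: T) := sep2_of_trip (v :: w :: T) (by simp) h.2
    have h1 := List.pairwise_cons.1 h.1
    refine Sep2.join [u] (w :: T) v (rp v u) (Sep2.pair u v) h2 ?_ ?_
    · intro a ha
      rw [List.mem_singleton.1 ha, o_rp, o_self23]; simp
    · intro b hb
      rw [o_rp, o_swap12]
      have := h1.1 b hb
      linarith

theorem sep2_sorted (w : P) : ∀ L : List P, 2 ≤ L.length → L.Pairwise (fun a b => 0 < o w a b) →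
    Sep2 L
  | [], h, _ => by simp at h
  | [_], h, _ => by simp at h
  | [u, v], _, _ => Sep2.pair u v
  | (u :: v :: x :: T), _, h => by
    have h' := List.pairwise_cons.1 h
    have h2 : Sep2 (v :: x :: T) := sep2_sorted w (v :: x :: T) (by simp) h'.2
    have h'' := List.pairwise_cons.1 h'.2
    refine Sep2.join [u] (x :: T) v w (Sep2.pair u v) h2 ?_ ?_
    · intro a ha
      rw [List.mem_singleton.1 ha]
      have := h'.1 v (by simp)
      rw [← o_cyc, ← o_cyc] at this
      unfold o at *; linarith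
    · intro b hb
      have := h''.1 b hb
      rw [o_swap12]; linarith

theorem sep2_sorted_neg (w : P) : ∀ L : List P, 2 ≤ L.length →
    L.Pairwise (fun a b => o w a b < 0) → Sep2 L
  | [], h, _ => by simp at h
  | [_], h, _ => by simp at h
  | [u, v], _, _ => Sep2.pair u v
  | (u :: v :: x :: T), _, h => by
    have h' := List.pairwise_cons.1 h
    have h2 : Sep2 (v :: x :: T) := sep2_sorted_neg w (v :: x :: T) (by simp) h'.2
    have h'' := List.pairwise_cons.1 h'.2
    refine Sep2.join [u] (x :: T) v (rp v w) (Sep2.pair u v) h2 ?_ ?_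
    · intro a ha
      rw [List.mem_singleton.1 ha, o_rp]
      have := h'.1 v (by simp)
      unfold o at *; linarith
    · intro b hb
      rw [o_rp]
      have := h''.1 b hb
      unfold o at *; linarith

/-- A path starting at `u` whose other points are sorted around `u`. -/
theorem sep2_fanL (u : P) : ∀ L : List P, L ≠ [] → L.Pairwise (fun a b => o u a b < 0) →
    Sep2 (u :: L)
  | [], h, _ => absurd rfl h
  | [x], _, _ => Sep2.pair u x
  | (x :: y :: T), _, h => by
    have h' := List.pairwise_cons.1 h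
    refine Sep2.join [u] (y :: T) x (rp x u) (Sep2.pair u x)
      (sep2_sorted_neg u (x :: y :: T) (by simp) h) ?_ ?_
    · intro a ha
      rw [List.mem_singleton.1 ha, o_rp, o_self23]; simp
    · intro b hb
      rw [o_rp]
      have := h'.1 b hb
      unfold o at *; linarith

/-- A path ending at `u` whose other points are sorted around `u`. -/
theorem sep2_fanR (u : P) (L : List P) (hL : L ≠ []) (h : L.Pairwise (fun a b => o u a b < 0)) :
    Sep2 (L ++ [u]) := by
  rcases List.eq_nil_or_concat L with h1 | ⟨T, x, h1⟩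
  · exact absurd h1 hL
  rw [List.concat_eq_append] at h1
  subst h1
  have e1 : (T ++ [x]) ++ [u] = T ++ x :: [u] := by simp
  rw [e1]
  cases T with
  | nil => exact Sep2.pair x u
  | cons y T =>
    refine Sep2.join' (y :: T) [u] x (rp x u) (sep2_sorted_neg u _ (by simp) h)
      (Sep2.pair x u) ?_ ?_
    · intro a ha
      rw [o_rp]
      have := (List.pairwise_append.1 h).2.2 a ha x (by simp)
      unfold o at *; linarith
    · intro b hb
      rw [List.mem_singleton.1 hb, o_rp, o_self23]; simp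

theorem o_seg {a b z : P} (h : z ∈ segment ℝ a b) : o a b z = 0 := by
  obtain ⟨s, t, _, _, hst, rfl⟩ := h
  rw [o_comb a b a b s t hst, o_self13, o_self23]; ring

theorem snd_mem_tail {α : Type*} : ∀ {x : α} {B : List α} {e : α × α}, e ∈ pairs (x :: B) →
    e.2 ∈ B
  | x, [], e, he => by simp at he
  | x, (y :: B), e, he => by
    rw [pairs_cons] at he
    rcases List.mem_cons.1 he with rfl | he
    · simp
    · exact List.mem_cons_of_mem _ (snd_mem_tail he)

theorem fst_mem_front {α : Type*} {x : α} : ∀ {A : List α} {e : α × α}, e ∈ pairs (A ++ [x]) →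
    e.1 ∈ A
  | [], e, he => by simp at he
  | [y], e, he => by
    simp only [List.cons_append, List.nil_append, pairs_cons, pairs_one, List.mem_singleton] at he
    rw [he]; simp
  | (y :: y' :: A), e, he => by
    simp only [List.cons_append, pairs_cons] at he
    rcases List.mem_cons.1 he with rfl | he
    · simp
    · have := fst_mem_front (A := y' :: A) (x := x) (e := e) (by simpa using he)
      exact List.mem_cons_of_mem _ this

theorem seg_nonneg {x q a b z : P} (h : z ∈ segment ℝ a b) (ha : 0 ≤ o x q a) (hb : 0 ≤ o x q b) :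
    0 ≤ o x q z := by
  obtain ⟨s, t, hs, ht, hst, rfl⟩ := h
  rw [o_comb x q a b s t hst]
  positivity

theorem sep_mixed {A B : List P} {x q : P} (hn : (A ++ x :: B).Nodup)
    (gp : ∀ a ∈ A ++ x :: B, ∀ b ∈ A ++ x :: B, ∀ c ∈ A ++ x :: B, a ≠ b → a ≠ c → b ≠ c →
      o a b c ≠ 0)
    (h1 : ∀ a ∈ A, 0 ≤ o x q a) (h2 : ∀ b ∈ B, o x q b ≤ 0)
    (h3 : (∀ a ∈ A, 0 < o x q a) ∨ (∀ b ∈ B, o x q b < 0)) :
    ∀ e ∈ pairs (A ++ [x]), ∀ e' ∈ pairs (x :: B), ∀ z, z ∈ segment ℝ e.1 e.2 →
        z ∈ segment ℝ e'.1 e'.2 → (z = e.1 ∨ z = e.2) ∧ (z = e'.1 ∨ z = e'.2) := by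
  have subA : ∀ a ∈ A ++ [x], a ∈ A ++ x :: B := by
    intro a ha
    simp only [List.mem_append, List.mem_cons, List.not_mem_nil, or_false] at ha ⊢
    tauto
  have subB : ∀ a ∈ x :: B, a ∈ A ++ x :: B := fun a ha => List.mem_append_right _ ha
  have hnA : (A ++ [x]).Nodup := by
    rw [List.nodup_append] at hn ⊢
    obtain ⟨n1, n2, n3⟩ := hn
    exact ⟨n1, by simp, fun a ha b hb => n3 a ha b (by simp at hb; simp [hb])⟩
  have hnB : (x :: B).Nodup := (List.nodup_append.1 hn).2.1
  intro e he e' he' z hz hz'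
  have hAn : ∀ a ∈ A ++ [x], 0 ≤ o x q a := by
    intro a ha
    rcases List.mem_append.1 ha with ha | ha
    · exact h1 a ha
    · rw [List.mem_singleton.1 ha, o_self13]
  have hBn : ∀ b ∈ x :: B, o x q b ≤ 0 := by
    intro b hb
    rcases List.mem_cons.1 hb with hb | hb
    · rw [hb, o_self13]
    · exact h2 b hb
  obtain ⟨m1, m2⟩ := mem_of_pairs he
  obtain ⟨m1', m2'⟩ := mem_of_pairs he'
  have hz0 : 0 ≤ o x q z := seg_nonneg hz (hAn _ m1) (hAn _ m2)
  have hz1 : o x q z ≤ 0 := by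
    obtain ⟨s, t, hs, ht, hst, rfl⟩ := hz'
    rw [o_comb x q _ _ s t hst]
    nlinarith [mul_nonneg hs (neg_nonneg.2 (hBn _ m1')), mul_nonneg ht (neg_nonneg.2 (hBn _ m2'))]
  have hzz : o x q z = 0 := le_antisymm hz1 hz0
  have hne12 : e.1 ≠ e.2 := pairs_pairwise hnA e he
  have hne12' : e'.1 ≠ e'.2 := pairs_pairwise hnB e' he'
  have hzx : z = x → (z = e.1 ∨ z = e.2) ∧ (z = e'.1 ∨ z = e'.2) := by
    intro hzx
    subst hzx
    constructor
    · by_contra hcon
      push Not at hcon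
      exact gp _ (subA _ m1) _ (subA _ m2) z (by simp) hne12 (Ne.symm hcon.1) (Ne.symm hcon.2)
        (o_seg hz)
    · by_contra hcon
      push Not at hcon
      exact gp _ (subB _ m1') _ (subB _ m2') z (by simp) hne12' (Ne.symm hcon.1)
        (Ne.symm hcon.2) (o_seg hz')
  apply hzx
  rcases h3 with h3 | h3
  · have ha1 : 0 < o x q e.1 := h3 _ (fst_mem_front he)
    have hc : e.2 = x ∨ 0 < o x q e.2 := by
      rcases List.mem_append.1 m2 with h | h
      · exact Or.inr (h3 _ h)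
      · exact Or.inl (List.mem_singleton.1 h)
    obtain ⟨s, t, hs, ht, hst, rfl⟩ := hz
    rw [o_comb x q _ _ s t hst] at hzz
    have hc' := hAn _ m2
    have hs0 : s = 0 := by
      by_contra hne
      have hsp : 0 < s := lt_of_le_of_ne hs (Ne.symm hne)
      nlinarith [mul_nonneg ht hc', mul_pos hsp ha1]
    have ht1 : t = 1 := by linarith
    subst hs0 ht1
    have hx : e.2 = x := by
      rcases hc with h | h
      · exact h
      · exfalso; linarith
    rw [hx]; simp
  · have hd : o x q e'.2 < 0 := h3 _ (snd_mem_tail he')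
    have hc : e'.1 = x ∨ o x q e'.1 < 0 := by
      rcases List.mem_cons.1 m1' with h | h
      · exact Or.inl h
      · exact Or.inr (h3 _ h)
    obtain ⟨s, t, hs, ht, hst, rfl⟩ := hz'
    rw [o_comb x q _ _ s t hst] at hzz
    have hc' := hBn _ m1'
    have ht0 : t = 0 := by
      by_contra hne
      have htp : 0 < t := lt_of_le_of_ne ht (Ne.symm hne)
      nlinarith [mul_nonneg hs (neg_nonneg.2 hc'), mul_pos htp (neg_pos.2 hd)]
    have hs1 : s = 1 := by linarith
    subst ht0 hs1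
    have hx : e'.1 = x := by
      rcases hc with h | h
      · exact h
      · exfalso; linarith
    rw [hx]; simp

theorem sep_join {A B : List P} {x : P} (hn : (A ++ x :: B).Nodup)
    (gp : ∀ a ∈ A ++ x :: B, ∀ b ∈ A ++ x :: B, ∀ c ∈ A ++ x :: B, a ≠ b → a ≠ c → b ≠ c →
      o a b c ≠ 0)
    (ihA : (A ++ [x]).Nodup →
      (∀ a ∈ A ++ [x], ∀ b ∈ A ++ [x], ∀ c ∈ A ++ [x], a ≠ b → a ≠ c → b ≠ c → o a b c ≠ 0) →
      ∀ e ∈ pairs (A ++ [x]), ∀ e' ∈ pairs (A ++ [x]), e ≠ e' → ∀ z, z ∈ segment ℝ e.1 e.2 →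
      z ∈ segment ℝ e'.1 e'.2 → (z = e.1 ∨ z = e.2) ∧ (z = e'.1 ∨ z = e'.2))
    (ihB : (x :: B).Nodup →
      (∀ a ∈ x :: B, ∀ b ∈ x :: B, ∀ c ∈ x :: B, a ≠ b → a ≠ c → b ≠ c → o a b c ≠ 0) →
      ∀ e ∈ pairs (x :: B), ∀ e' ∈ pairs (x :: B), e ≠ e' → ∀ z, z ∈ segment ℝ e.1 e.2 →
      z ∈ segment ℝ e'.1 e'.2 → (z = e.1 ∨ z = e.2) ∧ (z = e'.1 ∨ z = e'.2))
    (mixed : ∀ e ∈ pairs (A ++ [x]), ∀ e' ∈ pairs (x :: B), ∀ z, z ∈ segment ℝ e.1 e.2 →
        z ∈ segment ℝ e'.1 e'.2 → (z = e.1 ∨ z = e.2) ∧ (z = e'.1 ∨ z = e'.2)) :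
    ∀ e ∈ pairs (A ++ x :: B), ∀ e' ∈ pairs (A ++ x :: B), e ≠ e' → ∀ z,
      z ∈ segment ℝ e.1 e.2 →
      z ∈ segment ℝ e'.1 e'.2 → (z = e.1 ∨ z = e.2) ∧ (z = e'.1 ∨ z = e'.2) := by
  have subA : ∀ a ∈ A ++ [x], a ∈ A ++ x :: B := by
    intro a ha
    simp only [List.mem_append, List.mem_cons, List.not_mem_nil, or_false] at ha ⊢
    tauto
  have subB : ∀ a ∈ x :: B, a ∈ A ++ x :: B := fun a ha => List.mem_append_right _ ha
  have hnA : (A ++ [x]).Nodup := by
    rw [List.nodup_append] at hn ⊢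
    obtain ⟨n1, n2, n3⟩ := hn
    exact ⟨n1, by simp, fun a ha b hb => n3 a ha b (by simp at hb; simp [hb])⟩
  have hnB : (x :: B).Nodup := (List.nodup_append.1 hn).2.1
  have ihA' := ihA hnA (fun a ha b hb c hc => gp a (subA a ha) b (subA b hb) c (subA c hc))
  have ihB' := ihB hnB (fun a ha b hb c hc => gp a (subB a ha) b (subB b hb) c (subB c hc))
  intro e he e' he' hne z hz hz'
  rw [pairs_append] at he he'
  rcases List.mem_append.1 he with he | he <;> rcases List.mem_append.1 he' with he' | he'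
  · exact ihA' e he e' he' hne z hz hz'
  · exact mixed e he e' he' z hz hz'
  · exact (mixed e' he' e he z hz' hz).symm
  · exact ihB' e he e' he' hne z hz hz'

theorem Sep2.inter {L : List P} (h : Sep2 L) : L.Nodup →
    (∀ a ∈ L, ∀ b ∈ L, ∀ c ∈ L, a ≠ b → a ≠ c → b ≠ c → o a b c ≠ 0) →
    ∀ e ∈ pairs L, ∀ e' ∈ pairs L, e ≠ e' → ∀ z, z ∈ segment ℝ e.1 e.2 →
      z ∈ segment ℝ e'.1 e'.2 → (z = e.1 ∨ z = e.2) ∧ (z = e'.1 ∨ z = e'.2) := by
  induction h with
  | pair u v =>
    intro _ _ e he e' he' hne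
    simp only [pairs_cons, pairs_one, List.mem_singleton] at he he'
    exact absurd (he.trans he'.symm) hne
  | join A B x q hA hB h1 h2 ihA ihB =>
    intro hn gp
    exact sep_join hn gp ihA ihB (sep_mixed hn gp h1 (fun b hb => (h2 b hb).le) (Or.inr h2))
  | join' A B x q hA hB h1 h2 ihA ihB =>
    intro hn gp
    exact sep_join hn gp ihA ihB (sep_mixed hn gp (fun a ha => (h1 a ha).le) h2 (Or.inl h1))

/-- Sorting around a point. -/
theorem exists_sorted (z u : P) : ∀ (n : ℕ) (X : Finset P), X.card = n →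
    (∀ x ∈ X, 0 < o z u x) → (∀ x ∈ X, ∀ y ∈ X, x ≠ y → o z x y ≠ 0) →
    ∃ L : List P, L.Nodup ∧ (∀ p, p ∈ L ↔ p ∈ X) ∧ L.Pairwise (fun a b => 0 < o z a b) := by
  classical
  intro n
  induction n with
  | zero =>
    intro X hX _ _
    rw [Finset.card_eq_zero] at hX
    exact ⟨[], by simp, by simp [hX], by simp⟩
  | succ n ih =>
    intro X hX hu hgp
    have hne : X.Nonempty := by rw [← Finset.card_pos]; omega
    obtain ⟨x₀, hx₀, hfirst⟩ := exists_first z u X hne hu
    obtain ⟨L, hn, hm, hp⟩ := ih (X.erase x₀) (by rw [Finset.card_erase_of_mem hx₀]; omega)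
      (fun x hx => hu x (Finset.mem_of_mem_erase hx))
      (fun x hx y hy => hgp x (Finset.mem_of_mem_erase hx) y (Finset.mem_of_mem_erase hy))
    refine ⟨x₀ :: L, ?_, ?_, ?_⟩
    · rw [List.nodup_cons]
      refine ⟨fun h => ?_, hn⟩
      exact Finset.ne_of_mem_erase ((hm x₀).1 h) rfl
    · intro p
      rw [List.mem_cons, hm p, Finset.mem_erase]
      constructor
      · rintro (rfl | ⟨_, h⟩)
        · exact hx₀
        · exact h
      · intro h
        by_cases e : p = x₀
        · exact Or.inl e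
        · exact Or.inr ⟨e, h⟩
    · rw [List.pairwise_cons]
      refine ⟨fun x hx => ?_, hp⟩
      have hx' := (hm x).1 hx
      exact lt_of_le_of_ne (hfirst x (Finset.mem_of_mem_erase hx'))
        (Ne.symm (hgp x₀ hx₀ x (Finset.mem_of_mem_erase hx') (Ne.symm (Finset.ne_of_mem_erase hx'))))

end Pool.Agent.Helper111_GDC
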