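import Pool.Agent.Helper111_GDC.Core

set_option autoImplicit false

/-!
Processing one pocket: all points of the pocket are moved to its inner boundary.
-/

namespace Pool.Agent.Helper111_GDC

open Pool.Agent.Helper111_Chain

/-- Type of a chain: concave, a fan at its first point, or a fan at its last point. -/
inductive Ty
  | concave
  | fanL
  | fanR

/-- For a chain with first point `x` and last point `y`: the triple `a b c` is reversed. -/
def TyRev {α : Type*} (ty : Ty) (x y a b c : α) : Prop :=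
  match ty with
  | Ty.concave => True
  | Ty.fanL => a = x ∨ b = x ∨ c = x
  | Ty.fanR => a = y ∨ b = y ∨ c = y

theorem TyRev.rot {α : Type*} {ty : Ty} {x y a b c : α} (h : TyRev ty x y a b c) :
    TyRev ty x y b c a := by
  cases ty with
  | concave => trivial
  | fanL =>
    rcases h with h | h | h
    · exact Or.inr (Or.inr h)
    · exact Or.inl h
    · exact Or.inr (Or.inl h)
  | fanR =>
    rcases h with h | h | h
    · exact Or.inr (Or.inr h)
    · exact Or.inl h
    · exact Or.inr (Or.inl h)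

/-- The points `a b c` belong to the closed chain `i` and form a reversed triple of this chain. -/
def Rev {α : Type*} (ty : ℕ → Ty) (p : ℕ → α) (E : ℕ → List α) (i : ℕ) (a b c : α) : Prop :=
  (a ∈ Lc p E i ∧ b ∈ Lc p E i ∧ c ∈ Lc p E i) ∧ TyRev (ty i) (p i) (p (i + 1)) a b c

/-- State of the construction. -/
structure St (S : Finset P) (h : ℕ) (p : ℕ → P) (Y : ℕ → Finset P) (ty : ℕ → Ty)
    (E : ℕ → List P) (F : List (P × P × P)) (G : ℕ → List (P × P × P)) : Prop where
  A : AData S h p Y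
  nd : ∀ i < h, (E i).Nodup
  EY : ∀ i < h, ∀ z ∈ E i, z ∈ Y i
  sep : ∀ i < h, Sep2 (Lc p E i)
  fpos : ∀ t ∈ F, 0 < o t.1 t.2.1 t.2.2
  fcyc : ∀ t ∈ F, CycInc (Wl p E h) t
  fmix : ∀ t ∈ F, ∀ i < h, ¬ Rev ty p E i t.1 t.2.1 t.2.2
  fbd : ∀ w : P → P → ℝ, (∀ u v, w v u = - w u v) → bds w F = cpath w (Wl p E h)
  gpos : ∀ i < h, ∀ t ∈ G i, 0 < o t.1 t.2.1 t.2.2
  gcyc : ∀ i < h, ∀ t ∈ G i, CycInc (Lc p E i) (sw t)
  grev : ∀ i < h, ∀ t ∈ G i, Rev ty p E i t.1 t.2.1 t.2.2
  gbd : ∀ i < h, ∀ w : P → P → ℝ, (∀ u v, w v u = - w u v) →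
    bds w (G i) = w (p i) (p (i + 1)) - path w (Lc p E i)

/-- Concatenation of the lists `G 0, ..., G (n-1)`. -/
def Gl {β : Type*} (G : ℕ → List β) : ℕ → List β
  | 0 => []
  | n + 1 => Gl G n ++ G n

theorem mem_Gl {β : Type*} {G : ℕ → List β} {t : β} : ∀ {n : ℕ}, t ∈ Gl G n ↔ ∃ i < n, t ∈ G i
  | 0 => by simp [Gl]
  | n + 1 => by
    show t ∈ Gl G n ++ G n ↔ _
    rw [List.mem_append, mem_Gl]
    constructor
    · rintro (⟨i, hi, h⟩ | h)
      · exact ⟨i, by omega, h⟩
      · exact ⟨n, by omega, h⟩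
    · rintro ⟨i, hi, h⟩
      rcases Nat.lt_or_ge i n with h1 | h1
      · exact Or.inl ⟨i, h1, h⟩
      · have : i = n := by omega
        subst this
        exact Or.inr h

theorem bds_Gl {ι : Type*} (w : ι → ι → ℝ) (G : ℕ → List (ι × ι × ι)) : ∀ n : ℕ,
    bds w (Gl G n) = ∑ i ∈ Finset.range n, bds w (G i)
  | 0 => by simp [Gl]
  | n + 1 => by
    show bds w (Gl G n ++ G n) = _
    rw [bds_append, bds_Gl w G n, Finset.sum_range_succ]

theorem Wl_nil {α : Type*} (p : ℕ → α) : ∀ n : ℕ, Wl p (fun _ => []) n = (List.range n).map p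
  | 0 => rfl
  | n + 1 => by
    show Wl p (fun _ => []) n ++ [p n] = _
    rw [Wl_nil p n, List.range_succ, List.map_append]
    rfl

theorem range_head {α : Type*} (p : ℕ → α) {h : ℕ} (hh : 0 < h) :
    (List.range h).map p = p 0 :: (List.range' 1 (h - 1)).map p := by
  obtain ⟨n, rfl⟩ : ∃ n, h = n + 1 := ⟨h - 1, by omega⟩
  rw [List.range_eq_range', List.range'_succ]
  simp

theorem hull_path {ι : Type*} (w : ι → ι → ℝ) (p : ℕ → ι) {h : ℕ} (hh : 0 < h) (hp : p h = p 0) :
    path w (p 0 :: ((List.range' 1 (h - 1)).map p ++ [p 0])) =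
      ∑ i ∈ Finset.range h, w (p i) (p (i + 1)) := by
  have h1 := Wl_path (p := p) (E := fun _ => []) w h
  rw [Wl_nil, range_head p hh, hp] at h1
  have h2 : ∀ i, path w (Lc p (fun _ => ([] : List ι)) i) = w (p i) (p (i + 1)) := by
    intro i; simp [Lc]
  simp only [h2] at h1
  rw [← h1]
  rfl

theorem hull_pairs {ι : Type*} (p : ℕ → ι) {h : ℕ} (hh : 0 < h) (hp : p h = p 0) {e : ι × ι} :
    e ∈ pairs (p 0 :: ((List.range' 1 (h - 1)).map p ++ [p 0])) ↔
      ∃ i < h, e = (p i, p (i + 1)) := by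
  have h1 := Wl_pairs (p := p) (E := fun _ => []) (e := e) h
  rw [Wl_nil, range_head p hh, hp] at h1
  have h2 : p 0 :: ((List.range' 1 (h - 1)).map p ++ [p 0]) =
      p 0 :: (List.range' 1 (h - 1)).map p ++ [p 0] := rfl
  rw [h2, h1]
  constructor
  · rintro ⟨i, hi, he⟩
    exact ⟨i, hi, by simpa [Lc] using he⟩
  · rintro ⟨i, hi, he⟩
    exact ⟨i, hi, by simpa [Lc] using he⟩

variable {S : Finset P} {h : ℕ} {p : ℕ → P} {Y : ℕ → Finset P} {ty : ℕ → Ty} {E : ℕ → List P}
  {F : List (P × P × P)} {G : ℕ → List (P × P × P)}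

theorem St.wlS (s : St S h p Y ty E F G) {z : P} (hz : z ∈ Wl p E h) : z ∈ S := by
  obtain ⟨i, hi, h1⟩ := mem_Wl.1 hz
  rcases h1 with h1 | h1
  · rw [h1]; exact s.A.H.pS i (by omega)
  · exact s.A.YS i hi _ (s.EY i hi _ h1)

theorem St.cov (s : St S h p Y ty E F G) :
    CovH S (F ++ Gl G h) (p 0) ((List.range' 1 (h - 1)).map p) := by
  have hh := s.A.H.h3
  refine ⟨s.A.H.gp, ?_, ?_, ?_, s.A.H.pS 0 (by omega), ?_, ?_, ?_, ?_⟩
  · intro f hf
    rcases List.mem_append.1 hf with hf | hf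
    · obtain ⟨m1, m2, m3⟩ := (s.fcyc f hf).mem
      exact ⟨s.wlS m1, s.wlS m2, s.wlS m3⟩
    · obtain ⟨i, hi, hf⟩ := mem_Gl.1 hf
      obtain ⟨m1, m2, m3⟩ := (s.gcyc i hi f hf).mem
      exact ⟨s.A.inS hi (inC_of_mem s.EY hi m1), s.A.inS hi (inC_of_mem s.EY hi m3),
        s.A.inS hi (inC_of_mem s.EY hi m2)⟩
  · intro f hf
    rcases List.mem_append.1 hf with hf | hf
    · exact s.fpos f hf
    · obtain ⟨i, hi, hf⟩ := mem_Gl.1 hf
      exact s.gpos i hi f hf
  · intro w hw
    rw [bds_append, s.fbd w hw, bds_Gl, hull_path w p (by omega) s.A.H.clo, cpath_clo,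
      clo_Wl (by omega) s.A.H.clo, Wl_path]
    have : ∑ i ∈ Finset.range h, bds w (G i) =
        ∑ i ∈ Finset.range h, (w (p i) (p (i + 1)) - path w (Lc p E i)) := by
      apply Finset.sum_congr rfl
      intro i hi
      exact s.gbd i (Finset.mem_range.1 hi) w hw
    rw [this, Finset.sum_sub_distrib]
    ring
  · intro q hq
    obtain ⟨i, hi, rfl⟩ := List.mem_map.1 hq
    rw [List.mem_range'_1] at hi
    exact s.A.H.pS i (by omega)
  · simp only [List.length_map, List.length_range']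
    omega
  · rw [List.pairwise_map]
    have h1 : (List.range' 1 (h - 1)).Pairwise (· < ·) := List.pairwise_lt_range'
    refine (List.Pairwise.and_mem.1 h1).imp ?_
    rintro a b ⟨ha, hb, hab⟩
    rw [List.mem_range'_1] at ha hb
    exact s.A.H.tri 0 a b (by omega) hab (by omega)
  · intro e he q hq
    rw [hull_pairs p (by omega) s.A.H.clo] at he
    obtain ⟨i, hi, rfl⟩ := he
    exact s.A.H.ell_nonneg hi hq

theorem pairs_sublist {α : Type*} : ∀ {l : List α} {e : α × α}, e ∈ pairs l →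
    [e.1, e.2].Sublist l
  | [], e, he => by simp at he
  | [_], e, he => by simp at he
  | (x :: y :: l), e, he => by
    rw [pairs_cons] at he
    rcases List.mem_cons.1 he with he2 | he2
    · subst he2
      exact List.Sublist.cons_cons _ (List.Sublist.cons_cons _ (List.nil_sublist _))
    · exact (pairs_sublist he2).cons _

theorem head_sublist {α : Type*} {x a b c : α} {T : List α} (hn : (x :: T).Nodup)
    (hs : [a, b, c].Sublist (x :: T)) (hx : a = x ∨ b = x ∨ c = x) : a = x ∧ [b, c].Sublist T := by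
  rw [List.nodup_cons] at hn
  cases hs with
  | cons _ h =>
    exfalso
    apply hn.1
    apply h.subset
    simp only [List.mem_cons, List.not_mem_nil, or_false]
    rcases hx with h | h | h
    · exact Or.inl h.symm
    · exact Or.inr (Or.inl h.symm)
    · exact Or.inr (Or.inr h.symm)
  | cons_cons _ h => exact ⟨rfl, h⟩

theorem last_sublist {α : Type*} {x a b c : α} {T : List α} (hn : (T ++ [x]).Nodup)
    (hs : [a, b, c].Sublist (T ++ [x])) (hx : a = x ∨ b = x ∨ c = x) :
    c = x ∧ [a, b].Sublist T := by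
  have h1 : [c, b, a].Sublist (x :: T.reverse) := by
    have := hs.reverse
    simpa using this
  have h2 : (x :: T.reverse).Nodup := by
    have := List.nodup_reverse.2 hn
    simpa using this
  obtain ⟨h3, h4⟩ := head_sublist h2 h1 (by tauto)
  refine ⟨h3, ?_⟩
  have := h4.reverse
  simpa using this

theorem pairwise_two {α : Type*} {R : α → α → Prop} {T : List α} (h : T.Pairwise R) {a b : α}
    (hs : [a, b].Sublist T) : R a b := by
  have := h.sublist hs
  simpa using this

theorem fan_left {x y : P} {D : List P}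
    (hp : (D ++ [y]).Pairwise (fun a b => o x a b < 0)) :
    ∃ G : List (P × P × P), (∀ t ∈ G, 0 < o t.1 t.2.1 t.2.2) ∧
      (∀ t ∈ G, CycInc (x :: (D ++ [y])) (sw t)) ∧
      (∀ t ∈ G, TyRev Ty.fanL x y t.1 t.2.1 t.2.2) ∧
      ∀ w : P → P → ℝ, (∀ u v, w v u = - w u v) →
        bds w G = w x y - path w (x :: (D ++ [y])) := by
  refine ⟨((pairs (D ++ [y])).map (fun e => (x, e.1, e.2))).map sw, ?_, ?_, ?_, ?_⟩
  · intro t ht
    rw [List.map_map] at ht
    obtain ⟨e, he, rfl⟩ := List.mem_map.1 ht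
    have := pairs_pairwise hp e he
    show 0 < o x e.2 e.1
    rw [o_swap23]; linarith
  · intro t ht
    rw [List.map_map] at ht
    obtain ⟨e, he, rfl⟩ := List.mem_map.1 ht
    refine ⟨_, List.IsRotated.refl _, ?_⟩
    exact List.Sublist.cons_cons _ (pairs_sublist he)
  · intro t ht
    rw [List.map_map] at ht
    obtain ⟨e, he, rfl⟩ := List.mem_map.1 ht
    exact Or.inl rfl
  · intro w hw
    rw [bds_sw w hw]
    have h1 := path_fan w hw x (D ++ [y]) (by simp)
    have h2 : x :: ((D ++ [y]) ++ [x]) = (x :: D) ++ y :: [x] := by simp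
    rw [h2, path_append] at h1
    have h3 : (x :: D) ++ [y] = x :: (D ++ [y]) := rfl
    rw [h3] at h1
    unfold bds
    rw [List.map_map]
    have h4 : ((fun f : P × P × P => w f.1 f.2.1 + w f.2.1 f.2.2 + w f.2.2 f.1) ∘
        fun e : P × P => (x, e.1, e.2)) = fun e => w x e.1 + w e.1 e.2 + w e.2 x := rfl
    rw [h4, ← h1]
    simp only [path_cons, path_one]
    rw [hw x y]
    ring

theorem fan_right {x y : P} {D : List P}
    (hp : (x :: D).Pairwise (fun a b => o y a b < 0)) :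
    ∃ G : List (P × P × P), (∀ t ∈ G, 0 < o t.1 t.2.1 t.2.2) ∧
      (∀ t ∈ G, CycInc (x :: (D ++ [y])) (sw t)) ∧
      (∀ t ∈ G, TyRev Ty.fanR x y t.1 t.2.1 t.2.2) ∧
      ∀ w : P → P → ℝ, (∀ u v, w v u = - w u v) →
        bds w G = w x y - path w (x :: (D ++ [y])) := by
  refine ⟨((pairs (x :: D)).map (fun e => (y, e.1, e.2))).map sw, ?_, ?_, ?_, ?_⟩
  · intro t ht
    rw [List.map_map] at ht
    obtain ⟨e, he, rfl⟩ := List.mem_map.1 ht
    have := pairs_pairwise hp e he
    show 0 < o y e.2 e.1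
    rw [o_swap23]; linarith
  · intro t ht
    rw [List.map_map] at ht
    obtain ⟨e, he, rfl⟩ := List.mem_map.1 ht
    refine ⟨[y] ++ (x :: D), ?_, ?_⟩
    · have : x :: (D ++ [y]) = (x :: D) ++ [y] := rfl
      rw [this]
      exact List.isRotated_append
    · exact List.Sublist.cons_cons _ (pairs_sublist he)
  · intro t ht
    rw [List.map_map] at ht
    obtain ⟨e, he, rfl⟩ := List.mem_map.1 ht
    exact Or.inl rfl
  · intro w hw
    rw [bds_sw w hw]
    have h1 := path_fan w hw y (x :: D) (by simp)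
    have h2 : y :: ((x :: D) ++ [y]) = y :: x :: (D ++ [y]) := rfl
    rw [h2, path_cons] at h1
    unfold bds
    rw [List.map_map]
    have h4 : ((fun f : P × P × P => w f.1 f.2.1 + w f.2.1 f.2.2 + w f.2.2 f.1) ∘
        fun e : P × P => (y, e.1, e.2)) = fun e => w y e.1 + w e.1 e.2 + w e.2 y := rfl
    rw [h4, ← h1, hw x y]
    ring

/-- Initial chains: convex chains for the concave type, and radially sorted chains for fans. -/
theorem AData.exists_chain (A : AData S h p Y) (ty : ℕ → Ty) {i : ℕ} (hi : i < h) :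
    ∃ D : List P, D.Nodup ∧ (∀ z ∈ D, z ∈ Y i) ∧ Sep2 (p i :: (D ++ [p (i + 1)])) ∧
      (∀ a b c, [a, b, c].Sublist (p i :: (D ++ [p (i + 1)])) →
        TyRev (ty i) (p i) (p (i + 1)) a b c → o a b c < 0) ∧
      (ty i = Ty.concave → Trip (fun x y z => o x y z < 0) (p i :: (D ++ [p (i + 1)])) ∧
        ∀ e ∈ pairs (p i :: (D ++ [p (i + 1)])), ∀ z ∈ Y i, z ∉ D → o e.1 e.2 z < 0) ∧
      (ty i ≠ Ty.concave → (∀ z ∈ Y i, z ∈ D) ∧ ∃ G : List (P × P × P),
        (∀ t ∈ G, 0 < o t.1 t.2.1 t.2.2) ∧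
        (∀ t ∈ G, CycInc (p i :: (D ++ [p (i + 1)])) (sw t)) ∧
        (∀ t ∈ G, TyRev (ty i) (p i) (p (i + 1)) t.1 t.2.1 t.2.2) ∧
        ∀ w : P → P → ℝ, (∀ u v, w v u = - w u v) →
          bds w G = w (p i) (p (i + 1)) - path w (p i :: (D ++ [p (i + 1)]))) := by
  classical
  have hYpos : ∀ z ∈ Y i, 0 < o (p i) (p (i + 1)) z := fun z hz =>
    A.H.edge i hi z (A.YS i hi z hz) (A.Yp i hi z hz i (by omega))
      (A.Yp i hi z hz (i + 1) (by omega))
  have hnod : ∀ D : List P, D.Nodup → (∀ z ∈ D, z ∈ Y i) → (p i :: (D ++ [p (i + 1)])).Nodup := by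
    intro D hD hDY
    rw [List.nodup_cons, List.nodup_append]
    refine ⟨?_, hD, by simp, ?_⟩
    · intro hm
      rcases List.mem_append.1 hm with hm | hm
      · exact A.Yp i hi _ (hDY _ hm) i (by omega) rfl
      · exact A.H.adj hi (List.mem_singleton.1 hm)
    · intro a ha b hb
      rw [List.mem_singleton.1 hb]
      exact A.Yp i hi _ (hDY _ ha) (i + 1) (by omega)
  cases hty : ty i with
  | concave =>
    set T : Finset P := insert (p i) (insert (p (i + 1)) (Y i)) with hT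
    have hTS : T ⊆ S := by
      intro z hz
      simp only [hT, Finset.mem_insert] at hz
      rcases hz with rfl | rfl | hz
      · exact A.H.pS i (by omega)
      · exact A.H.pS (i + 1) (by omega)
      · exact A.YS i hi z hz
    obtain ⟨D, h1, h2, h3, h4⟩ := raw_chain T
      (fun a ha b hb c hc => A.H.gp a (hTS ha) b (hTS hb) c (hTS hc)) (p i) (p (i + 1))
      (hv_mono hTS (A.H.ext i (by omega)) (by simp [hT]))
      (hv_mono hTS (A.H.ext (i + 1) (by omega)) (by simp [hT])) (A.H.adj hi)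
      (fun z hz => A.H.edge i hi z (hTS hz))
    have h1' := h1
    rw [List.nodup_cons, List.nodup_append] at h1'
    refine ⟨D, h1'.2.1, ?_, sep2_of_trip _ (by simp) h3, fun a b c hs _ => Trip.three h3 hs,
      fun _ => ⟨h3, ?_⟩, fun hc => absurd rfl hc⟩
    · intro z hz
      have hzT := h2 z hz
      simp only [hT, Finset.mem_insert] at hzT
      rcases hzT with rfl | rfl | hz'
      · exact absurd (List.mem_append_left _ hz) h1'.1
      · exact absurd rfl (h1'.2.2.2 _ hz _ (by simp))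
      · exact hz'
    · intro e he z hz hzD
      refine h4 e he z (by simp [hT, hz]) ?_
      simp only [List.mem_cons, List.mem_append, List.not_mem_nil, or_false, not_or]
      exact ⟨A.Yp i hi z hz i (by omega), hzD, A.Yp i hi z hz (i + 1) (by omega)⟩
  | fanL =>
    obtain ⟨L0, hn, hm, hp⟩ := exists_sorted (p i) (p (i + 1)) (Y i).card (Y i) rfl hYpos (by
      intro x hx y hy hxy
      exact A.H.gp _ (A.H.pS i (by omega)) _ (A.YS i hi x hx) _ (A.YS i hi y hy)
        (Ne.symm (A.Yp i hi x hx i (by omega))) (Ne.symm (A.Yp i hi y hy i (by omega))) hxy)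
    have hD : L0.reverse.Nodup := List.nodup_reverse.2 hn
    have hDY : ∀ z ∈ L0.reverse, z ∈ Y i := fun z hz => (hm z).1 (List.mem_reverse.1 hz)
    have hnd := hnod _ hD hDY
    have hpw : (L0.reverse ++ [p (i + 1)]).Pairwise (fun a b => o (p i) a b < 0) := by
      have e1 : L0.reverse ++ [p (i + 1)] = (p (i + 1) :: L0).reverse := by simp
      rw [e1, List.pairwise_reverse, List.pairwise_cons]
      refine ⟨?_, hp.imp ?_⟩
      · intro a ha
        have := hYpos a ((hm a).1 ha)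
        rw [o_swap23]; linarith
      · intro a b hab
        rw [o_swap23]; linarith
    refine ⟨L0.reverse, hD, hDY, sep2_fanL _ _ (by simp) hpw, ?_, fun hc => ?_, fun _ => ⟨?_, ?_⟩⟩
    · intro a b c hs hr
      obtain ⟨rfl, h2⟩ := head_sublist hnd hs hr
      exact pairwise_two hpw h2
    · exact absurd hc (by simp)
    · intro z hz
      exact List.mem_reverse.2 ((hm z).2 hz)
    · exact fan_left hpw
  | fanR =>
    obtain ⟨L0, hn, hm, hp⟩ := exists_sorted (p (i + 1)) (rp (p (i + 1)) (p i)) (Y i).card (Y i)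
      rfl (by
      intro x hx
      rw [o_rp]
      have := hYpos x hx
      rw [o_swap12]; linarith) (by
      intro x hx y hy hxy
      exact A.H.gp _ (A.H.pS (i + 1) (by omega)) _ (A.YS i hi x hx) _ (A.YS i hi y hy)
        (Ne.symm (A.Yp i hi x hx (i + 1) (by omega)))
        (Ne.symm (A.Yp i hi y hy (i + 1) (by omega))) hxy)
    have hD : L0.reverse.Nodup := List.nodup_reverse.2 hn
    have hDY : ∀ z ∈ L0.reverse, z ∈ Y i := fun z hz => (hm z).1 (List.mem_reverse.1 hz)
    have hnd := hnod _ hD hDY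
    have hpw : (p i :: L0.reverse).Pairwise (fun a b => o (p (i + 1)) a b < 0) := by
      rw [List.pairwise_cons, List.pairwise_reverse]
      refine ⟨?_, hp.imp ?_⟩
      · intro a ha
        have := hYpos a (hDY a ha)
        rw [o_swap12]; linarith
      · intro a b hab
        rw [o_swap23]; linarith
    refine ⟨L0.reverse, hD, hDY, sep2_fanR _ _ (by simp) hpw, ?_, fun hc => ?_, fun _ => ⟨?_, ?_⟩⟩
    · intro a b c hs hr
      obtain ⟨rfl, h2⟩ := last_sublist (T := p i :: L0.reverse) hnd hs hr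
      have := pairwise_two hpw h2
      rw [o_cyc'] at this
      exact this
    · exact absurd hc (by simp)
    · intro z hz
      exact List.mem_reverse.2 ((hm z).2 hz)
    · exact fan_right hpw

/-- Everything is set up: concave chains are raw, the other chains are complete. -/
theorem AData.exists_init (A : AData S h p Y) (ty : ℕ → Ty) : ∃ E F G, St S h p Y ty E F G ∧
    ∀ i < h, (ty i = Ty.concave → Raw p Y E i) ∧ (ty i ≠ Ty.concave → ∀ z ∈ Y i, z ∈ E i) := by
  classical
  have hh := A.H.h3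
  have hex : ∀ i, ∃ D : List P, i < h → D.Nodup ∧ (∀ z ∈ D, z ∈ Y i) ∧
      Sep2 (p i :: (D ++ [p (i + 1)])) ∧
      (∀ a b c, [a, b, c].Sublist (p i :: (D ++ [p (i + 1)])) →
        TyRev (ty i) (p i) (p (i + 1)) a b c → o a b c < 0) ∧
      (ty i = Ty.concave → Trip (fun x y z => o x y z < 0) (p i :: (D ++ [p (i + 1)])) ∧
        ∀ e ∈ pairs (p i :: (D ++ [p (i + 1)])), ∀ z ∈ Y i, z ∉ D → o e.1 e.2 z < 0) ∧
      (ty i ≠ Ty.concave → (∀ z ∈ Y i, z ∈ D) ∧ ∃ G : List (P × P × P),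
        (∀ t ∈ G, 0 < o t.1 t.2.1 t.2.2) ∧
        (∀ t ∈ G, CycInc (p i :: (D ++ [p (i + 1)])) (sw t)) ∧
        (∀ t ∈ G, TyRev (ty i) (p i) (p (i + 1)) t.1 t.2.1 t.2.2) ∧
        ∀ w : P → P → ℝ, (∀ u v, w v u = - w u v) →
          bds w G = w (p i) (p (i + 1)) - path w (p i :: (D ++ [p (i + 1)]))) := by
    intro i
    by_cases hi : i < h
    · obtain ⟨D, hD⟩ := A.exists_chain ty hi
      exact ⟨D, fun _ => hD⟩
    · exact ⟨[], fun h => absurd h hi⟩
  choose E hE using hex
  have hE1 : ∀ i < h, (E i).Nodup := fun i hi => (hE i hi).1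
  have hEY : ∀ i < h, ∀ z ∈ E i, z ∈ Y i := fun i hi => (hE i hi).2.1
  have hsep : ∀ i < h, Sep2 (Lc p E i) := fun i hi => (hE i hi).2.2.1
  obtain ⟨F, hF, hb⟩ := A.core hE1 hEY hsep
  have hpk : ∀ i, ∃ G : List (P × P × P), i < h →
      (∀ t ∈ G, 0 < o t.1 t.2.1 t.2.2) ∧ (∀ t ∈ G, CycInc (Lc p E i) (sw t)) ∧
      (∀ t ∈ G, Rev ty p E i t.1 t.2.1 t.2.2) ∧
      ∀ w : P → P → ℝ, (∀ x y, w y x = - w x y) →
        bds w G = w (p i) (p (i + 1)) - path w (Lc p E i) := by
    intro i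
    by_cases hi : i < h
    · by_cases hty : ty i = Ty.concave
      · obtain ⟨G, h1, h2⟩ := A.pocket hE1 hEY hi (hsep i hi)
        refine ⟨G, fun _ => ⟨fun t ht => (h1 t ht).1, fun t ht => (h1 t ht).2, ?_, h2⟩⟩
        intro t ht
        obtain ⟨m1, m2, m3⟩ := (h1 t ht).2.mem
        refine ⟨⟨m1, m3, m2⟩, ?_⟩
        rw [hty]
        trivial
      · obtain ⟨_, G, h1, h2, h3, h4⟩ := (hE i hi).2.2.2.2.2 hty
        refine ⟨G, fun _ => ⟨h1, h2, ?_, h4⟩⟩
        intro t ht
        obtain ⟨m1, m2, m3⟩ := (h2 t ht).mem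
        exact ⟨⟨m1, m3, m2⟩, h3 t ht⟩
    · exact ⟨[], fun h => absurd h hi⟩
  choose G hG using hpk
  refine ⟨E, F, G, ⟨A, hE1, hEY, hsep, fun t ht => (hF t ht).2, fun t ht => (hF t ht).1, ?_, hb,
    fun i hi => (hG i hi).1, fun i hi => (hG i hi).2.1, fun i hi => (hG i hi).2.2.1,
    fun i hi => (hG i hi).2.2.2⟩, fun i hi => ⟨fun hty => (hE i hi).2.2.2.2.1 hty,
    fun hty => ((hE i hi).2.2.2.2.2 hty).1⟩⟩
  rintro t ht i hi ⟨⟨h1, h2, h3⟩, hrev⟩
  obtain ⟨R, hR⟩ := Wl_rot (p := p) (E := E) (by omega) A.H.clo hi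
  have hrot := hR E (fun _ _ => rfl)
  have hcyc := cyc_in (A.wl_nodup hE1 hEY h le_rfl) hrot (hF t ht).1 h1 h2 h3
  have hpos := (hF t ht).2
  have hrot1 : TyRev (ty i) (p i) (p (i + 1)) t.2.1 t.2.2 t.1 := hrev.rot
  have hrot2 : TyRev (ty i) (p i) (p (i + 1)) t.2.2 t.1 t.2.1 := hrev.rot.rot
  rcases cycInc_cases hcyc with hs | hs | hs
  · have := (hE i hi).2.2.2.1 _ _ _ hs hrev
    linarith
  · have := (hE i hi).2.2.2.1 _ _ _ hs hrot1
    rw [o_cyc] at this
    linarith
  · have := (hE i hi).2.2.2.1 _ _ _ hs hrot2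
    rw [o_cyc'] at this
    linarith

theorem path_getD {ι : Type*} (w : ι → ι → ℝ) (d : ι) : ∀ l : List ι,
    path w l = ∑ s ∈ Finset.range (l.length - 1), w (l.getD s d) (l.getD (s + 1) d)
  | [] => by simp
  | [_] => by simp
  | (a :: b :: l) => by
    rw [path_cons, path_getD w d (b :: l)]
    have e1 : (a :: b :: l).length - 1 = ((b :: l).length - 1) + 1 := by simp
    rw [e1, Finset.sum_range_succ']
    simp only [List.getD_cons_zero, List.getD_cons_succ]
    ring

theorem map_getD {α : Type*} (d : α) : ∀ (l r : List α),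
    (List.range l.length).map (fun s => (l ++ r).getD s d) = l
  | [], r => by simp
  | (a :: l), r => by
    rw [List.length_cons, List.range_succ_eq_map, List.map_cons, List.map_map]
    have := map_getD d l r
    simp only [List.cons_append, List.getD_cons_zero, Function.comp_def,
      List.getD_cons_succ]
    rw [this]

theorem opn_rot (a b c : P) : opn b c a = opn a b c := by
  ext z
  unfold opn
  simp only [Set.mem_ofPred_eq]
  tauto

theorem o_ext (a b c z : P) (ε : ℝ) :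
    o a b ((1 + ε) * c.1 - ε * z.1, (1 + ε) * c.2 - ε * z.2) = (1 + ε) * o a b c - ε * o a b z := by
  unfold o; ring

theorem exists_eps {A B A' B' : ℝ} (hA : 0 < A) (hA' : 0 < A') :
    ∃ ε : ℝ, 0 < ε ∧ 0 < (1 + ε) * A - ε * B ∧ 0 < (1 + ε) * A' - ε * B' := by
  have key : ∀ A B ε : ℝ, 0 < A → 0 < ε → ε ≤ A / (|B| + 1) → 0 < (1 + ε) * A - ε * B := by
    intro A B ε hA hε hle
    have h1 : ε * (|B| + 1) ≤ A := by
      rwa [le_div_iff₀ (by positivity)] at hle
    have h2 : ε * B ≤ ε * |B| := mul_le_mul_of_nonneg_left (le_abs_self B) hε.le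
    have h3 := mul_pos hε hA
    nlinarith
  refine ⟨min (A / (|B| + 1)) (A' / (|B'| + 1)), ?_, ?_, ?_⟩
  · apply lt_min <;> positivity
  · exact key _ _ _ hA (by apply lt_min <;> positivity) (min_le_left _ _)
  · exact key _ _ _ hA' (by apply lt_min <;> positivity) (min_le_right _ _)

/-- Two faces at consecutive chain edges cannot overlap behind the vertex. -/
theorem overlap {u c v w w' z : P} (h1 : 0 < o u c w) (h2 : 0 < o c v w') (h3 : o u c z < 0)
    (h4 : o c v z < 0) (h5 : o c w z < 0) (h6 : 0 < o c w' z) :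
    ∃ q, q ∈ opn u c w ∧ q ∈ opn c v w' := by
  have a1 : 0 < o w u c := by rw [o_cyc']; exact h1
  have a2 : 0 < o v w' c := by rw [o_cyc]; exact h2
  obtain ⟨ε, hε, e1, e2⟩ := exists_eps (B := o w u z) (B' := o v w' z) a1 a2
  refine ⟨((1 + ε) * c.1 - ε * z.1, (1 + ε) * c.2 - ε * z.2), ⟨?_, ?_, ?_⟩, ⟨?_, ?_, ?_⟩⟩
  · rw [o_ext, o_self23]
    nlinarith [mul_pos hε (neg_pos.2 h3)]
  · rw [o_ext, o_self13]
    nlinarith [mul_pos hε (neg_pos.2 h5)]
  · rw [o_ext]; exact e1
  · rw [o_ext, o_self13]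
    nlinarith [mul_pos hε (neg_pos.2 h4)]
  · rw [o_ext]; exact e2
  · rw [o_ext, o_self23]
    have : o w' c z = - o c w' z := o_swap12 _ _ _
    nlinarith [mul_pos hε h6]

end Pool.Agent.Helper111_GDC
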