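import Pool.Agent.Helper111_GDC.Step

set_option autoImplicit false

/-!
The processing step.
-/

namespace Pool.Agent.Helper111_GDC

open Pool.Agent.Helper111_Chain

variable {S : Finset P} {h : ℕ} {p : ℕ → P} {Y : ℕ → Finset P} {ty : ℕ → Ty} {E : ℕ → List P}
  {F : List (P × P × P)} {G : ℕ → List (P × P × P)}

theorem St.not_wl (s : St S h p Y ty E F G) {i : ℕ} (hi : i < h) {z : P} (hz : z ∈ Y i)
    (hzE : z ∉ E i) : z ∉ Wl p E h := by
  intro hm
  obtain ⟨j, hj, h1⟩ := mem_Wl.1 hm
  rcases h1 with h1 | h1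
  · exact s.A.Yp i hi z hz j (by omega) h1
  · by_cases hij : i = j
    · subst hij; exact hzE h1
    · exact s.A.Yd i hi j hj hij z hz (s.EY j hj z h1)

theorem lc_sub_wl {i : ℕ} (hi : i < h) (hp : p h = p 0) (hh : 0 < h) {z : P}
    (hz : z ∈ Lc p E i) : z ∈ Wl p E h := by
  unfold Lc at hz
  simp only [List.mem_cons, List.mem_append, List.not_mem_nil, or_false] at hz
  rw [mem_Wl]
  rcases hz with hz | hz | hz
  · exact ⟨i, hi, Or.inl hz⟩
  · exact ⟨i, hi, Or.inr hz⟩
  · rcases Nat.lt_or_ge (i + 1) h with h1 | h1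
    · exact ⟨i + 1, h1, Or.inl hz⟩
    · have : i + 1 = h := by omega
      rw [this, hp] at hz
      exact ⟨0, hh, Or.inl hz⟩

/-- The faces of the core along the chain `i`. -/
theorem St.apex (s : St S h p Y ty E F G) {i : ℕ} (hi : i < h) (hty : ty i = Ty.concave) {u v : P}
    (huv : (u, v) ∈ pairs (Lc p E i)) :
    ∃ (t : P × P × P) (w : P), t ∈ F ∧
      (t = (u, v, w) ∨ t = (w, u, v) ∨ t = (v, w, u)) ∧ 0 < o u v w ∧ w ∈ Wl p E h ∧
      w ∉ Lc p E i := by
  have hh := s.A.H.h3
  have hsim := s.A.simP s.nd s.EY s.sep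
  have hmem : (u, v) ∈ pairs (clo (Wl p E h)) := by
    rw [clo_Wl (by omega) s.A.H.clo, Wl_pairs]
    exact ⟨i, hi, huv⟩
  obtain ⟨m1, m2⟩ := mem_of_pairs huv
  have hne : u ≠ v := pairs_pairwise (s.A.lc_nodup s.nd s.EY hi) _ huv
  obtain ⟨t, ht, hcase⟩ := exists_face (F := F) (L := pairs (clo (Wl p E h))) (u := u) (v := v)
    (by rw [s.fbd _ (iw_anti u v), cpath_clo, path_eq]) hmem (edge_not_rev hsim hmem hne)
  have hpos := s.fpos t ht
  obtain ⟨c1, c2, c3⟩ := (s.fcyc t ht).mem
  have hmix : ¬ (t.1 ∈ Lc p E i ∧ t.2.1 ∈ Lc p E i ∧ t.2.2 ∈ Lc p E i) := by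
    intro hc
    refine s.fmix t ht i hi ⟨hc, ?_⟩
    rw [hty]
    trivial
  obtain ⟨x, y, z⟩ := t
  simp only at hpos c1 c2 c3 hmix hcase
  rcases hcase with ⟨rfl, rfl⟩ | ⟨rfl, rfl⟩ | ⟨rfl, rfl⟩
  · exact ⟨_, z, ht, Or.inl rfl, hpos, c3, fun hz => hmix ⟨m1, m2, hz⟩⟩
  · exact ⟨_, x, ht, Or.inr (Or.inl rfl), by rw [o_cyc]; exact hpos, c1,
      fun hz => hmix ⟨hz, m1, m2⟩⟩
  · exact ⟨_, y, ht, Or.inr (Or.inr rfl), by rw [o_cyc']; exact hpos, c2,
      fun hz => hmix ⟨m2, hz, m1⟩⟩

theorem perm_split {α : Type*} {T F : List α} (hn : T.Nodup) (hs : ∀ t ∈ T, t ∈ F) :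
    ∃ R : List α, F.Perm (T ++ R) := by
  classical
  have h1 : (T : Multiset α) ≤ (F : Multiset α) := by
    rw [Multiset.coe_le]
    exact List.subperm_of_subset hn hs
  obtain ⟨u, hu⟩ := Multiset.le_iff_exists_add.1 h1
  refine ⟨u.toList, ?_⟩
  rw [← Multiset.coe_eq_coe, ← Multiset.coe_add, Multiset.coe_toList]
  exact hu

theorem bds_perm {ι : Type*} (w : ι → ι → ℝ) {F F' : List (ι × ι × ι)} (hp : F.Perm F') :
    bds w F = bds w F' := by
  unfold bds
  exact (hp.map _).sum_eq

theorem list_sum_range (f : ℕ → ℝ) : ∀ k : ℕ,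
    (List.map f (List.range k)).sum = ∑ a ∈ Finset.range k, f a
  | 0 => by simp
  | k + 1 => by
    rw [List.range_succ, List.map_append, List.sum_append, list_sum_range f k,
      Finset.sum_range_succ]
    simp

theorem St.step (s : St S h p Y ty E F G) {i : ℕ} (hi : i < h) (hty : ty i = Ty.concave)
    (hr : Raw p Y E i) :
    ∃ E' F' G', St S h p Y ty E' F' G' ∧ (∀ j, j ≠ i → E' j = E j) ∧ ∀ z ∈ Y i, z ∈ E' i := by
  classical
  have hh := s.A.H.h3
  by_cases hfull : ∀ z ∈ Y i, z ∈ E i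
  · exact ⟨E, F, G, s, fun _ _ => rfl, hfull⟩
  push Not at hfull
  obtain ⟨z0, hz0, hz0E⟩ := hfull
  set L := Lc p E i with hL
  set k := (E i).length + 1 with hk
  have hlen : L.length = k + 1 := by rw [hL]; unfold Lc; simp [hk]
  set v : ℕ → P := fun a => L.getD a (p i) with hv
  have hvL : ∀ j ≤ k, v j ∈ L := by
    intro j hj
    have : j < L.length := by omega
    show L.getD j (p i) ∈ L
    rw [List.getD_eq_getElem _ _ this]
    exact List.getElem_mem this
  have hv0 : v 0 = p i := rfl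
  have hvk : v k = p (i + 1) := by
    show (Lc p E i).getD k (p i) = p (i + 1)
    unfold Lc
    have e1 : p i :: (E i ++ [p (i + 1)]) = (p i :: E i) ++ [p (i + 1)] := rfl
    rw [e1, List.getD_append_right _ _ _ _ (by simp [hk])]
    simp [hk]
  have hnd : L.Nodup := s.A.lc_nodup s.nd s.EY hi
  have hvinj : ∀ a b, a < b → b ≤ k → v a ≠ v b := by
    intro a b hab hb e
    have ha' : a < L.length := by omega
    have hb' : b < L.length := by omega
    have : L.getD a (p i) = L.getD b (p i) := e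
    rw [List.getD_eq_getElem _ _ ha', List.getD_eq_getElem _ _ hb',
      List.Nodup.getElem_inj_iff hnd] at this
    omega
  have hvpair : ∀ a < k, (v a, v (a + 1)) ∈ pairs L := by
    intro a ha
    rw [mem_pairs_iff (p i)]
    exact ⟨a, by omega, rfl⟩
  have hpairL : ∀ e ∈ pairs L, ∃ a < k, e = (v a, v (a + 1)) := by
    intro e he
    rw [mem_pairs_iff (p i)] at he
    obtain ⟨a, ha, he⟩ := he
    exact ⟨a, by omega, he⟩
  have hex : ∀ a, ∃ (t : P × P × P) (w : P), a < k → t ∈ F ∧
      (t = (v a, v (a + 1), w) ∨ t = (w, v a, v (a + 1)) ∨ t = (v (a + 1), w, v a)) ∧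
      0 < o (v a) (v (a + 1)) w ∧ w ∈ Wl p E h ∧ w ∉ L := by
    intro a
    by_cases ha : a < k
    · obtain ⟨t, w, h1⟩ := s.apex hi hty (hvpair a ha)
      exact ⟨t, w, fun _ => h1⟩
    · exact ⟨(p i, p i, p i), p i, fun h => absurd h ha⟩
  choose tt w htw using hex
  set Q : Finset P := (Y i).filter (fun z => z ∉ E i) with hQ
  have hQmem : ∀ z, z ∈ Q ↔ z ∈ Y i ∧ z ∉ E i := by
    intro z; rw [hQ, Finset.mem_filter]
  have hQW : ∀ z ∈ Q, z ∉ Wl p E h := by
    intro z hz
    obtain ⟨h1, h2⟩ := (hQmem z).1 hz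
    exact s.not_wl hi h1 h2
  have hLW : ∀ z ∈ L, z ∈ Wl p E h := fun z hz => lc_sub_wl hi s.A.H.clo (by omega) hz
  have hQS : ∀ z ∈ Q, z ∈ S := fun z hz => s.A.YS i hi z ((hQmem z).1 hz).1
  have hLS : ∀ z ∈ L, z ∈ S := fun z hz => s.wlS (hLW z hz)
  have hpk : ∀ j < k, ∀ z ∈ Q, o (v j) (v (j + 1)) z < 0 := by
    intro j hj z hz
    obtain ⟨h1, h2⟩ := (hQmem z).1 hz
    exact hr.2 _ (hvpair j hj) z h1 h2
  have hQp : ∀ z ∈ Q, 0 < o (p i) (p (i + 1)) z := by
    intro z hz
    obtain ⟨h1, h2⟩ := (hQmem z).1 hz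
    exact s.A.H.edge i hi z (hQS z hz) (s.A.Yp i hi z h1 i (by omega))
      (s.A.Yp i hi z h1 (i + 1) (by omega))
  have hz0Q : z0 ∈ Q := (hQmem z0).2 ⟨hz0, hz0E⟩
  have hk2 : 2 ≤ k := by
    by_contra hc
    have hk1 : k = 1 := by omega
    have h1 := hpk 0 (by omega) z0 hz0Q
    have h2 : v (0 + 1) = p (i + 1) := by rw [← hvk, hk1]
    rw [hv0, h2] at h1
    have h3 := hQp z0 hz0Q
    linarith
  have hcov := s.cov
  have htt : ∀ a < k, ∀ b < k, a < b → tt a ≠ tt b := by
    intro a ha b hb hab e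
    obtain ⟨_, hca, _, _, hwa⟩ := htw a ha
    obtain ⟨_, hcb, _, _, hwb⟩ := htw b hb
    have h1 : v a = (tt a).1 ∨ v a = (tt a).2.1 ∨ v a = (tt a).2.2 := by
      rcases hca with h | h | h <;> rw [h] <;> simp
    have h2 : ∀ x, (x = (tt b).1 ∨ x = (tt b).2.1 ∨ x = (tt b).2.2) →
        x = v b ∨ x = v (b + 1) ∨ x = w b := by
      intro x hx
      rcases hcb with h | h | h <;> rw [h] at hx <;> simp only at hx <;> tauto
    rw [e] at h1
    rcases h2 _ h1 with h3 | h3 | h3
    · exact hvinj a b hab (by omega) h3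
    · exact hvinj a (b + 1) (by omega) (by omega) h3
    · rw [← h3] at hwb
      exact hwb (hvL a (by omega))
  have hopn : ∀ a < k, opn (tt a).1 (tt a).2.1 (tt a).2.2 = opn (v a) (v (a + 1)) (w a) := by
    intro a ha
    obtain ⟨_, hca, _⟩ := htw a ha
    rcases hca with h | h | h
    · rw [h]
    · rw [h]
      exact (opn_rot (w a) (v a) (v (a + 1))).symm
    · rw [h]
      exact opn_rot (v a) (v (a + 1)) (w a)
  have hchn : Chn S k v w Q := by
    refine ⟨s.A.H.gp, fun j hj => hLS _ (hvL j hj), fun j hj => s.wlS (htw j hj).2.2.2.1, hQS,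
      ?_, hvinj, fun j hj => (htw j hj).2.2.1, hpk, ?_, ?_⟩
    · intro a b c hab hbc hc
      exact Trip.getD (p i) hr.1 a b c hab hbc (by rw [← hL]; omega)
    · intro j hj a ha e
      apply (htw j hj).2.2.2.2
      rw [e]
      exact hvL a ha
    · rintro j hj0 hjk z hz ⟨h1, h2⟩
      have e1 : j - 1 + 1 = j := by omega
      have f1 := (htw (j - 1) (by omega)).2.2.1
      have f2 := (htw j hjk).2.2.1
      have g1 := hpk (j - 1) (by omega) z hz
      have g2 := hpk j hjk z hz
      rw [e1] at f1 g1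
      obtain ⟨q, hq1, hq2⟩ := overlap f1 f2 g1 g2 h1 h2
      have o1 := hopn (j - 1) (by omega)
      have o2 := hopn j hjk
      rw [e1] at o1
      rw [← o1] at hq1
      rw [← o2] at hq2
      have hd := hcov.disj (List.mem_append_left _ (htw (j - 1) (by omega)).1)
        (List.mem_append_left _ (htw j hjk).1) (htt (j - 1) (by omega) j hjk (by omega))
      have : q ∈ opn (tt (j - 1)).1 (tt (j - 1)).2.1 (tt (j - 1)).2.2 ∩
          opn (tt j).1 (tt j).2.1 (tt j).2.2 := ⟨hq1, hq2⟩
      rw [hd] at this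
      exact this
  have hXv : ∀ z ∈ Q, ∀ j ≤ k, z ≠ v j := by
    intro z hz j hj e
    apply hQW z hz
    rw [e]
    exact hLW _ (hvL j hj)
  have hXw : ∀ z ∈ Q, ∀ j < k, z ≠ w j := by
    intro z hz j hj e
    apply hQW z hz
    rw [e]
    exact (htw j hj).2.2.2.1
  have hposP : ∀ q ∈ S, q ≠ p i → q ≠ p (i + 1) → 0 < o (p i) (p (i + 1)) q :=
    fun q hq => s.A.H.edge i hi q hq
  have hwp : ∀ j < k, 0 < o (p i) (p (i + 1)) (w j) := by
    intro j hj
    apply hposP _ (s.wlS (htw j hj).2.2.2.1)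
    · intro e
      apply (htw j hj).2.2.2.2
      rw [e, ← hv0]
      exact hvL 0 (by omega)
    · intro e
      apply (htw j hj).2.2.2.2
      rw [e, ← hvk]
      exact hvL k le_rfl
  have hvp : ∀ j, 0 < j → j < k → 0 < o (p i) (p (i + 1)) (v j) := by
    intro j hj0 hjk
    apply hposP _ (hLS _ (hvL j (by omega)))
    · intro e
      rw [← hv0] at e
      exact hvinj 0 j hj0 (by omega) e.symm
    · intro e
      rw [← hvk] at e
      exact hvinj j k hjk le_rfl e
  have hlow : ∀ z ∈ Q, o (v 0) (w 0) z < 0 := by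
    intro z hz
    have a1 := hvp 1 (by omega) (by omega)
    have a2 := hQp z hz
    have a3 := (htw 0 (by omega)).2.2.1
    have a4 := hwp 0 (by omega)
    have a5 := hpk 0 (by omega) z hz
    have gp := o_gp (p i) (p (i + 1)) (v 1) z (w 0)
    rw [hv0] at a3 a5 ⊢
    have e0 : v (0 + 1) = v 1 := rfl
    rw [e0] at a3 a5
    have h1 : 0 < o (p i) (p (i + 1)) (v 1) * o (p i) z (w 0) := by
      rw [gp]
      nlinarith [mul_pos a2 a3, mul_pos a4 (neg_pos.2 a5)]
    have h2 := (mul_pos_iff_of_pos_left a1).1 h1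
    rw [o_swap23]; linarith
  have hup : ∀ z ∈ Q, 0 < o (v k) (w (k - 1)) z := by
    intro z hz
    have e1 : k - 1 + 1 = k := by omega
    have a1 := hvp (k - 1) (by omega) (by omega)
    have a2 := hQp z hz
    have a3 := (htw (k - 1) (by omega)).2.2.1
    have a4 := hwp (k - 1) (by omega)
    have a5 := hpk (k - 1) (by omega) z hz
    rw [e1, hvk] at a3 a5
    rw [hvk]
    have gp := o_gp (p (i + 1)) (p i) (v (k - 1)) z (w (k - 1))
    have b1 : o (p (i + 1)) (p i) (v (k - 1)) = - o (p i) (p (i + 1)) (v (k - 1)) :=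
      o_swap12 _ _ _
    have b2 : o (p (i + 1)) (p i) z = - o (p i) (p (i + 1)) z := o_swap12 _ _ _
    have b3 : o (p (i + 1)) (v (k - 1)) (w (k - 1)) = - o (v (k - 1)) (p (i + 1)) (w (k - 1)) :=
      o_swap12 _ _ _
    have b4 : o (p (i + 1)) (p i) (w (k - 1)) = - o (p i) (p (i + 1)) (w (k - 1)) :=
      o_swap12 _ _ _
    have b5 : o (p (i + 1)) (v (k - 1)) z = - o (v (k - 1)) (p (i + 1)) z := o_swap12 _ _ _
    rw [b1, b2, b3, b4, b5] at gp
    have h1 : 0 < o (p i) (p (i + 1)) (v (k - 1)) * (- o (p (i + 1)) z (w (k - 1))) := by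
      have : o (p i) (p (i + 1)) (v (k - 1)) * (- o (p (i + 1)) z (w (k - 1))) =
          - o (p i) (p (i + 1)) (v (k - 1)) * o (p (i + 1)) z (w (k - 1)) := by ring
      rw [this, gp]
      nlinarith [mul_pos a2 a3, mul_pos a4 (neg_pos.2 a5)]
    have h2 := (mul_pos_iff_of_pos_left a1).1 h1
    rw [o_swap23]; linarith
  obtain ⟨M, Fn, n1, m1, l1, s1, p1, _, b1⟩ := hchn.push hXv hXw k 0 k (by omega) (by omega)
    le_rfl Q (fun z hz => hz) hlow hup
  -- the new chain
  set E' : ℕ → List P := Function.update E i M with hE'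
  have hE'i : E' i = M := by rw [hE']; simp
  have hE'j : ∀ j, j ≠ i → E' j = E j := by
    intro j hj
    rw [hE']
    exact Function.update_of_ne hj _ _
  have hLi : Lc p E' i = v 0 :: (M ++ [v k]) := by
    unfold Lc
    rw [hE'i, hv0, hvk]
  have hLj : ∀ j, j ≠ i → Lc p E' j = Lc p E j := by
    intro j hj
    unfold Lc
    rw [hE'j j hj]
  have hvE : ∀ j, 0 < j → j < k → v j ∈ E i := by
    intro j hj0 hjk
    have h1 := hvL j (by omega)
    rw [hL] at h1
    unfold Lc at h1
    simp only [List.mem_cons, List.mem_append, List.not_mem_nil, or_false] at h1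
    rcases h1 with h1 | h1 | h1
    · rw [← hv0] at h1
      exact absurd h1.symm (hvinj 0 j hj0 (by omega))
    · exact h1
    · rw [← hvk] at h1
      exact absurd h1 (hvinj j k hjk le_rfl)
  have hMY : ∀ z ∈ M, z ∈ Y i := by
    intro z hz
    rcases (m1 z).1 hz with h1 | ⟨j, h1, h2, rfl⟩
    · exact ((hQmem z).1 h1).1
    · exact s.EY i hi _ (hvE j h1 h2)
  have hnd' : ∀ j < h, (E' j).Nodup := by
    intro j hj
    by_cases hij : j = i
    · subst hij; rw [hE'i]; exact n1
    · rw [hE'j j hij]; exact s.nd j hj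
  have hEY' : ∀ j < h, ∀ z ∈ E' j, z ∈ Y j := by
    intro j hj
    by_cases hij : j = i
    · subst hij; rw [hE'i]; exact hMY
    · rw [hE'j j hij]; exact s.EY j hj
  have hsep' : ∀ j < h, Sep2 (Lc p E' j) := by
    intro j hj
    by_cases hij : j = i
    · subst hij; rw [hLi]; exact s1
    · rw [hLj j hij]; exact s.sep j hj
  -- old chain members inside the new chain
  have hLsub : L.Sublist (Lc p E' i) := by
    have e1 : (List.range' 0 (k - 0)).map v = p i :: E i := by
      have e2 : (List.range (p i :: E i).length).map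
          (fun a => ((p i :: E i) ++ [p (i + 1)]).getD a (p i)) = p i :: E i := map_getD _ _ _
      have e3 : k - 0 = (p i :: E i).length := by simp [hk]
      rw [e3, ← List.range_eq_range']
      exact e2
    rw [e1] at l1
    have e4 : L = (p i :: E i) ++ [p (i + 1)] := rfl
    have e5 : Lc p E' i = (v 0 :: M) ++ [p (i + 1)] := by rw [hLi, hvk]; rfl
    rw [e4, e5]
    exact l1.append (List.Sublist.refl _)
  have hnewL : ∀ z ∈ Lc p E' i, z ∈ Wl p E h → z ∈ L := by
    intro z hz hzW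
    rw [hLi] at hz
    simp only [List.mem_cons, List.mem_append, List.not_mem_nil, or_false] at hz
    rcases hz with hz | hz | hz
    · rw [hz]; exact hvL 0 (by omega)
    · rcases (m1 z).1 hz with h1 | ⟨j, h1, h2, rfl⟩
      · exact absurd hzW (hQW z h1)
      · exact hvL j (by omega)
    · rw [hz]; exact hvL k le_rfl
  obtain ⟨R, hR⟩ := Wl_rot (p := p) (E := E) (by omega) s.A.H.clo hi
  have hrot := hR E (fun _ _ => rfl)
  have hrot' := hR E' hE'j
  have hcyc_old : ∀ t, CycInc (Wl p E h) t → CycInc (Wl p E' h) t := by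
    intro t ht
    have h1 : CycInc (Lc p E i ++ R) t := ht.rot hrot
    have h2 : CycInc (Lc p E' i ++ R) t := h1.mono (hLsub.append (List.Sublist.refl _))
    exact h2.rot hrot'.symm
  -- splitting off the old faces
  have hTT : ((List.range k).map tt).Nodup := by
    rw [List.Nodup, List.pairwise_map]
    have h1 : (List.range k).Pairwise (· < ·) := List.pairwise_lt_range
    refine (List.Pairwise.and_mem.1 h1).imp ?_
    rintro a b ⟨ha, hb, hab⟩
    exact htt a (List.mem_range.1 ha) b (List.mem_range.1 hb) hab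
  obtain ⟨Fr, hFr⟩ := perm_split hTT (F := F) (by
    intro t ht
    obtain ⟨a, ha, rfl⟩ := List.mem_map.1 ht
    exact (htw a (List.mem_range.1 ha)).1)
  have hFrF : ∀ t ∈ Fr, t ∈ F := fun t ht => hFr.mem_iff.2 (List.mem_append_right _ ht)
  have hTTb : ∀ f : P → P → ℝ, (∀ x y, f y x = - f x y) →
      bds f ((List.range k).map tt) = path f L +
        ∑ a ∈ Finset.Ico 0 k, (f (v (a + 1)) (w a) + f (w a) (v a)) := by
    intro f _
    unfold bds
    rw [List.map_map]
    have e1 : (List.map ((fun t : P × P × P => f t.1 t.2.1 + f t.2.1 t.2.2 + f t.2.2 t.1) ∘ tt)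
        (List.range k)) = (List.map (fun a => f (v a) (v (a + 1)) +
          (f (v (a + 1)) (w a) + f (w a) (v a))) (List.range k)) := by
      apply List.map_congr_left
      intro a ha
      obtain ⟨_, hca, _⟩ := htw a (List.mem_range.1 ha)
      simp only [Function.comp_apply]
      rcases hca with h1 | h1 | h1 <;> rw [h1] <;> ring
    rw [e1, path_getD f (p i) L, hlen]
    have e2 : k + 1 - 1 = k := by omega
    rw [e2, list_sum_range, ← Finset.range_eq_Ico, ← Finset.sum_add_distrib]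
  obtain ⟨Gn, hGn, hGb⟩ := s.A.pocket hnd' hEY' hi (hsep' i hi)
  set G' : ℕ → List (P × P × P) := Function.update G i Gn with hG'
  have hG'i : G' i = Gn := by rw [hG']; simp
  have hG'j : ∀ j, j ≠ i → G' j = G j := by
    intro j hj
    rw [hG']
    exact Function.update_of_ne hj _ _
  refine ⟨E', Fn ++ Fr, G', ⟨s.A, hnd', hEY', hsep', ?_, ?_, ?_, ?_, ?_, ?_, ?_, ?_⟩, hE'j, ?_⟩
  · intro t ht
    rcases List.mem_append.1 ht with ht | ht
    · exact (p1 t ht).1
    · exact s.fpos t (hFrF t ht)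
  · intro t ht
    rcases List.mem_append.1 ht with ht | ht
    · obtain ⟨_, a, _, ha, hwa, hpa⟩ := p1 t ht
      rw [← hLi] at hpa
      have hwR : w a ∈ R := by
        have h1 := (hrot.mem_iff (a := w a)).1 (htw a ha).2.2.2.1
        rcases List.mem_append.1 h1 with h1 | h1
        · exact absurd h1 (htw a ha).2.2.2.2
        · exact h1
      have hsub : ([t.1, t.2.1] ++ [w a]).Sublist (Lc p E' i ++ R) :=
        (pairs_sublist hpa).append (List.singleton_sublist.2 hwR)
      refine ⟨_, hrot'.symm, ?_⟩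
      rw [hwa]
      exact hsub
    · exact hcyc_old t (s.fcyc t (hFrF t ht))
  · rintro t ht j hj ⟨⟨h1, h2, h3⟩, hrev⟩
    rcases List.mem_append.1 ht with ht | ht
    · obtain ⟨_, a, _, ha, hwa, hpa⟩ := p1 t ht
      rw [← hLi] at hpa
      by_cases hij : j = i
      · subst hij
        rw [hwa] at h3
        exact (htw a ha).2.2.2.2 (hnewL _ h3 (htw a ha).2.2.2.1)
      · obtain ⟨m1', m2'⟩ := mem_of_pairs hpa
        have hne := pairs_pairwise (s.A.lc_nodup hnd' hEY' hi) _ hpa
        exact hne (s.A.unique hi hj (Ne.symm hij) (inC_of_mem hEY' hi m1')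
          (inC_of_mem hEY' hj h1) (inC_of_mem hEY' hi m2') (inC_of_mem hEY' hj h2))
    · have htF := hFrF t ht
      obtain ⟨c1, c2, c3⟩ := (s.fcyc t htF).mem
      by_cases hij : j = i
      · subst hij
        exact s.fmix t htF j hj ⟨⟨hnewL _ h1 c1, hnewL _ h2 c2, hnewL _ h3 c3⟩, hrev⟩
      · rw [hLj j hij] at h1 h2 h3
        exact s.fmix t htF j hj ⟨⟨h1, h2, h3⟩, hrev⟩
  · intro f hf
    have h1 := s.fbd f hf
    rw [bds_perm f hFr, bds_append, hTTb f hf] at h1
    rw [bds_append, b1 f hf, ← hLi]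
    rw [cpath_clo, clo_Wl (by omega) s.A.H.clo, Wl_path] at h1 ⊢
    have h2 : ∑ j ∈ Finset.range h, (path f (Lc p E' j) - path f (Lc p E j)) =
        path f (Lc p E' i) - path f (Lc p E i) := by
      apply Finset.sum_eq_single i
      · intro j _ hji
        rw [hLj j hji]; ring
      · intro hni
        exact absurd (Finset.mem_range.2 hi) hni
    rw [Finset.sum_sub_distrib] at h2
    have h3 : path f L = path f (Lc p E i) := rfl
    linarith
  · intro j hj t ht
    by_cases hij : j = i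
    · subst hij
      rw [hG'i] at ht
      exact (hGn t ht).1
    · rw [hG'j j hij] at ht
      exact s.gpos j hj t ht
  · intro j hj t ht
    by_cases hij : j = i
    · subst hij
      rw [hG'i] at ht
      exact (hGn t ht).2
    · rw [hG'j j hij] at ht
      rw [hLj j hij]
      exact s.gcyc j hj t ht
  · intro j hj t ht
    by_cases hij : j = i
    · subst hij
      rw [hG'i] at ht
      obtain ⟨q1, q2, q3⟩ := (hGn t ht).2.mem
      refine ⟨⟨q1, q3, q2⟩, ?_⟩
      rw [hty]
      trivial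
    · rw [hG'j j hij] at ht
      have := s.grev j hj t ht
      unfold Rev at this ⊢
      rw [hLj j hij]
      exact this
  · intro j hj
    by_cases hij : j = i
    · subst hij
      rw [hG'i]
      exact hGb
    · rw [hG'j j hij, hLj j hij]
      exact s.gbd j hj
  · intro z hz
    rw [hE'i, m1]
    by_cases hzE : z ∈ E i
    · right
      have h1 : z ∈ L := by
        rw [hL]; unfold Lc; simp [hzE]
      obtain ⟨a, ha, hza⟩ := List.mem_iff_getElem.1 h1
      have h2 : v a = z := by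
        show L.getD a (p i) = z
        rw [List.getD_eq_getElem _ _ ha, hza]
      refine ⟨a, ?_, ?_, h2⟩
      · by_contra hc
        have : a = 0 := by omega
        rw [this, hv0] at h2
        exact s.A.Yp i hi z hz i (by omega) h2.symm
      · by_contra hc
        have : a = k := by omega
        rw [this, hvk] at h2
        exact s.A.Yp i hi z hz (i + 1) (by omega) h2.symm
    · exact Or.inl ((hQmem z).2 ⟨hz, hzE⟩)

theorem AData.exists_final_aux (A : AData S h p Y) (ty : ℕ → Ty) : ∀ n ≤ h,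
    ∃ E F G, St S h p Y ty E F G ∧ (∀ i < n, ∀ z ∈ Y i, z ∈ E i) ∧
      (∀ i, n ≤ i → i < h → (ty i = Ty.concave → Raw p Y E i) ∧
        (ty i ≠ Ty.concave → ∀ z ∈ Y i, z ∈ E i))
  | 0, _ => by
    obtain ⟨E, F, G, s, hr⟩ := A.exists_init ty
    exact ⟨E, F, G, s, by simp, fun i _ hi => hr i hi⟩
  | n + 1, hn => by
    obtain ⟨E, F, G, s, hf, hr⟩ := A.exists_final_aux ty n (by omega)
    by_cases hty : ty n = Ty.concave
    · obtain ⟨E', F', G', s', hE, hfull⟩ := s.step (by omega) hty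
        ((hr n le_rfl (by omega)).1 hty)
      refine ⟨E', F', G', s', ?_, ?_⟩
      · intro i hi z hz
        by_cases hin : i = n
        · subst hin; exact hfull z hz
        · rw [hE i hin]
          exact hf i (by omega) z hz
      · intro i hi hih
        have := hr i (by omega) hih
        unfold Raw Lc at this ⊢
        rw [hE i (by omega)]
        exact this
    · refine ⟨E, F, G, s, ?_, fun i hi hih => hr i (by omega) hih⟩
      intro i hi z hz
      by_cases hin : i = n
      · subst hin; exact (hr i le_rfl (by omega)).2 hty z hz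
      · exact hf i (by omega) z hz

theorem AData.exists_final (A : AData S h p Y) (ty : ℕ → Ty) :
    ∃ E F G, St S h p Y ty E F G ∧ ∀ i < h, ∀ z ∈ Y i, z ∈ E i := by
  obtain ⟨E, F, G, s, hf, _⟩ := A.exists_final_aux ty h le_rfl
  exact ⟨E, F, G, s, hf⟩

end Pool.Agent.Helper111_GDC
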