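import Pool.Agent.Helper111_GDC.Faces

set_option autoImplicit false

/-!
Simple polygons in the plane and their triangulations, positively or negatively oriented.
-/

namespace Pool.Agent.Helper111_GDC

open Pool.Agent.Helper111_Chain Pool.Agent.Helper22.FC

noncomputable section

theorem wndFacts : WndFacts where
  const := wnd_const
  closed := curve_isClosed
  half := wnd_half
  rot := wnd_rotate
  crot := curve_rotate
  swap := ang_swap
  add := ang_add
  int := wnd_int
  jump := wnd_jump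

theorem tri_ne {a b c : ℂ} (h : SimpleL [b, c, a]) : side a b c ≠ 0 := by
  obtain ⟨v, hv, u, hu⟩ := exists_dir [b, c, a] (by simp)
  have hnd := h.2.1
  simp only [List.nodup_cons, List.mem_cons, List.not_mem_nil, or_false, not_or] at hnd
  obtain ⟨⟨hbc, hba⟩, hca, _⟩ := hnd
  have hc1 : side b c a = side a b c := by simp only [side_eq']; ring
  have hc2 : side c a b = side a b c := by simp only [side_eq']; ring
  simp only [List.mem_cons, List.not_mem_nil, or_false] at hv
  rcases hv with rfl | rfl | rfl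
  · refine (near_extreme wndFacts (a := a) (b := v) (c := c) (u := u) (M := []) h ?_).1
    intro w hw
    simp at hw
    rcases hw with rfl | rfl
    · exact hu _ (by simp) (Ne.symm hbc)
    · exact hu _ (by simp) (Ne.symm hba)
  · rw [← hc1]
    have h' : SimpleL [v, a, b] := h.rotate 1
    refine (near_extreme wndFacts (a := b) (b := v) (c := a) (u := u) (M := []) h' ?_).1
    intro w hw
    simp at hw
    rcases hw with rfl | rfl
    · exact hu _ (by simp) (Ne.symm hca)
    · exact hu _ (by simp) hbc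
  · rw [← hc2]
    have h' : SimpleL [v, b, c] := h.rotate 2
    refine (near_extreme wndFacts (a := c) (b := v) (c := b) (u := u) (M := []) h' ?_).1
    intro w hw
    simp at hw
    rcases hw with rfl | rfl
    · exact hu _ (by simp) hba
    · exact hu _ (by simp) hca

theorem tri3 (a b c : ℂ) (h : SimpleL [b, c, a]) (x : ℂ) (hx : x ∉ curve [b, c, a]) :
    wnd x [b, c, a] = 0 ∨
      wnd x [b, c, a] = if 0 < side a b c then 2 * Real.pi else - (2 * Real.pi) := by
  have hs := tri_ne h
  have hcurve : ∀ p q, (p, q) ∈ cyc [b, c, a] → x ∉ segment ℝ p q := fun p q hpq hx' =>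
    hx ⟨(p, q), hpq, hx'⟩
  by_cases hA : side b c x / side a b c < 0
  · exact Or.inl (tri_out wndFacts hs (Or.inl hA))
  by_cases hB : side c a x / side a b c < 0
  · exact Or.inl (tri_out wndFacts hs (Or.inr (Or.inl hB)))
  by_cases hC : side a b x / side a b c < 0
  · exact Or.inl (tri_out wndFacts hs (Or.inr (Or.inr hC)))
  rw [not_lt] at hA hB hC
  have h1 := bary_one (x := x) hs
  have he := bary_eq (x := x) hs
  rcases hA.eq_or_lt with hA0 | hA0
  · exfalso
    refine hcurve b c (by simp [cyc]) ?_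
    refine seg_of_coord0 hB hC (by rw [← hA0] at h1; linarith) ?_
    rw [← hA0] at he
    simpa using he
  rcases hB.eq_or_lt with hB0 | hB0
  · exfalso
    refine hcurve c a (by simp [cyc]) ?_
    refine seg_of_coord0 hC hA (by rw [← hB0] at h1; linarith) ?_
    rw [← hB0] at he
    rw [add_comm]
    simpa using he
  rcases hC.eq_or_lt with hC0 | hC0
  · exfalso
    refine hcurve a b (by simp [cyc]) ?_
    refine seg_of_coord0 hA hB (by rw [← hC0] at h1; linarith) ?_
    rw [← hC0] at he
    simpa using he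
  have hin := tri_in wndFacts hs (x := x) ⟨hA0, hB0, hC0⟩
  right
  split_ifs with hpos
  · exact hin.1 hpos
  · exact hin.2 (lt_of_le_of_ne (not_lt.1 hpos) hs)

theorem simple_good' {V : List ℂ} (hV : SimpleL V) :
    ∃ s : ℝ, (s = 1 ∨ s = -1) ∧ (∀ x, x ∉ curve V → wnd x V = 0 ∨ wnd x V = 2 * Real.pi * s) ∧
      (s = 1 → Good V) :=
  simple_good wnd_rotate curve_rotate tri3 (fun h hu => (near_extreme wndFacts h hu).1)
    (fun h hM hs => ear_or_diag h hM hs)
    (fun hM hV hu h2 hT hs _ hs1 hw => ear_values wndFacts hM hV hu h2 hT hs hs1 hw)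
    (fun hV hu h1 h2 hd hsub _ _ hs1 hs2 hw1 hw2 =>
      split_values wndFacts (fun h hu => near_extreme wndFacts h hu) hV hu h1 h2 hd hsub hs1 hs2
        hw1 hw2) hV

theorem exists_extreme {V : List ℂ} (hV : SimpleL V) :
    ∃ (a b c u : ℂ) (M : List ℂ) (k : ℕ), V.rotate k = [b, c] ++ M ++ [a] ∧
      ∀ v ∈ [c] ++ M ++ [a], 0 < ((v - b) * (starRingEnd ℂ) u).re := by
  have hVne : V ≠ [] := by
    intro h
    have := hV.1
    rw [h] at this
    simp at this
  obtain ⟨b, hb, u, hu⟩ := exists_dir V hVne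
  obtain ⟨S, T, hST⟩ := List.append_of_mem hb
  have hrot : V.rotate S.length = b :: (T ++ S) := by
    rw [hST, List.rotate_append_length_eq]
    rfl
  have hlen : 3 ≤ (b :: (T ++ S)).length := by
    rw [← hrot, List.length_rotate]
    exact hV.1
  obtain ⟨c, W, hcW⟩ : ∃ c W, T ++ S = c :: W := by
    cases hTS : T ++ S with
    | nil => rw [hTS] at hlen; simp at hlen
    | cons c W => exact ⟨c, W, rfl⟩
  obtain ⟨M, a, hMa⟩ : ∃ M a, W = M ++ [a] := by
    rcases List.eq_nil_or_concat W with h | ⟨M, a, h⟩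
    · rw [hcW, h] at hlen
      simp at hlen
    · exact ⟨M, a, by rw [h, List.concat_eq_append]⟩
  have hV' : V.rotate S.length = [b, c] ++ M ++ [a] := by
    rw [hrot, hcW, hMa]
    simp
  have hSV : SimpleL ([b, c] ++ M ++ [a]) := hV' ▸ hV.rotate S.length
  refine ⟨a, b, c, u, M, S.length, hV', ?_⟩
  intro v hv
  have hvV : v ∈ V := by
    rw [← List.mem_rotate (n := S.length), hV']
    simp only [List.mem_append, List.mem_cons, List.not_mem_nil, or_false] at hv ⊢
    tauto
  have hvb : v ≠ b := by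
    have hnd := hSV.2.1
    intro h
    rw [h] at hv
    have : ([b, c] ++ M ++ [a] : List ℂ) = b :: ([c] ++ M ++ [a]) := by simp
    rw [this, List.nodup_cons] at hnd
    exact hnd.1 hv
  exact hu v hvV hvb

theorem good_of_pos {V : List ℂ} (hV : SimpleL V) {a b c u : ℂ} {M : List ℂ} {k : ℕ}
    (hk : V.rotate k = [b, c] ++ M ++ [a])
    (hu : ∀ v ∈ [c] ++ M ++ [a], 0 < ((v - b) * (starRingEnd ℂ) u).re)
    (hpos : 0 < side a b c) : Good V := by
  obtain ⟨s, hs, hx, hg⟩ := simple_good' hV
  obtain ⟨_, δ, hδ, h1, _⟩ := near_extreme wndFacts (hk ▸ hV.rotate k) hu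
  set N := ‖c - b‖ + ‖a - b‖ with hN
  have hN0 : 0 ≤ N := by positivity
  set ε := δ / (2 * (N + 1)) with hε
  have hε0 : 0 < ε := by positivity
  have hlt : ‖(b + (ε : ℂ) * (c - b) + (ε : ℂ) * (a - b)) - b‖ < δ := by
    have e1 : (b + (ε : ℂ) * (c - b) + (ε : ℂ) * (a - b)) - b =
        (ε : ℂ) * (c - b) + (ε : ℂ) * (a - b) := by ring
    rw [e1]
    calc ‖(ε : ℂ) * (c - b) + (ε : ℂ) * (a - b)‖ ≤ ‖(ε : ℂ) * (c - b)‖ + ‖(ε : ℂ) * (a - b)‖ :=
          norm_add_le _ _
      _ = ε * N := by
          rw [norm_mul, norm_mul, Complex.norm_real, Real.norm_of_nonneg hε0.le, hN]; ring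
      _ < δ := by
          rw [hε, div_mul_eq_mul_div, div_lt_iff₀ (by positivity)]
          nlinarith
  have h2 := h1 _ hlt ⟨ε, ε, hε0, hε0, rfl⟩
  rw [if_pos hpos, ← hk, curve_rotate, wnd_rotate] at h2
  rcases hx _ h2.1 with h | h
  · rw [h2.2] at h
    have := Real.pi_pos
    linarith
  · rw [h2.2] at h
    have := Real.pi_pos
    refine hg ?_
    have h3 : 2 * Real.pi * (s - 1) = 0 := by linarith
    rcases mul_eq_zero.1 h3 with h4 | h4
    · linarith
    · linarith

theorem cyc_map {α β : Type*} (f : α → β) (V : List α) :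
    cyc (V.map f) = (cyc V).map (Prod.map f f) := by
  unfold cyc
  rw [← List.map_rotate, List.zip_map]

theorem simple_conj {V : List ℂ} (hV : SimpleL V) : SimpleL (V.map (starRingEnd ℂ)) := by
  obtain ⟨h1, h2, h3⟩ := hV
  have hinj : Function.Injective (starRingEnd ℂ) := (starRingEnd ℂ).injective
  refine ⟨by simpa using h1, h2.map hinj, ?_⟩
  intro e he e' he' hne
  rw [cyc_map] at he he'
  obtain ⟨e0, he0, rfl⟩ := List.mem_map.1 he
  obtain ⟨e0', he0', rfl⟩ := List.mem_map.1 he'
  have hne0 : e0 ≠ e0' := by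
    rintro rfl
    exact hne rfl
  have himg : ∀ x y z : ℂ, z ∈ segment ℝ ((starRingEnd ℂ) x) ((starRingEnd ℂ) y) →
      (starRingEnd ℂ) z ∈ segment ℝ x y := by
    rintro x y z ⟨s, t, hs, ht, hst, rfl⟩
    refine ⟨s, t, hs, ht, hst, ?_⟩
    simp
  rintro z ⟨hz1, hz2⟩
  have := h3 e0 he0 e0' he0' hne0 ⟨himg _ _ _ hz1, himg _ _ _ hz2⟩
  simp only [Set.mem_inter_iff, Set.mem_insert_iff, Set.mem_singleton_iff, Prod.map_fst,
    Prod.map_snd] at this ⊢
  have key : ∀ w : ℂ, (starRingEnd ℂ) z = w → z = (starRingEnd ℂ) w := by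
    intro w hw
    rw [← hw]; simp
  obtain ⟨t1, t2⟩ := this
  refine ⟨?_, ?_⟩
  · rcases t1 with t | t
    · exact Or.inl (key _ t)
    · exact Or.inr (key _ t)
  · rcases t2 with t | t
    · exact Or.inl (key _ t)
    · exact Or.inr (key _ t)

theorem good_or {V : List ℂ} (hV : SimpleL V) : Good V ∨ Good (V.map (starRingEnd ℂ)) := by
  obtain ⟨a, b, c, u, M, k, hk, hu⟩ := exists_extreme hV
  have hne : side a b c ≠ 0 := (near_extreme wndFacts (hk ▸ hV.rotate k) hu).1
  rcases lt_or_gt_of_ne hne with h | h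
  · right
    refine good_of_pos (a := (starRingEnd ℂ) a) (b := (starRingEnd ℂ) b) (c := (starRingEnd ℂ) c)
      (u := (starRingEnd ℂ) u) (M := M.map (starRingEnd ℂ)) (k := k) (simple_conj hV) ?_ ?_ ?_
    · rw [← List.map_rotate, hk]; simp
    · intro v hv
      have hv' : v ∈ ([c] ++ M ++ [a]).map (starRingEnd ℂ) := by simpa using hv
      obtain ⟨v0, hv0, rfl⟩ := List.mem_map.1 hv'
      have := hu v0 hv0
      simp only [Complex.mul_re, Complex.sub_re, Complex.sub_im, Complex.conj_re,
        Complex.conj_im] at this ⊢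
      linarith
    · simp only [side_eq', Complex.conj_re, Complex.conj_im] at h ⊢
      linarith
  · exact Or.inl (good_of_pos hV hk hu h)

/-- The point of `ℂ`. -/
def toC (p : P) : ℂ := ⟨p.1, p.2⟩

theorem toC_inj : Function.Injective toC := by
  intro p q h
  have h1 := congrArg Complex.re h
  have h2 := congrArg Complex.im h
  exact Prod.ext h1 h2

/-- Closed list. -/
def clo {α : Type*} : List α → List α
  | [] => []
  | (u :: l) => u :: (l ++ [u])

theorem cpath_clo {ι : Type*} (w : ι → ι → ℝ) (W : List ι) : cpath w W = path w (clo W) := by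
  cases W <;> simp [cpath, clo]

theorem zip_pairs {α : Type*} : ∀ (v : α) (W : List α) (u : α),
    List.zip (v :: W) (W ++ [u]) = pairs (v :: (W ++ [u]))
  | v, [], u => rfl
  | v, (x :: W), u => by
    rw [List.cons_append, List.zip_cons_cons, pairs_cons, zip_pairs x W u]

theorem cyc_pairs {α : Type*} (W : List α) : cyc W = pairs (clo W) := by
  cases W with
  | nil => rfl
  | cons v W =>
    unfold cyc clo
    rw [List.rotate_cons_succ, List.rotate_zero, zip_pairs]

/-- Simple closed polygon with vertices in the plane. -/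
def SimP (W : List P) : Prop := 3 ≤ W.length ∧ W.Nodup ∧
  ∀ e ∈ pairs (clo W), ∀ e' ∈ pairs (clo W), e ≠ e' → ∀ z, z ∈ segment ℝ e.1 e.2 →
    z ∈ segment ℝ e'.1 e'.2 → (z = e.1 ∨ z = e.2) ∧ (z = e'.1 ∨ z = e'.2)

theorem SimP.simpleL {W : List P} (h : SimP W) : SimpleL (W.map toC) := by
  obtain ⟨h1, h2, h3⟩ := h
  refine ⟨by simpa using h1, h2.map toC_inj, ?_⟩
  intro e he e' he' hne
  rw [cyc_map, cyc_pairs] at he he'
  obtain ⟨e0, he0, rfl⟩ := List.mem_map.1 he
  obtain ⟨e0', he0', rfl⟩ := List.mem_map.1 he'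
  have hne0 : e0 ≠ e0' := by
    rintro rfl
    exact hne rfl
  have himg : ∀ (x y : P) (z : ℂ), z ∈ segment ℝ (toC x) (toC y) →
      ((z.re, z.im) : P) ∈ segment ℝ x y := by
    rintro x y z ⟨s, t, hs, ht, hst, rfl⟩
    refine ⟨s, t, hs, ht, hst, ?_⟩
    apply Prod.ext <;> simp [toC]
  rintro z ⟨hz1, hz2⟩
  have := h3 e0 he0 e0' he0' hne0 _ (himg _ _ _ hz1) (himg _ _ _ hz2)
  simp only [Set.mem_inter_iff, Set.mem_insert_iff, Set.mem_singleton_iff, Prod.map_fst,
    Prod.map_snd]
  have key : ∀ w : P, ((z.re, z.im) : P) = w → z = toC w := by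
    intro w hw
    rw [← hw]; rfl
  obtain ⟨t1, t2⟩ := this
  refine ⟨?_, ?_⟩
  · rcases t1 with t | t
    · exact Or.inl (key _ t)
    · exact Or.inr (key _ t)
  · rcases t2 with t | t
    · exact Or.inl (key _ t)
    · exact Or.inr (key _ t)

theorem side_toC (a b c : P) : side (toC a) (toC b) (toC c) = o a b c := by
  simp only [side_eq', toC]
  unfold o
  ring

theorem side_conj_toC (a b c : P) : side ((starRingEnd ℂ) (toC a)) ((starRingEnd ℂ) (toC b))
    ((starRingEnd ℂ) (toC c)) = - o a b c := by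
  simp only [side_eq', toC, Complex.conj_re, Complex.conj_im]
  unfold o
  ring

/-- A simple polygon has a triangulation, all of whose faces have the same orientation. -/
theorem poly {W : List P} (h : SimP W) :
    (∃ F : List (P × P × P), (∀ t ∈ F, CycInc W t ∧ 0 < o t.1 t.2.1 t.2.2) ∧
      ∀ w : P → P → ℝ, (∀ u v, w v u = - w u v) → bds w F = cpath w W) ∨
    (∃ F : List (P × P × P), (∀ t ∈ F, CycInc W t ∧ o t.1 t.2.1 t.2.2 < 0) ∧
      ∀ w : P → P → ℝ, (∀ u v, w v u = - w u v) → bds w F = cpath w W) := by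
  rcases good_or h.simpleL with hg | hg
  · left
    obtain ⟨F, hF, hb⟩ := good_faces hg toC W rfl
    refine ⟨F, fun t ht => ⟨(hF t ht).1, ?_⟩, hb⟩
    rw [← side_toC]
    exact (hF t ht).2
  · right
    obtain ⟨F, hF, hb⟩ := good_faces hg (fun p => (starRingEnd ℂ) (toC p)) W (by
      rw [List.map_map]; rfl)
    refine ⟨F, fun t ht => ⟨(hF t ht).1, ?_⟩, hb⟩
    have := (hF t ht).2
    rw [side_conj_toC] at this
    linarith

end

end Pool.Agent.Helper111_GDC
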